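import Pool.Agent.Helper77.G.Scat
import Pool.Agent.Helper47.DS.Defs

/-!
# Row Q + ST of Theorem D* (helper77)
-/

open Set BIC
open scoped Matroid

namespace C1Q

variable {α : Type*}

lemma gap_mono {a : ℕ → ℕ} {q n : ℕ} (h : ∀ t < n, a t + 2 * q + 1 < a (t + 1)) {t t' : ℕ}
    (htt : t ≤ t') (ht : t' ≤ n) : a t ≤ a t' := by
  induction t', htt using Nat.le_induction with
  | base => exact le_rfl
  | succ m _ ih =>
    have := h m (by omega)
    have := ih (by omega)
    omega

/-- balanced regions: the union is balanced -/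
lemma bal_union {L N : Matroid α} [L.Finite] [N.Finite] {S Z : Set α} {ends : α → Sym2 ℕ}
    (hB : Bic N S ends) {a : ℕ → ℕ} {q n : ℕ} (hgap : ∀ t < n, a t + 2 * q + 1 < a (t + 1))
    (G : Finset ℕ) (hG : ∀ t ∈ G, t < n)
    (h : ∀ t ∈ G, rk L (Z ∪ reg S ends a q t) ≤ rk L Z + rk N (reg S ends a q t)) :
    rk L (Z ∪ ⋃ t ∈ G, reg S ends a q t) ≤ rk L Z + rk N (⋃ t ∈ G, reg S ends a q t) := by
  classical
  induction G using Finset.induction_on with
  | empty => simp
  | insert t G ht ih =>
    have h1 := ih (fun t' ht' => hG t' (Finset.mem_insert_of_mem ht'))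
      (fun t' ht' => h t' (Finset.mem_insert_of_mem ht'))
    have h2 := h t (Finset.mem_insert_self t G)
    have htn := hG t (Finset.mem_insert_self t G)
    rw [Finset.set_biUnion_insert]
    set K := ⋃ t ∈ G, reg S ends a q t with hK
    have hKs : K ⊆ ins S ends (⋃ t ∈ G, Ico (a t + 2 * q) (a (t + 1))) := by
      rw [hK]
      refine Set.iUnion₂_subset ?_
      intro t' ht'
      exact ins_mono (Set.subset_biUnion_of_mem (u := fun t => Ico (a t + 2 * q) (a (t + 1))) ht')
    have hd : Disjoint (⋃ t ∈ G, Ico (a t + 2 * q) (a (t + 1)))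
        (Ico (a t + 2 * q) (a (t + 1))) := by
      rw [Set.disjoint_iUnion₂_left]
      intro t' ht'
      have htn' := hG t' (Finset.mem_insert_of_mem ht')
      have hne : t' ≠ t := by rintro rfl; exact ht ht'
      rw [Set.disjoint_left]
      intro v hv hv'
      have v1 := hv.1
      have v2 := hv.2
      have v3 := hv'.1
      have v4 := hv'.2
      rcases lt_or_gt_of_ne hne with h3 | h3
      · have := gap_mono hgap (show t' + 1 ≤ t by omega) (by omega)
        omega
      · have := gap_mono hgap (show t + 1 ≤ t' by omega) (by omega)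
        omega
    have h3 := skew hB hd hKs (Subset.rfl : reg S ends a q t ⊆ ins S ends (Ico (a t + 2 * q) (a (t + 1))))
    have h4 := rk_submod L (Z ∪ K) (Z ∪ reg S ends a q t)
    have h5 : rk L Z ≤ rk L ((Z ∪ K) ∩ (Z ∪ reg S ends a q t)) :=
      rk_mono L (subset_inter subset_union_left subset_union_left)
    have h6 : rk L (Z ∪ (reg S ends a q t ∪ K)) ≤ rk L (Z ∪ K ∪ (Z ∪ reg S ends a q t)) := by
      refine rk_mono L ?_
      rintro e (he | he | he)
      · exact Or.inl (Or.inl he)
      · exact Or.inr (Or.inr he)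
      · exact Or.inl (Or.inr he)
    rw [union_comm (reg S ends a q t) K] at h6 ⊢
    omega

theorem st_scat {V : Type*} {L N : Matroid α} [L.Finite] [N.Finite] {S : Set α} {ends : α → Sym2 V}
    {k u q n Lg : ℕ} (hk : 1 ≤ k) (hB : Bic N S ends) (hSL : S ⊆ L.E)
    (hQ : BICS.Quo L N S) {C E : Set α} {U W : Set V} (hst : St L N S ends k u C E U)
    (hEk : k ≤ E.ncard) (hEc : E.ncard ≤ 2 * k) (hUW : Disjoint U W) {pos : V → ℕ}
    (hpos : InjOn pos W) {el : ℕ → α} {rg : ℕ → ℕ → α} {a : ℕ → ℕ}
    (hBl : Secs (ins S ends W) (fun e => (ends e).map pos) el rg a q n Lg)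
    (hq : Q0 (2 ^ (2 * k)) ≤ q) {τ : ℕ → Set V}
    (hτ : ∀ t < n, ins S ends (τ t) ⊆ reg (ins S ends W) (fun e => (ends e).map pos) a q t)
    (gr : ℕ → Finset ℕ) (hgr : ∀ p < 2 ^ (2 * k), gr p ⊆ Finset.Ico 1 n)
    (hgd : ∀ p < 2 ^ (2 * k), ∀ p' < 2 ^ (2 * k), p ≠ p' → Disjoint (gr p) (gr p'))
    (hun : ∀ p < 2 ^ (2 * k), rk N (⋃ t ∈ gr p, ins S ends (τ t)) + u ≤
      rk L (⋃ t ∈ gr p, ins S ends (τ t))) :
    ∃ C' E', St L N S ends k u C' E' (U ∪ W) ∧ E'.ncard = E.ncard + 1 := by
  classical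
  set S' := ins S ends W with hS'
  set ends' : α → Sym2 ℕ := fun e => (ends e).map pos with hends'
  have hS'L : S' ⊆ L.E := fun e he => hSL he.1
  have hB' : Bic N S' ends' := bic_map hB hpos
  have hEL : E ⊆ L.E := fun e he => hSL (hst.subE he).1
  have hCL : C ⊆ L.E := fun e he => hSL (hst.subC he).1
  have hEf : E.Finite := L.ground_finite.subset hEL
  have hCf : C.Finite := L.ground_finite.subset hCL
  -- an injection of `E` into `Fin (2 k)`
  obtain ⟨f, hf⟩ : ∃ f : α → Fin (2 * k), InjOn f E := by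
    have h1 : E.encard ≤ (univ : Set (Fin (2 * k))).encard := by
      rw [← hEf.cast_ncard_eq, Set.encard_univ]
      simp only [ENat.card_eq_coe_fintype_card, Fintype.card_fin]
      exact_mod_cast hEc
    have : Nonempty (Fin (2 * k)) := ⟨⟨0, by omega⟩⟩
    obtain ⟨f, _, hf⟩ := hEf.exists_injOn_of_encard_le h1
    exact ⟨f, hf⟩
  set I : Finset (Fin (2 * k)) → Set α := fun s => {e | e ∈ E ∧ f e ∈ s} with hI
  have hIE : ∀ s, I s ⊆ E := fun s e he => he.1
  set bal : Finset (Fin (2 * k)) → Set α → Prop := fun s X =>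
    (I s).ncard + 1 = k ∧ rk L ((C ∪ I s) ∪ (X ∩ S')) ≤ rk L (C ∪ I s) + rk N (X ∩ S') with hbaldef
  have hZ : ∀ s, C ∪ I s ⊆ ins S ends U := fun s =>
    union_subset hst.subC ((hIE s).trans hst.subE)
  have hover := fun s => quo_over hB hQ hUW (hZ s)
  have hbal : ∀ s, Bal S' ends' (bal s) := by
    intro s
    have h1 := bal_inst (L := L) hB' (hover s)
    constructor
    · rintro X Y hXY ⟨h2, h3⟩
      exact ⟨h2, h1.mono X Y hXY h3⟩
    · rintro X Y A A' hA hA' hX hY hZ' ⟨h2, h3⟩ ⟨_, h4⟩
      exact ⟨h2, h1.mod X Y A A' hA hA' hX hY hZ' h3 h4⟩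
  have hcard : Fintype.card (Finset (Fin (2 * k))) = 2 ^ (2 * k) := by
    rw [Fintype.card_finset, Fintype.card_fin]
  have hlo := hst.lo
  have hhi := hst.hi
  -- every group gives an unbalanced region
  have hunb : ∀ (s : Finset (Fin (2 * k))) (p : ℕ), p < 2 ^ (2 * k) →
      ∃ t ∈ gr p, ¬ bal s (reg S' ends' a q t) := by
    intro s p hp
    by_contra hcon
    push Not at hcon
    have h4 := hun p hp
    have hgn : ∀ t ∈ gr p, t < n := fun t ht => (Finset.mem_Ico.1 (hgr p hp ht)).2
    have hCk : rk N C ≤ C.ncard := rk_le_ncard N hCf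
    rcases (gr p).eq_empty_or_nonempty with he | ⟨t₀, ht₀⟩
    · rw [he] at h4
      simp only [Finset.notMem_empty, Set.iUnion_of_empty, Set.iUnion_empty] at h4
      rw [rk_empty, rk_empty] at h4
      omega
    · obtain ⟨h2, -⟩ := hcon t₀ ht₀
      have hKS : ∀ t, reg S' ends' a q t ⊆ S' := fun t e he => he.1
      have h3 := bal_union (Z := C ∪ I s) hB' hBl.gap (gr p) hgn (fun t ht => by
        obtain ⟨-, h⟩ := hcon t ht
        rwa [inter_eq_self_of_subset_left (hKS t)] at h)
      set K := ⋃ t ∈ gr p, reg S' ends' a q t with hK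
      have hKS' : K ⊆ S' := Set.iUnion₂_subset (fun t _ => hKS t)
      set X := ⋃ t ∈ gr p, ins S ends (τ t) with hX
      have hXK : X ⊆ K := Set.iUnion₂_mono (fun t ht => hτ t (hgn t ht))
      have h5 := hQ X (C ∪ I s ∪ K) (hXK.trans subset_union_right)
        (union_subset (fun e he => (hZ s he).1) (fun e he => (hKS' he).1))
      have h6 := skew hB hUW (hZ s) hKS'
      have h7 : rk L (C ∪ I s) ≤ C.ncard + (I s).ncard :=
        (rk_le_ncard L (hCf.union (hEf.subset (hIE s)))).trans (Set.ncard_union_le _ _)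
      have h8 : rk N C ≤ rk N (C ∪ I s) := rk_mono N subset_union_left
      omega
  have h0 : 0 < 2 ^ (2 * k) := by positivity
  have hn : 1 ≤ n := by
    obtain ⟨t, ht, -⟩ := hunb ∅ 0 h0
    have := Finset.mem_Ico.1 (hgr 0 h0 ht)
    omega
  obtain ⟨x, B, l, hx, hSDR, hBs, hl, hlB, hgood⟩ := lemmaQs hn (by rw [hcard]; exact hq)
    hBl (L.ground_finite.subset hS'L) bal hbal (by
      intro s
      have hch : ∀ p, ∃ t, p < 2 ^ (2 * k) → t ∈ gr p ∧ ¬ bal s (reg S' ends' a q t) := by
        intro p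
        by_cases hp : p < 2 ^ (2 * k)
        · obtain ⟨t, h1, h2⟩ := hunb s p hp
          exact ⟨t, fun _ => ⟨h1, h2⟩⟩
        · exact ⟨0, fun h => absurd h hp⟩
      choose g hg using hch
      refine ⟨(Finset.range (2 ^ (2 * k))).image g, ?_, ?_, ?_⟩
      · intro t ht
        obtain ⟨p, hp, rfl⟩ := Finset.mem_image.1 ht
        have hp' := Finset.mem_range.1 hp
        exact hgr p hp' (hg p hp').1
      · rw [Finset.card_image_of_injOn, Finset.card_range, hcard]
        intro p hp p' hp' hpp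
        have hp1 := Finset.mem_range.1 (Finset.mem_coe.1 hp)
        have hp1' := Finset.mem_range.1 (Finset.mem_coe.1 hp')
        by_contra hne
        have h1 := (hg p hp1).1
        rw [hpp] at h1
        exact Finset.disjoint_left.1 (hgd p hp1 p' hp1' hne) h1 (hg p' hp1').1
      · intro t ht
        obtain ⟨p, hp, rfl⟩ := Finset.mem_image.1 ht
        exact (hg p (Finset.mem_range.1 hp)).2)
  have hBS : B ⊆ S' := fun e he => (hBs he).1
  have hlS : l ∈ S' := hl.1
  have hBf : B.Finite := L.ground_finite.subset (hBS.trans hS'L)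
  have hBi : N.Indep B := hSDR.indep hB' hBS
  have hBc : B.ncard = x := by rw [hSDR.ncard, Set.ncard_Ico_nat, Nat.sub_zero]
  have hlBs : insert l B ⊆ ins S' ends' (Ico 0 x) := insert_subset hl hBs
  have hrlB : rk N (insert l B) ≤ x := by
    have := rk_le_of_ins hB' (finite_Ico 0 x) hlBs
    rwa [Set.ncard_Ico_nat, Nat.sub_zero] at this
  have hrB : rk N B = x := by rw [rk_indep hBi, hBc]
  have hrlB' : x ≤ rk N (insert l B) := by
    rw [← hrB]; exact rk_mono N (subset_insert _ _)
  -- vertex-disjointness gives disjointness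
  have hdis : ∀ X Y : Set α, X ⊆ ins S ends U → Y ⊆ S' → Disjoint X Y := by
    intro X Y hX hY
    exact (ins_disj hUW).mono hX hY
  have hCB : Disjoint C B := hdis C B hst.subC hBS
  have hEB : Disjoint E B := hdis E B hst.subE hBS
  have hlE : l ∉ E := fun h => Set.disjoint_left.1 (hdis E {l} hst.subE (by simpa using hlS)) h rfl
  have hlC : l ∉ C := fun h => Set.disjoint_left.1 (hdis C {l} hst.subC (by simpa using hlS)) h rfl
  have hCBc : (C ∪ B).ncard = C.ncard + x := by
    rw [Set.ncard_union_eq hCB hCf hBf, hBc]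
  refine ⟨C ∪ B, insert l E, ⟨?_, ?_, ?_, ?_, ?_, ?_⟩, ?_⟩
  · refine union_subset (hst.subC.trans (ins_mono subset_union_left)) ?_
    exact hBS.trans (ins_mono subset_union_right)
  · exact insert_subset (ins_mono subset_union_right hlS)
      (hst.subE.trans (ins_mono subset_union_left))
  · rw [Set.disjoint_left]
    rintro e (rfl | he) (h | h)
    · exact hlC h
    · exact hlB h
    · exact Set.disjoint_left.1 hst.disj he h
    · exact Set.disjoint_left.1 hEB he h
  · intro J hJ hJc
    by_cases hlJ : l ∈ J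
    · -- new sets
      set J₀ := J \ {l} with hJ₀
      have hJ₀E : J₀ ⊆ E := by
        rintro e ⟨h1, h2⟩
        exact (hJ h1).resolve_left h2
      have hJf : J.Finite := (hEf.insert l).subset hJ
      have hJ₀c : J₀.ncard + 1 = k := by
        rw [← hJc, hJ₀, Set.ncard_sdiff_singleton_add_one hlJ hJf]
      set s : Finset (Fin (2 * k)) := Finset.univ.filter (fun y => ∃ e ∈ J₀, f e = y) with hs
      have hIs : I s = J₀ := by
        ext e
        constructor
        · rintro ⟨h1, h2⟩
          obtain ⟨e', he', hee⟩ := (Finset.mem_filter.1 h2).2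
          rwa [← hf (hJ₀E he') h1 hee]
        · intro he
          exact ⟨hJ₀E he, Finset.mem_filter.2 ⟨Finset.mem_univ _, e, he, rfl⟩⟩
      obtain ⟨J₁, hJ01, hJ1E, hJ1c⟩ := Set.exists_subsuperset_card_eq hJ₀E
        (show J₀.ncard ≤ k by omega) hEk
      have hZi : L.Indep (C ∪ J₀) :=
        (hst.ind J₁ hJ1E hJ1c).subset (union_subset_union_right _ hJ01)
      have hg := hgood s
      have hlBS : insert l B ⊆ S' := insert_subset hlS hBS
      rw [hbaldef] at hg
      simp only [hIs, not_and, not_le] at hg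
      have hg2 := hg hJ₀c
      rw [inter_eq_self_of_subset_left hlBS] at hg2
      have e1 : C ∪ B ∪ J = C ∪ J₀ ∪ insert l B := by
        ext e
        simp only [mem_union, mem_insert_iff, hJ₀, mem_sdiff, mem_singleton_iff]
        by_cases hel : e = l
        · subst hel; simp [hlJ]
        · simp only [hel, not_false_eq_true, and_true, false_or]
          tauto
      rw [e1]
      have hZd : Disjoint C J₀ := hst.disj.symm.mono_right hJ₀E
      have hJ₀f : J₀.Finite := hEf.subset hJ₀E
      refine indep_of_rk ?_ ?_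
      · exact union_subset (union_subset hCL (hJ₀E.trans hEL)) (hlBS.trans hS'L)
      · have h1 : (C ∪ J₀ ∪ insert l B).ncard ≤ (C ∪ J₀).ncard + (B.ncard + 1) :=
          (Set.ncard_union_le _ _).trans (Nat.add_le_add_left (Set.ncard_insert_le _ _) _)
        have h2 := rk_indep hZi
        omega
    · -- old sets
      have hJE : J ⊆ E := fun e he => (hJ he).resolve_left (fun h => hlJ (h ▸ he))
      have hZi : L.Indep (C ∪ J) := hst.ind J hJE hJc
      have h1 := quo_over hB hQ hUW (Z := C ∪ J) (union_subset hst.subC (hJE.trans hst.subE))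
        ∅ B (empty_subset _) hBS
      rw [union_empty, rk_empty] at h1
      have e1 : C ∪ B ∪ J = C ∪ J ∪ B := by
        rw [union_right_comm]
      rw [e1]
      refine indep_of_rk ?_ ?_
      · exact union_subset (union_subset hCL (hJE.trans hEL)) (hBS.trans hS'L)
      · have h2 := rk_indep hZi
        have h3 : (C ∪ J ∪ B).ncard ≤ (C ∪ J).ncard + B.ncard := Set.ncard_union_le _ _
        omega
  · have h1 := skew hB hUW hst.subC hBS
    omega
  · have e1 : C ∪ B ∪ insert l E = C ∪ E ∪ insert l B := by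
      ext e
      simp only [mem_union, mem_insert_iff]
      tauto
    rw [e1, hCBc]
    have h1 := rk_union_le' N (C ∪ E) (insert l B)
    omega
  · rw [Set.ncard_insert_of_notMem hlE hEf]

end C1Q

namespace BICS

universe u

theorem stStmt : StStmt.{u} := by
  intro α L N _ _ S ends k u q N' hk hB hSL hQ C E U W hst hEk hEc hUW τ hLane hq gr hgr hgd hun
  obtain ⟨pos, el, Lg, a, R, hpos, hs, hsec, hgap, hτ⟩ := hLane
  exact C1Q.st_scat hk hB hSL hQ hst hEk hEc hUW hpos
    ⟨hs, fun t ht => (hsec t ht).2, fun t ht => (hsec t ht).1, hgap⟩ hq hτ gr hgr hgd hun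

end BICS
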