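import Pool.Agent.Helper77.G.Loc
import Pool.Agent.Helper57.TB.Top

/-!
# Theorem LOC in terms of the graph `G_n^+` (helper77)
-/

open Set BIC
open scoped Matroid

namespace BICS

universe u

/-- From `IsBicircular N (GPlus n)` to the plain grid, with the vertices of all edges. -/
theorem conv2 {α : Type u} {n : ℕ} {N : Matroid α} [N.Finite]
    (h : IsBicircular N (GPlus n)) :
    ∃ (S T : Set α) (ends : α → Sym2 (ℕ × ℕ)), S ∪ T = N.E ∧ Disjoint S T ∧ Bic N N.E ends ∧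
      InjOn ends N.E ∧ Grd S ends 0 0 n n ∧ N.Indep T ∧ rk N N.E ≤ n * n + 1 ∧
      (∀ e ∈ T, (n, n) ∈ ends e) ∧
      (∀ e ∈ N.E, ∃ p q, ends e = s(p, q) ∧ (q = (n, n) ∨
        (q.1 ≤ p.1 + 1 ∧ q.2 ≤ p.2 + 1 ∧ p.1 ≤ q.1 + 1 ∧ p.2 ≤ q.2 + 1))) := by
  classical
  have h' : IsBicircular (N ↾ N.E) (GPlus n) := by
    rw [Matroid.restrict_ground_eq_self]
    exact h
  obtain ⟨φ, ends, h1, hB⟩ := exists_bic (subset_refl N.E) h'
  obtain ⟨φ', hφ', hE', -⟩ := h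
  -- the ground set is the image of the edge set
  have hinj : InjOn φ (GPlus n).edgeSet := by
    intro x hx y hy hxy
    rw [← (h1 x hx).2, ← (h1 y hy).2, hxy]
  have hEfin : N.E.Finite := N.ground_finite
  have hE : N.E = φ '' (GPlus n).edgeSet := by
    symm
    apply Set.eq_of_subset_of_ncard_le _ _ hEfin
    · rintro _ ⟨x, hx, rfl⟩
      exact (h1 x hx).1
    · rw [hinj.ncard_image, hE', hφ'.ncard_image]
  have hx : ∀ e ∈ N.E, ends e ∈ (GPlus n).edgeSet ∧ φ (ends e) = e := by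
    intro e he
    rw [hE] at he
    obtain ⟨x, hx, rfl⟩ := he
    rw [(h1 x hx).2]
    exact ⟨hx, rfl⟩
  have hends : InjOn ends N.E := by
    intro e he e' he' hee
    rw [← (hx e he).2, ← (hx e' he').2, hee]
  set S : Set α := {e | e ∈ N.E ∧ none ∉ ends e} with hS
  set T : Set α := {e | e ∈ N.E ∧ none ∈ ends e} with hT
  refine ⟨S, T, fun e => (ends e).map (coord n), ?_, ?_, ?_, ?_, ?_, ?_, ?_, ?_, ?_⟩
  · ext e
    simp only [hS, hT, mem_union, mem_ofPred_eq]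
    tauto
  · rw [Set.disjoint_left]
    rintro e ⟨_, h2⟩ ⟨_, h3⟩
    exact h2 h3
  · refine ⟨subset_refl _, ?_, ?_⟩
    · intro F ψ hF hψ hψe
      have h2 : ∀ e ∈ F, ∃ v ∈ ends e, coord n v = ψ e := by
        intro e he
        exact Sym2.mem_map.1 (hψe e he)
      choose! ρ hρ1 hρ2 using h2
      refine hB.ind F ρ (fun e he => hF he) ?_ hρ1
      intro e he e' he' hee
      apply hψ he he'
      rw [← hρ2 e he, ← hρ2 e' he', hee]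
    · intro W
      have h2 : ins N.E (fun e => (ends e).map (coord n)) W ⊆ ins N.E ends (coord n ⁻¹' W) := by
        rintro e ⟨he, hW⟩
        refine ⟨he, fun v hv => ?_⟩
        exact hW _ (Sym2.mem_map.2 ⟨v, hv, rfl⟩)
      refine (N.eRk_mono h2).trans ((hB.rk _).trans ?_)
      have h3 : coord n '' (coord n ⁻¹' W) ⊆ W := image_preimage_subset _ _
      have h4 := Set.encard_le_encard h3
      rwa [(coord_inj n).encard_image] at h4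
  · intro e he e' he' hee
    exact hends he he' (Sym2.map.injective (coord_inj n) hee)
  · refine ⟨?_, ?_, ?_⟩
    · intro e he e' he' hee
      exact hends he.1 he'.1 (Sym2.map.injective (coord_inj n) hee)
    · rintro e ⟨he, hne⟩
      have h2 := (hx e he).1
      revert hne h2
      generalize ends e = x
      induction x with
      | _ a b =>
        intro hne h2
        rw [Sym2.mem_iff, not_or] at hne
        rw [SimpleGraph.mem_edgeSet] at h2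
        rcases a with _ | ⟨⟨a1, ha1⟩, ⟨a2, ha2⟩⟩
        · exact absurd rfl hne.1
        rcases b with _ | ⟨⟨b1, hb1⟩, ⟨b2, hb2⟩⟩
        · exact absurd rfl hne.2
        refine ⟨(a1, a2), (b1, b2), rfl, ?_, ?_, ?_⟩
        · rcases h2 with ⟨h3, h4⟩ | ⟨h3, h4⟩
          · left
            exact ⟨congrArg Fin.val h3, h4⟩
          · right
            exact ⟨congrArg Fin.val h3, h4⟩
        · simp only [rect, mem_ofPred_eq]
          omega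
        · simp only [rect, mem_ofPred_eq]
          omega
    · rintro ⟨p1, p2⟩ ⟨q1, q2⟩ hpq hp hq
      simp only [rect, mem_ofPred_eq, zero_add, Nat.zero_le, true_and] at hp hq
      have hadj : (GPlus n).Adj (some (⟨p1, hp.1⟩, ⟨p2, hp.2⟩)) (some (⟨q1, hq.1⟩, ⟨q2, hq.2⟩)) := by
        show gridAdj _ _
        rcases hpq with ⟨h3, h4⟩ | ⟨h3, h4⟩
        · left
          exact ⟨Fin.ext h3, h4⟩
        · right
          exact ⟨Fin.ext h3, h4⟩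
      have hmem : s(some (⟨p1, hp.1⟩, ⟨p2, hp.2⟩), some (⟨q1, hq.1⟩, ⟨q2, hq.2⟩)) ∈
          (GPlus n).edgeSet := hadj
      obtain ⟨g1, g2⟩ := h1 _ hmem
      refine ⟨_, ⟨g1, ?_⟩, ?_⟩
      · rw [g2, Sym2.mem_iff]
        simp
      · simp only [g2]
        rfl
  · -- the star is independent
    have h2 : ∀ e ∈ T, ∃ v, v ≠ none ∧ ends e = s(none, v) := by
      rintro e ⟨he, hne⟩
      have h3 := (hx e he).1
      obtain ⟨v, hv⟩ := Sym2.mem_iff_exists.1 hne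
      refine ⟨v, ?_, hv⟩
      rintro rfl
      rw [hv, SimpleGraph.mem_edgeSet] at h3
      exact h3.ne rfl
    choose! ρ hρ1 hρ2 using h2
    refine hB.ind T ρ (fun e he => he.1) ?_ ?_
    · intro e he e' he' hee
      apply hends he.1 he'.1
      rw [hρ2 e he, hρ2 e' he', hee]
    · intro e he
      rw [hρ2 e he, Sym2.mem_iff]
      exact Or.inr rfl
  · have h2 := hB.rk univ
    have h3 : ins N.E ends univ = N.E := by
      ext e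
      simp [ins]
    rw [h3, Set.encard_univ, ENat.card_eq_coe_fintype_card, Fintype.card_option,
      Fintype.card_prod, Fintype.card_fin, ← cast_rk] at h2
    exact_mod_cast h2
  · rintro e ⟨he, hne⟩
    exact Sym2.mem_map.2 ⟨none, hne, rfl⟩
  · intro e he
    have h2 := (hx e he).1
    revert h2
    generalize hxx : ends e = x
    intro h2
    simp only [hxx]
    clear hxx
    induction x with
    | _ a b =>
      rw [SimpleGraph.mem_edgeSet] at h2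
      rcases a with _ | ⟨⟨a1, ha1⟩, ⟨a2, ha2⟩⟩
      · refine ⟨coord n b, (n, n), ?_, Or.inl rfl⟩
        rw [Sym2.map_mk, Sym2.eq_swap]
        rfl
      rcases b with _ | ⟨⟨b1, hb1⟩, ⟨b2, hb2⟩⟩
      · refine ⟨_, (n, n), rfl, Or.inl rfl⟩
      refine ⟨(a1, a2), (b1, b2), rfl, Or.inr ?_⟩
      rcases h2 with ⟨h3, h4⟩ | ⟨h3, h4⟩
      · have h5 := congrArg Fin.val h3
        simp only at h4 h5 ⊢
        omega
      · have h5 := congrArg Fin.val h3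
        simp only at h4 h5 ⊢
        omega

section block

variable {α : Type*} {M : Matroid α}

/-- The apex star costs a factor two; the version with all edges. -/
theorem star2 {n : ℕ} (hn : 2 ≤ n) [M.Finite] {C D : Set α} (hC : C ⊆ M.E)
    (h : IsBicircular (M ／ C ＼ D) (GPlus n)) :
    ∃ (S : Set α) (ends : α → Sym2 (ℕ × ℕ)), S ⊆ M.E \ (C ∪ D) ∧
      Bic (M ／ C) (M.E \ (C ∪ D)) ends ∧ InjOn ends (M.E \ (C ∪ D)) ∧
      Grd S ends 0 0 n n ∧ (∀ e ∈ M.E \ (C ∪ D), e ∉ S → (n, n) ∈ ends e) ∧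
      (∀ e ∈ M.E \ (C ∪ D), ∃ p q, ends e = s(p, q) ∧ (q = (n, n) ∨
        (q.1 ≤ p.1 + 1 ∧ q.2 ≤ p.2 + 1 ∧ p.1 ≤ q.1 + 1 ∧ p.2 ≤ q.2 + 1))) ∧
      ∀ (Q : Set α) (n' : ℕ), Disjoint (M.E \ (C ∪ D)) Q →
        KGe M (M.E \ (C ∪ D)) Q (2 * n') → KGe M S Q n' := by
  have hfC : (M ／ C).Finite := ⟨M.ground_finite.subset sdiff_subset⟩
  have hf : (M ／ C ＼ D).Finite := ⟨M.ground_finite.subset (sdiff_subset.trans sdiff_subset)⟩
  have hgr : (M ／ C ＼ D).E = M.E \ (C ∪ D) := by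
    rw [Matroid.delete_ground, Matroid.contract_ground, sdiff_sdiff]
  obtain ⟨S, T, ends, hST, hdis, hB, hinj, hG, hT, hr, hap, hen⟩ := conv2 h
  have hS : S ⊆ M.E \ (C ∪ D) := by
    rw [← hgr, ← hST]
    exact subset_union_left
  have hrS := rk_rect (Bic_sub hB (by rw [← hST]; exact subset_union_left)) hG hn hn
  refine ⟨S, ends, hS, ?_, ?_, hG, ?_, ?_, ?_⟩
  · rw [hgr] at hB
    refine Bic_of_rk hB ?_ ?_
    · intro s hs
      exact ⟨hs.1, fun h => hs.2 (Or.inl h)⟩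
    · intro X hX
      symm
      apply rk_delete
      intro s hs
      exact ⟨⟨(hX hs).1, fun h => (hX hs).2 (Or.inl h)⟩,
        fun h => (hX hs).2 (Or.inr h)⟩
  · rw [hgr] at hinj
    exact hinj
  · intro e he heS
    rw [← hgr, ← hST] at he
    rcases he with he | he
    · exact absurd he heS
    · exact hap e he
  · intro e he
    exact hen e (by rw [hgr]; exact he)
  · intro Q n' hQ hK X hSX hXQ
    by_contra hcon
    push Not at hcon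
    have hXE : X ⊆ M.E := hXQ.trans sdiff_subset
    have h1 := lam_minor (M := M) (C := C) (D := D) (X := X) hC hXE
    rw [hgr] at hr
    have h2 : rk (M ／ C ＼ D) S ≤ rk (M ／ C ＼ D) (X \ (C ∪ D)) :=
      rk_mono _ (fun s hs => ⟨hSX hs, (hS hs).2⟩)
    have hBT : (M.E \ (C ∪ D)) \ X ⊆ T := by
      intro x hx
      have : x ∈ S ∪ T := by rw [hST, hgr]; exact hx.1
      rcases this with h | h
      · exact absurd (hSX h) hx.2
      · exact h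
    have h3 := rk_indep (hT.subset hBT)
    have hBf : ((M.E \ (C ∪ D)) \ X).Finite :=
      M.ground_finite.subset (sdiff_subset.trans sdiff_subset)
    have h4 := hK (X ∪ (M.E \ (C ∪ D)) \ X) (by
      intro x hx
      by_cases h : x ∈ X
      · exact Or.inl h
      · exact Or.inr ⟨hx, h⟩) (by
      rintro x (hx | hx)
      · exact hXQ hx
      · exact ⟨hx.1.1, fun h => Set.disjoint_left.1 hQ hx.1 h⟩)
    have h5 : rk M (X ∪ (M.E \ (C ∪ D)) \ X) ≤ rk M X + ((M.E \ (C ∪ D)) \ X).ncard :=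
      rk_union_le M hBf
    have h6 : rk M (M.E \ (X ∪ (M.E \ (C ∪ D)) \ X)) ≤ rk M (M.E \ X) :=
      rk_mono M (fun x hx => ⟨hx.1, fun h => hx.2 (Or.inl h)⟩)
    omega

/-- The number of edges touching a corner square. -/
lemma touch_ncard {S : Set α} {ends : α → Sym2 (ℕ × ℕ)} (hinj : InjOn ends S) {n m : ℕ}
    (hmn : m ≤ n) (h : ∀ e ∈ S, ∃ p q, ends e = s(p, q) ∧ (q = (n, n) ∨
        (q.1 ≤ p.1 + 1 ∧ q.2 ≤ p.2 + 1 ∧ p.1 ≤ q.1 + 1 ∧ p.2 ≤ q.2 + 1))) :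
    {e | e ∈ S ∧ ∃ v ∈ ends e, v ∈ rect 0 0 m m}.ncard ≤ (m * m) * ((m + 1) * (m + 1) + 1) := by
  classical
  have hfin : ∀ t, (rect 0 0 t t).Finite := by
    intro t
    rw [← Set.encard_lt_top_iff]
    exact lt_of_le_of_lt (rect_encard 0 0 t t) (ENat.natCast_lt_top _)
  have hc : ∀ t, (rect 0 0 t t).ncard ≤ t * t := by
    intro t
    have h := rect_encard 0 0 t t
    rw [← (hfin t).cast_ncard_eq] at h
    exact_mod_cast h
  have hfi : (insert (n, n) (rect 0 0 (m + 1) (m + 1))).Finite := (hfin _).insert _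
  set T : Set (Sym2 (ℕ × ℕ)) := (fun p : (ℕ × ℕ) × (ℕ × ℕ) => s(p.1, p.2)) ''
    (rect 0 0 m m ×ˢ insert (n, n) (rect 0 0 (m + 1) (m + 1))) with hT
  have hTf : T.Finite := ((hfin m).prod hfi).image _
  have h1 : ends '' {e | e ∈ S ∧ ∃ v ∈ ends e, v ∈ rect 0 0 m m} ⊆ T := by
    rintro _ ⟨e, ⟨he, v, hv, hvm⟩, rfl⟩
    obtain ⟨p, q, hpq, hor⟩ := h e he
    rw [hpq, Sym2.mem_iff] at hv
    simp only [rect, mem_ofPred_eq, zero_add, Nat.zero_le, true_and] at hvm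
    rcases hv with rfl | rfl
    · refine ⟨(v, q), ⟨?_, ?_⟩, hpq.symm⟩
      · simp only [rect, mem_ofPred_eq]
        omega
      · rcases hor with hor | hor
        · exact Or.inl hor
        · right
          simp only [rect, mem_ofPred_eq]
          omega
    · refine ⟨(v, p), ⟨?_, ?_⟩, ?_⟩
      · simp only [rect, mem_ofPred_eq]
        omega
      · rcases hor with hor | hor
        · rw [hor] at hvm
          simp only at hvm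
          omega
        · right
          simp only [rect, mem_ofPred_eq]
          omega
      · rw [hpq, Sym2.eq_swap]
  have h2 : {e | e ∈ S ∧ ∃ v ∈ ends e, v ∈ rect 0 0 m m}.ncard =
      (ends '' {e | e ∈ S ∧ ∃ v ∈ ends e, v ∈ rect 0 0 m m}).ncard :=
    ((hinj.mono (fun _ he => he.1)).ncard_image).symm
  rw [h2]
  refine (Set.ncard_le_ncard h1 hTf).trans ?_
  refine (Set.ncard_image_le ((hfin m).prod hfi)).trans ?_
  rw [Set.ncard_prod]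
  refine Nat.mul_le_mul (hc m) ?_
  refine (Set.ncard_insert_le _ _).trans ?_
  have := hc (m + 1)
  omega

/-- Contracting the edges that avoid `σ`. -/
lemma bic_block [M.Finite] {D E₂ : Set α} {ends : α → Sym2 (ℕ × ℕ)} (σ : Set (ℕ × ℕ))
    (hD : D ⊆ M.E) (hE : E₂ ⊆ M.E \ D) (hB : Bic (M ／ D) E₂ ends) :
    Bic (M ／ (D ∪ ins E₂ ends σᶜ)) (ins E₂ ends σ) ends := by
  have f1 : (M ／ D).Finite := BQ.fin_contract D
  have f2 : (M ／ (D ∪ ins E₂ ends σᶜ)).Finite := BQ.fin_contract _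
  have hs1 : ins E₂ ends σ ⊆ E₂ := fun _ he => he.1
  have hs2 : ins E₂ ends σᶜ ⊆ E₂ := fun _ he => he.1
  have hdis : Disjoint (ins E₂ ends σ) (ins E₂ ends σᶜ) := by
    rw [Set.disjoint_left]
    rintro e ⟨-, h1⟩ ⟨-, h2⟩
    induction h : ends e with
    | _ p q =>
      exact h2 p (by rw [h]; simp) (h1 p (by rw [h]; simp))
  have hDW : D ∪ ins E₂ ends σᶜ ⊆ M.E := union_subset hD (fun e he => (hE (hs2 he)).1)
  have hY : ins E₂ ends σ ⊆ M.E \ (D ∪ ins E₂ ends σᶜ) := by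
    intro e he
    refine ⟨(hE (hs1 he)).1, ?_⟩
    rintro (h | h)
    · exact (hE (hs1 he)).2 h
    · exact Set.disjoint_left.1 hdis he h
  refine Bic_of_rk (Bic_sub hB hs1) hY ?_
  intro A hA
  have g1 := BQ.rk_con (M := M) (C := D ∪ ins E₂ ends σᶜ) (X := A) hDW (hA.trans hY)
  have g2 := BQ.rk_con (M := M) (C := D) (X := A ∪ ins E₂ ends σᶜ) hD
    (union_subset ((hA.trans hs1).trans hE) (hs2.trans hE))
  have g3 := BQ.rk_con (M := M) (C := D) (X := ins E₂ ends σᶜ) hD (hs2.trans hE)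
  have g4 := rk_skew hB (V₁ := σ) (V₂ := σᶜ) disjoint_compl_right hA (subset_refl _)
  have e1 : A ∪ (D ∪ ins E₂ ends σᶜ) = A ∪ ins E₂ ends σᶜ ∪ D := by
    ext z; simp only [mem_union]; tauto
  have e2 : D ∪ ins E₂ ends σᶜ = ins E₂ ends σᶜ ∪ D := union_comm _ _
  rw [e1] at g1
  rw [e2] at g1 ⊢
  omega

end block

/-- **Theorem LOC**, with a set `A` of elements contracted for both minors. -/
theorem thmLocA (k : ℕ) (hk : 1 ≤ k) : ∃ K m₀ : ℕ, ∀ x : ℕ, ∃ n₀ : ℕ, ∀ n m : ℕ, n₀ ≤ n → m₀ ≤ m →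
    ∀ {α : Type u} (M : Matroid α) [M.Finite] (E₁ X Y A C₁ D₂ : Set α)
    (e₁ e₂ : α → Sym2 (ℕ × ℕ)) (x₁ y₁ x₂ y₂ : ℕ), E₁ ⊆ M.E → X ⊆ M.E → Y ⊆ X → Disjoint E₁ Y →
    C₁ ⊆ M.E \ E₁ → D₂ ⊆ M.E \ Y → A ⊆ C₁ → Disjoint A D₂ → Disjoint A X →
    M.E \ X ⊆ D₂ ∪ A → Bic (M ／ C₁) E₁ e₁ → Grd E₁ e₁ x₁ y₁ n n →
    Bic (M✶ ／ D₂) Y e₂ → Grd Y e₂ x₂ y₂ m m → rk (M ／ A) X ≤ x →
    KGe M E₁ Y K → HasUniformMinor M k := by
  obtain ⟨κ₀, hSP⟩ := thmSP.{u} k hk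
  obtain ⟨KB, mB, hL⟩ := thmLoc.{u} k hk
  set K := KB + (κ₀ + 32 * (κ₀ + 1) ^ 2 + 1) with hKdef
  obtain ⟨s₀, hs₀⟩ := hSP K
  refine ⟨K, s₀ + mB + 2, ?_⟩
  intro x
  obtain ⟨nB, hnB⟩ := hL x
  refine ⟨nB + s₀ + 4 * (K + 1) + 1, ?_⟩
  intro n m hn hm α M _ E₁ X Y A C₁ D₂ e₁ e₂ x₁ y₁ x₂ y₂ hE₁ hX hYX hYd hC₁ hD₂ hAC hAD hAX hXD
    hB₁ hG₁ hB₂ hG₂ hx hK
  set s := s₀ + 4 * (K + 1) + 1 with hs
  have hC₁E : C₁ ⊆ M.E := hC₁.trans sdiff_subset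
  have hD₂E : D₂ ⊆ M.E := hD₂.trans sdiff_subset
  have hYE : Y ⊆ M.E := hYX.trans hX
  have hrec1 : rect x₁ y₁ s s ⊆ rect x₁ y₁ n n :=
    rect_sub (le_refl _) (by omega) (le_refl _) (by omega)
  have fin1 : (M ／ C₁).Finite := BQ.fin_contract C₁
  have hPE : A ⊆ M.E \ (E₁ ∪ Y) := by
    intro z hz
    refine ⟨hC₁E (hAC hz), ?_⟩
    rintro (hz3 | hz3)
    · exact (hC₁ (hAC hz)).2 hz3
    · exact Set.disjoint_left.1 hAX hz (hYX hz3)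
  have stage : ∀ P' ⊆ A, (M ／ P').Finite ∧ E₁ ⊆ (M ／ P').E ∧ Y ⊆ (M ／ P').E ∧
      C₁ \ P' ⊆ (M ／ P').E \ E₁ ∧ D₂ ⊆ (M ／ P').E \ Y ∧
      Bic (M ／ P' ／ (C₁ \ P')) E₁ e₁ ∧ Bic ((M ／ P')✶ ／ D₂) Y e₂ := by
    intro P' hP'
    have hP'C : P' ⊆ C₁ := hP'.trans hAC
    have fin2 : (M ／ P').Finite := BQ.fin_contract P'
    have c1 : M ／ P' ／ (C₁ \ P') = M ／ C₁ := by
      rw [Matroid.contract_contract, union_sdiff_self, union_eq_self_of_subset_left hP'C]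
    have hE₁P : E₁ ⊆ (M ／ P').E := fun z hz => ⟨hE₁ hz, fun h => (hC₁ (hP'C h)).2 hz⟩
    have hYP : Y ⊆ (M ／ P').E := fun z hz => ⟨hYE hz, fun h => (hPE (hP' h)).2 (Or.inr hz)⟩
    refine ⟨fin2, hE₁P, hYP, ?_, ?_, ?_, ?_⟩
    · rintro z ⟨hz1, hz2⟩
      exact ⟨⟨hC₁E hz1, hz2⟩, (hC₁ hz1).2⟩
    · intro z hz
      exact ⟨⟨hD₂E hz, fun h => Set.disjoint_left.1 hAD (hP' h) hz⟩, (hD₂ hz).2⟩
    · rw [c1]; exact hB₁
    · have c2 : (M ／ P')✶ ／ D₂ = M✶ ／ D₂ ＼ P' := by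
        rw [Matroid.dual_contract]
        have hdd : Disjoint D₂ P' := (hAD.mono_left hP').symm
        rw [Matroid.contract_delete_comm M✶ hdd]
      rw [c2]
      have fin2' : (M✶ ／ D₂).Finite := BQ.fin_contract (M := M✶) D₂
      have fin3 : (M✶ ／ D₂ ＼ P').Finite := BQ.fin_delete P'
      have hY1 : Y ⊆ (M✶ ／ D₂).E \ P' := fun z hz =>
        ⟨⟨hYE hz, fun h => (hD₂ h).2 hz⟩, fun h => (hPE (hP' h)).2 (Or.inr hz)⟩
      refine Bic_of_rk hB₂ hY1 ?_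
      intro X hX
      rw [rk_delete (hX.trans hY1)]
  rcases cont hE₁ hYE hYd hPE hK with ⟨P', hP', ka, kb⟩ | ka
  · obtain ⟨fin2, s1, s2, s3, s4, s5, s6⟩ := stage P' hP'
    set R := blk E₁ e₁ x₁ y₁ s with hR
    have hRE₁ : R ⊆ E₁ := blk_sub
    refine hum_mono (M' := M ／ P') ?_ (hs₀ s (by omega) m (by omega) (M ／ P') R Y (C₁ \ P')
      D₂ (hRE₁.trans s1) s2 (hYd.mono_left hRE₁) ?_ s4 ?_ ?_ ?_ ?_)
    · have := Matroid.contract_delete_isMinor M P' ∅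
      rwa [Matroid.delete_empty] at this
    · exact fun z hz => ⟨(s3 hz).1, fun h => (s3 hz).2 (hRE₁ h)⟩
    · exact Grd.toPGrid (by omega) (Bic_sub s5 hRE₁) (Grd_sub hG₁ hrec1)
    · exact Grd.toPGrid (by omega) s6 hG₂
    · refine BQ.KGe.mono_n (BQ.kge_blk (t := κ₀) s3 s1 hYd s5 hG₁ hrec1 (by omega)
        (BQ.KGe.mono_n ka (by omega))) (by omega)
    · intro hcon
      exact kb (BQ.KGe.mono_left hcon hRE₁)
  · obtain ⟨fin2, s1, s2, s3, s4, s5, s6⟩ := stage A (subset_refl _)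
    refine hum_mono (M' := M ／ A) ?_ (hnB n m (by omega) (by omega) (M ／ A) E₁ X Y (C₁ \ A)
      D₂ e₁ e₂ x₁ y₁ x₂ y₂ s1 ?_ hYX hYd s3 s4 ?_ s5 hG₁ s6 hG₂ hx (BQ.KGe.mono_n ka (by omega)))
    · have := Matroid.contract_delete_isMinor M A ∅
      rwa [Matroid.delete_empty] at this
    · exact fun z hz => ⟨hX hz, fun h => Set.disjoint_left.1 hAX h hz⟩
    · rintro z ⟨⟨hz1, hz2⟩, hz3⟩
      rcases hXD ⟨hz1, hz3⟩ with h | h
      · exact h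
      · exact absurd h hz2

/-- The first of the two dual forms. -/
theorem locTop1 {k : ℕ} (hk : 1 ≤ k) (q : ℕ) : ∃ n₀ : ℕ, ∀ n ≥ n₀,
    ∀ {α : Type u} (M : Matroid α) [M.Finite] (C₁ D₁ C₂ D₂ : Set α),
    C₁ ⊆ M.E → C₂ ⊆ M.E → D₂ ⊆ M.E → Disjoint C₂ D₂ →
    Disjoint (M.E \ (C₁ ∪ D₁)) (M.E \ (C₂ ∪ D₂)) →
    IsBicircular (M ／ C₁ ＼ D₁) (GPlus n) → IsBicircular (M✶ ／ D₂ ＼ C₂) (GPlus n) →
    rk (M ／ (C₁ ∩ C₂)) (C₂ \ C₁) ≤ q →
    KGe M (M.E \ (C₁ ∪ D₁)) (M.E \ (C₂ ∪ D₂)) n₀ → HasUniformMinor M k := by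
  obtain ⟨K, m₀, hL⟩ := thmLocA.{u} k hk
  set m := m₀ + 4 * (K + 1) + 2 with hm
  obtain ⟨nL, hnL⟩ := hL (q + (m * m) * ((m + 1) * (m + 1) + 1))
  set K2 := K + 32 * (K + 1) ^ 2 + 1 with hK2
  refine ⟨4 * K2 + nL + m + 2, ?_⟩
  intro n hn α M _ C₁ D₁ C₂ D₂ hC₁ hC₂ hD₂ hCD₂ hdis hb₁ hb₂ hq hK
  obtain ⟨S₁, e₁, hS₁, hB₁, -, hG₁, -, -, hk₁⟩ := star2 (by omega) hC₁ hb₁
  obtain ⟨S₂, e₂, hS₂, hB₂, hi₂, hG₂, hap₂, hen₂, hk₂⟩ := star2 (M := M✶) (by omega) hD₂ hb₂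
  rw [Matroid.dual_ground, union_comm D₂ C₂] at hS₂ hk₂ hB₂ hi₂ hap₂ hen₂
  set F₂ := M.E \ (C₂ ∪ D₂) with hF₂
  have hE₁ : M.E \ (C₁ ∪ D₁) ⊆ M.E := sdiff_subset
  have hE₂ : F₂ ⊆ M.E := sdiff_subset
  have k1 : KGe M S₁ F₂ (2 * K2) := by
    refine hk₁ _ _ hdis ?_
    intro X h1 h2
    have := hK X h1 h2
    omega
  have k2 : KGe M✶ S₂ S₁ K2 := by
    refine hk₂ _ _ (hdis.symm.mono_right hS₁) ?_
    exact k1.dual (hS₁.trans hE₁)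
  have hrec : rect 0 0 m m ⊆ rect 0 0 n n :=
    rect_sub (le_refl _) (by omega) (le_refl _) (by omega)
  have hDF : F₂ ⊆ M✶.E \ D₂ := fun z hz => ⟨hz.1, fun h => hz.2 (Or.inr h)⟩
  have hDS : D₂ ⊆ M✶.E \ S₂ := fun z hz => ⟨hD₂ hz, fun h => (hS₂ h).2 (Or.inr hz)⟩
  set Y := blk S₂ e₂ 0 0 m with hY
  have hYS : Y ⊆ S₂ := blk_sub
  have k3 : KGe M✶ Y S₁ (K + 1) := BQ.kge_blk (M := M✶) hDS (hS₂.trans hE₂)
    (hdis.symm.mono hS₂ hS₁) (Bic_sub hB₂ hS₂) hG₂ hrec (by omega) k2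
  have k4 : KGe M S₁ Y K := by
    have := k3.dual (M := M✶) ((hYS.trans hS₂).trans hE₂)
    rw [Matroid.dual_dual] at this
    exact BQ.KGe.mono_n this (by omega)
  set σ : Set (ℕ × ℕ) := rect 0 0 m m with hσ
  have hYins : Y ⊆ ins F₂ e₂ σ := fun z hz => ⟨hS₂ hz.1, hz.2⟩
  set Z : Set α := {e | e ∈ F₂ ∧ ∃ v ∈ e₂ e, v ∈ σ} with hZ
  have hYZ : Y ⊆ Z := by
    intro z hz
    refine ⟨hS₂ (hYS hz), ?_⟩
    induction h : e₂ z with
    | _ p q =>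
      exact ⟨p, by simp, hz.2 p (by rw [h]; simp)⟩
  have hZF : Z ⊆ F₂ := fun z hz => hz.1
  have hWdef : ins F₂ e₂ σᶜ = F₂ \ Z := by
    ext z
    constructor
    · rintro ⟨h1, h2⟩
      exact ⟨h1, fun ⟨_, v, hv, hvσ⟩ => h2 v hv hvσ⟩
    · rintro ⟨h1, h2⟩
      exact ⟨h1, fun v hv hvσ => h2 ⟨h1, v, hv, hvσ⟩⟩
  have hbl := bic_block (M := M✶) (E₂ := F₂) σ hD₂ hDF hB₂
  rw [hWdef] at hbl
  have hdS : Disjoint (M.E \ (C₁ ∪ D₁)) Z := hdis.mono_right hZF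
  refine hnL n m (by omega) (by omega) M S₁ ((C₂ \ C₁) ∪ Z) Y (C₁ ∩ C₂) C₁ (D₂ ∪ F₂ \ Z) e₁ e₂
    0 0 0 0 (hS₁.trans hE₁) (union_subset (sdiff_subset.trans hC₂) (hZF.trans hE₂))
    (hYZ.trans subset_union_right) ((hdis.mono hS₁ hS₂).mono_right hYS) ?_ ?_ inter_subset_left
    ?_ ?_ ?_ (Bic_sub hB₁ hS₁) hG₁ (Bic_sub hbl hYins) (Grd_sub hG₂ hrec) ?_ k4
  · exact fun c hc => ⟨hC₁ hc, fun h => (hS₁ h).2 (Or.inl hc)⟩
  · rintro d (hd | hd)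
    · exact ⟨hD₂ hd, fun h => (hS₂ (hYS h)).2 (Or.inr hd)⟩
    · exact ⟨hE₂ hd.1, fun h => hd.2 (hYZ h)⟩
  · rw [Set.disjoint_left]
    rintro z ⟨-, hz⟩ (h | h)
    · exact Set.disjoint_left.1 hCD₂ hz h
    · exact h.1.2 (Or.inl hz)
  · rw [Set.disjoint_left]
    rintro z ⟨hz1, hz⟩ (h | h)
    · exact h.2 hz1
    · exact (hZF h).2 (Or.inl hz)
  · rintro z ⟨hz1, hz2⟩
    by_cases hzC : z ∈ C₂
    · by_cases hzC1 : z ∈ C₁
      · exact Or.inr ⟨hzC1, hzC⟩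
      · exact absurd (Or.inl ⟨hzC, hzC1⟩) hz2
    · by_cases hzD : z ∈ D₂
      · exact Or.inl (Or.inl hzD)
      · refine Or.inl (Or.inr ⟨⟨hz1, ?_⟩, fun h => hz2 (Or.inr h)⟩)
        rintro (h | h)
        · exact hzC h
        · exact hzD h
  · have fA : (M ／ (C₁ ∩ C₂)).Finite := BQ.fin_contract _
    have hZf : Z.Finite := M.ground_finite.subset (hZF.trans hE₂)
    have u1 := rk_union_le (M ／ (C₁ ∩ C₂)) (X := C₂ \ C₁) hZf
    have u2 := touch_ncard hi₂ (show m ≤ n by omega) hen₂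
    have u3 : Z.ncard ≤ (m * m) * ((m + 1) * (m + 1) + 1) := u2
    omega

/-- Theorem LOC in terms of the graph `G_n^+`: the hypothesis, or its dual. -/
theorem locTop {k : ℕ} (hk : 1 ≤ k) (q : ℕ) : ∃ n₀ : ℕ, ∀ n ≥ n₀,
    ∀ {α : Type u} (M : Matroid α) [M.Finite] (C₁ D₁ C₂ D₂ : Set α),
    C₁ ⊆ M.E → D₁ ⊆ M.E → C₂ ⊆ M.E → D₂ ⊆ M.E → Disjoint C₁ D₁ → Disjoint C₂ D₂ →
    Disjoint (M.E \ (C₁ ∪ D₁)) (M.E \ (C₂ ∪ D₂)) →
    IsBicircular (M ／ C₁ ＼ D₁) (GPlus n) → IsBicircular (M✶ ／ D₂ ＼ C₂) (GPlus n) →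
    (rk (M ／ (C₁ ∩ C₂)) (C₂ \ C₁) ≤ q ∨ rk (M✶ ／ (D₁ ∩ D₂)) (D₁ \ D₂) ≤ q) →
    KGe M (M.E \ (C₁ ∪ D₁)) (M.E \ (C₂ ∪ D₂)) n₀ → HasUniformMinor M k := by
  obtain ⟨n₀, h₀⟩ := locTop1.{u} hk q
  refine ⟨n₀, ?_⟩
  intro n hn α M _ C₁ D₁ C₂ D₂ hC₁ hD₁ hC₂ hD₂ hCD₁ hCD₂ hdis hb₁ hb₂ hdef hK
  rcases hdef with hdef | hdef
  · exact h₀ n hn M C₁ D₁ C₂ D₂ hC₁ hC₂ hD₂ hCD₂ hdis hb₁ hb₂ hdef hK
  · refine HasUniformMinor.of_dual ?_
    refine h₀ n hn M✶ D₂ C₂ D₁ C₁ hD₂ hD₁ hC₁ hCD₁.symm ?_ hb₂ ?_ ?_ ?_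
    · rw [Matroid.dual_ground, union_comm D₂ C₂, union_comm D₁ C₁]
      exact hdis.symm
    · rw [Matroid.dual_dual]
      exact hb₁
    · rw [inter_comm D₂ D₁]
      exact hdef
    · rw [Matroid.dual_ground, union_comm D₂ C₂, union_comm D₁ C₁]
      exact hK.dual sdiff_subset

/-- The statement over `G_n^+` in Mathlib's terms. -/
theorem loc_conflicts {k : ℕ} (hk : 1 ≤ k) (q : ℕ) : ∃ n : ℕ, ∀ (α : Type u)
    (M : Matroid α), M.Finite → ∀ C₁ D₁ C₂ D₂ : Set α,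
    C₁ ⊆ M.E → D₁ ⊆ M.E → C₂ ⊆ M.E → D₂ ⊆ M.E → Disjoint C₁ D₁ → Disjoint C₂ D₂ →
    Disjoint (M ／ C₁ ＼ D₁).E (M ／ C₂ ＼ D₂).E →
    IsBicircular (M ／ C₁ ＼ D₁) (GPlus n) →
    IsBicircular (M ／ C₂ ＼ D₂)✶ (GPlus n) →
    (∀ X : Set α, (M ／ C₁ ＼ D₁).E ⊆ X → X ⊆ M.E \ (M ／ C₂ ＼ D₂).E →
      (n : ℕ∞) + M.eRk M.E ≤ M.eRk X + M.eRk (M.E \ X)) →
    ((M ／ (C₁ ∩ C₂)).eRk (C₂ \ C₁) ≤ q ∨ (M✶ ／ (D₁ ∩ D₂)).eRk (D₁ \ D₂) ≤ q) →
    ∃ N : Matroid α, N ≤m M ∧ N.E.ncard = 2 * k ∧ ∀ B, N.IsBase B ↔ B ⊆ N.E ∧ B.ncard = k := by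
  obtain ⟨n, h₀⟩ := locTop.{u} hk q
  refine ⟨n, ?_⟩
  intro α M hM C₁ D₁ C₂ D₂ hC₁ hD₁ hC₂ hD₂ hCD₁ hCD₂ hdis hb₁ hb₂ hκ hdef
  have g₁ : (M ／ C₁ ＼ D₁).E = M.E \ (C₁ ∪ D₁) := by
    rw [Matroid.delete_ground, Matroid.contract_ground, sdiff_sdiff]
  have g₂ : (M ／ C₂ ＼ D₂).E = M.E \ (C₂ ∪ D₂) := by
    rw [Matroid.delete_ground, Matroid.contract_ground, sdiff_sdiff]
  have hd : (M ／ C₂ ＼ D₂)✶ = M✶ ／ D₂ ＼ C₂ := by
    rw [Matroid.dual_delete, Matroid.dual_contract, Matroid.contract_delete_comm _ hCD₂.symm]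
  rw [g₁, g₂] at hdis hκ
  rw [hd] at hb₂
  refine h₀ n (le_refl _) M C₁ D₁ C₂ D₂ hC₁ hD₁ hC₂ hD₂ hCD₁ hCD₂ hdis hb₁ hb₂ ?_ ?_
  · have f1 : (M ／ (C₁ ∩ C₂)).Finite := ⟨M.ground_finite.subset sdiff_subset⟩
    have f3 : (M✶ ／ (D₁ ∩ D₂)).Finite := ⟨M✶.ground_finite.subset sdiff_subset⟩
    rcases hdef with h | h
    · left
      rw [← cast_rk] at h
      exact_mod_cast h
    · right
      rw [← cast_rk] at h
      exact_mod_cast h
  · intro X h1 h2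
    have h3 := hκ X h1 h2
    rw [← cast_rk, ← cast_rk, ← cast_rk] at h3
    exact_mod_cast h3

end BICS
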