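import Pool.Agent.Helper34.BIC.Merge
import Pool.Agent.Helper34.BIC.Link

open Set BIC
open scoped Matroid

namespace C1Q

variable {α V : Type*} {N : Matroid α} {S : Set α} {ends : α → Sym2 V}

/-- Hall: independent sets have injective choices of ends. -/
lemma choice (hB : Bic N S ends) {I : Set α} (hI : N.Indep I) (hIS : I ⊆ S) (hf : I.Finite) :
    ∃ φ : α → V, InjOn φ I ∧ ∀ e ∈ I, φ e ∈ ends e := by
  classical
  have hall := (Finset.all_card_le_biUnion_card_iff_exists_injective
    (fun e : I => (ends e.1).toFinset)).1 (by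
      intro s
      set W : Finset V := s.biUnion (fun e : I => (ends e.1).toFinset) with hW
      have h1 : ((s.image (Subtype.val : I → α) : Finset α) : Set α) ⊆ ins S ends (W : Set V) := by
        intro e he
        obtain ⟨e', he', rfl⟩ := Finset.mem_image.1 (Finset.mem_coe.1 he)
        refine ⟨hIS e'.2, fun v hv => ?_⟩
        rw [hW, Finset.mem_coe, Finset.mem_biUnion]
        exact ⟨e', he', Sym2.mem_toFinset.2 hv⟩
      have h2 : N.Indep ((s.image (Subtype.val : I → α) : Finset α) : Set α) := by
        refine hI.subset ?_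
        intro e he
        obtain ⟨e', _, rfl⟩ := Finset.mem_image.1 (Finset.mem_coe.1 he)
        exact e'.2
      have h3 := (N.eRk_mono h1).trans (hB.rk (W : Set V))
      rw [h2.eRk_eq_encard, Set.encard_coe_eq_coe_finsetCard, Set.encard_coe_eq_coe_finsetCard,
        Finset.card_image_of_injective _ Subtype.val_injective] at h3
      exact_mod_cast h3)
  obtain ⟨f, hf1, hf2⟩ := hall
  rcases I.eq_empty_or_nonempty with rfl | ⟨e₀, he₀⟩
  · rcases isEmpty_or_nonempty V with hV | ⟨⟨v₀⟩⟩
    · rcases isEmpty_or_nonempty α with hα | ⟨⟨a₀⟩⟩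
      · exact ⟨fun a => (hα.false a).elim, by simp, by simp⟩
      · obtain ⟨v, _⟩ := exists_mem_ends ends a₀
        exact (hV.false v).elim
    · exact ⟨fun _ => v₀, by simp, by simp⟩
  · refine ⟨fun e => if h : e ∈ I then f ⟨e, h⟩ else f ⟨e₀, he₀⟩, ?_, ?_⟩
    · intro a ha b hb hab
      simp only [dif_pos ha, dif_pos hb] at hab
      have := hf1 hab
      exact congrArg Subtype.val this
    · intro e he
      simp only [dif_pos he]
      exact Sym2.mem_toFinset.1 (hf2 ⟨e, he⟩)

/-- vertex-disjoint parts are skew -/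
lemma skew [N.Finite] (hB : Bic N S ends) {V₁ V₂ : Set V} (hd : Disjoint V₁ V₂) {X Y : Set α}
    (hX : X ⊆ ins S ends V₁) (hY : Y ⊆ ins S ends V₂) : rk N X + rk N Y ≤ rk N (X ∪ Y) := by
  classical
  have hXE : X ⊆ N.E := fun e he => hB.sub (hX he).1
  have hYE : Y ⊆ N.E := fun e he => hB.sub (hY he).1
  obtain ⟨I, hI⟩ := N.exists_isBasis X hXE
  obtain ⟨J, hJ⟩ := N.exists_isBasis Y hYE
  have hIf : I.Finite := N.ground_finite.subset (hI.subset.trans hXE)
  have hJf : J.Finite := N.ground_finite.subset (hJ.subset.trans hYE)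
  obtain ⟨φ, hφ, hφe⟩ := choice hB hI.indep (fun e he => (hX (hI.subset he)).1) hIf
  obtain ⟨ψ, hψ, hψe⟩ := choice hB hJ.indep (fun e he => (hY (hJ.subset he)).1) hJf
  have hIJ : Disjoint I J := by
    rw [Set.disjoint_left]
    intro e he he'
    obtain ⟨v, hv⟩ := exists_mem_ends ends e
    exact Set.disjoint_left.1 hd ((hX (hI.subset he)).2 v hv) ((hY (hJ.subset he')).2 v hv)
  have hind : N.Indep (I ∪ J) := by
    refine hB.ind _ (fun e => if e ∈ I then φ e else ψ e) ?_ ?_ ?_
    · exact union_subset (fun e he => (hX (hI.subset he)).1) (fun e he => (hY (hJ.subset he)).1)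
    · rw [Set.injOn_union hIJ]
      refine ⟨?_, ?_, ?_⟩
      · intro a ha b hb hab
        simp only [if_pos ha, if_pos hb] at hab
        exact hφ ha hb hab
      · intro a ha b hb hab
        have ha' : a ∉ I := fun h => Set.disjoint_left.1 hIJ h ha
        have hb' : b ∉ I := fun h => Set.disjoint_left.1 hIJ h hb
        simp only [if_neg ha', if_neg hb'] at hab
        exact hψ ha hb hab
      · intro a ha b hb hab
        have hb' : b ∉ I := fun h => Set.disjoint_left.1 hIJ h hb
        simp only [if_pos ha, if_neg hb'] at hab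
        have h1 := (hX (hI.subset ha)).2 _ (hφe a ha)
        have h2 := (hY (hJ.subset hb)).2 _ (hψe b hb)
        rw [hab] at h1
        exact Set.disjoint_left.1 hd h1 h2
    · intro e he
      by_cases h : e ∈ I
      · simp only [if_pos h]; exact hφe e h
      · simp only [if_neg h]
        exact hψe e (he.resolve_left h)
  have h1 : rk N X = I.ncard := by
    unfold rk; rw [← hI.encard_eq_eRk]; rfl
  have h2 : rk N Y = J.ncard := by
    unfold rk; rw [← hJ.encard_eq_eRk]; rfl
  rw [h1, h2, ← Set.ncard_union_eq hIJ hIf hJf, ← rk_indep hind]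
  exact rk_mono N (union_subset_union hI.subset hJ.subset)

end C1Q
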