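import Pool.Agent.Helper77.G.Sdr
import Pool.Agent.Helper77.G.Skew

open Set BIC
open scoped Matroid

namespace C1Q

section map

variable {α V : Type*} {N : Matroid α} {S : Set α} {ends : α → Sym2 V}

/-- relabelling the vertices of a part -/
lemma bic_map (hB : Bic N S ends) {W : Set V} {pos : V → ℕ} (hp : InjOn pos W) :
    Bic N (ins S ends W) (fun e => (ends e).map pos) := by
  classical
  refine ⟨fun e he => hB.sub he.1, ?_, ?_⟩
  · intro F φ hF hφ hφe
    have hch : ∀ e, ∃ v, e ∈ F → v ∈ ends e ∧ pos v = φ e := by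
      intro e
      by_cases he : e ∈ F
      · obtain ⟨v, hv, hpv⟩ := Sym2.mem_map.1 (hφe e he)
        exact ⟨v, fun _ => ⟨hv, hpv⟩⟩
      · obtain ⟨v, _⟩ := exists_mem_ends ends e
        exact ⟨v, fun h => absurd h he⟩
    choose ψ hψ using hch
    refine hB.ind F ψ (fun e he => (hF he).1) ?_ (fun e he => (hψ e he).1)
    intro a ha b hb hab
    apply hφ ha hb
    rw [← (hψ a ha).2, ← (hψ b hb).2, hab]
  · intro A
    have h1 : ins (ins S ends W) (fun e => (ends e).map pos) A ⊆ ins S ends (W ∩ pos ⁻¹' A) := by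
      intro e he
      refine ⟨he.1.1, fun v hv => ⟨he.1.2 v hv, ?_⟩⟩
      exact he.2 (pos v) (Sym2.mem_map.2 ⟨v, hv, rfl⟩)
    refine (N.eRk_mono h1).trans ((hB.rk _).trans ?_)
    have h2 : (pos '' (W ∩ pos ⁻¹' A)).encard = (W ∩ pos ⁻¹' A).encard :=
      (hp.mono inter_subset_left).encard_image
    rw [← h2]
    refine Set.encard_le_encard ?_
    rintro _ ⟨v, hv, rfl⟩
    exact hv.2

end map

variable {α : Type*} {N : Matroid α} {S : Set α} {ends : α → Sym2 ℕ}

lemma SDR.indep (hB : Bic N S ends) {B : Set α} {U : Set ℕ} (h : SDR ends B U) (hBS : B ⊆ S) :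
    N.Indep B := by
  classical
  obtain ⟨φ, hφ, hφe⟩ := h
  have hch : ∀ e, ∃ v, e ∈ B → v ∈ U ∧ φ v = e := by
    intro e
    by_cases he : e ∈ B
    · obtain ⟨v, hv, hve⟩ := hφ.surjOn he
      exact ⟨v, fun _ => ⟨hv, hve⟩⟩
    · exact ⟨0, fun h => absurd h he⟩
  choose ψ hψ using hch
  refine hB.ind B ψ hBS ?_ ?_
  · intro a ha b hb hab
    rw [← (hψ a ha).2, ← (hψ b hb).2, hab]
  · intro e he
    have := hφe _ (hψ e he).1
    rwa [(hψ e he).2] at this

lemma SDR.ncard {B : Set α} {U : Set ℕ} (h : SDR ends B U) : B.ncard = U.ncard := by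
  obtain ⟨φ, hφ, _⟩ := h
  rw [← hφ.image_eq, hφ.injOn.ncard_image]

lemma rk_le_of_ins [N.Finite] (hB : Bic N S ends) {X : Set α} {U : Set ℕ} (hU : U.Finite)
    (hX : X ⊆ ins S ends U) : rk N X ≤ U.ncard := by
  have h1 := (N.eRk_mono hX).trans (hB.rk U)
  rw [← cast_rk, ← hU.cast_ncard_eq] at h1
  exact_mod_cast h1

lemma Full.rk [N.Finite] (hB : Bic N S ends) {X : Set α} {U : Set ℕ} (hU : U.Finite)
    (h : Full S ends X U) : rk N X = U.ncard := by
  obtain ⟨h1, X₀, h2, h3⟩ := h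
  refine le_antisymm (rk_le_of_ins hB hU h1) ?_
  have h4 := h3.indep hB (fun e he => (h1 (h2 he)).1)
  rw [← h3.ncard, ← rk_indep h4]
  exact rk_mono N h2

lemma Full.union {X Y : Set α} {U U' : Set ℕ} (h : Full S ends X U) (h' : Full S ends Y U') :
    Full S ends (X ∪ Y) (U ∪ U') := by
  obtain ⟨h1, X₀, h2, h3⟩ := h
  obtain ⟨h1', Y₀, h2', φ, hφ, hφe⟩ := h'
  refine ⟨union_subset (h1.trans (ins_mono subset_union_left))
    (h1'.trans (ins_mono subset_union_right)), X₀ ∪ φ '' (U' \ U), ?_, ?_⟩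
  · refine union_subset_union h2 ?_
    rintro _ ⟨v, hv, rfl⟩
    exact h2' (hφ.mapsTo hv.1)
  · have h4 : SDR ends (φ '' (U' \ U)) (U' \ U) :=
      ⟨φ, (hφ.injOn.mono sdiff_subset).bijOn_image, fun v hv => hφe v hv.1⟩
    have h5 := h3.union h4 (by
      rw [Set.disjoint_left]
      rintro _ hx ⟨v, hv, rfl⟩
      exact hv.2 ((h1 (h2 hx)).2 v (hφe v hv.1))) disjoint_sdiff_self_right
    rwa [union_sdiff_self] at h5

/-- the balanced sets of a lift -/
lemma bal_inst [N.Finite] {L : Matroid α} [L.Finite] (hB : Bic N S ends) {Z : Set α}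
    (hQ : ∀ X Y, X ⊆ Y → Y ⊆ S → rk N Y + rk L (Z ∪ X) ≤ rk L (Z ∪ Y) + rk N X) :
    Bal S ends (fun X => rk L (Z ∪ (X ∩ S)) ≤ rk L Z + rk N (X ∩ S)) := by
  constructor
  · intro X Y hXY hY
    have h1 := hQ (X ∩ S) (Y ∩ S) (inter_subset_inter_left _ hXY) inter_subset_right
    omega
  · rintro X Y U U' hU hU' hX hY ⟨Z₀, hZ1, hZ2⟩ hbX hbY
    have hXS : X ⊆ S := fun e he => (hX.1 he).1
    have hYS : Y ⊆ S := fun e he => (hY.1 he).1
    rw [inter_eq_self_of_subset_left hXS] at hbX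
    rw [inter_eq_self_of_subset_left hYS] at hbY
    rw [inter_eq_self_of_subset_left (union_subset hXS hYS)]
    have r1 := hX.rk hB hU
    have r2 := hY.rk hB hU'
    have r3 := (hX.union hY).rk hB (hU.union hU')
    have r4 : (U ∩ U').ncard ≤ rk N (X ∩ Y) := by
      rw [← hZ2.ncard, ← rk_indep (hZ2.indep hB (fun e he => hXS (hZ1 he).1))]
      exact rk_mono N hZ1
    have r5 := hQ ∅ (X ∩ Y) (empty_subset _) (inter_subset_left.trans hXS)
    rw [union_empty] at r5
    have r6 : rk N (∅ : Set α) = 0 := by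
      have := rk_indep (N.empty_indep)
      rw [this, Set.ncard_empty]
    have r7 := rk_submod L (Z ∪ X) (Z ∪ Y)
    rw [← union_inter_distrib_left, ← union_union_distrib_left] at r7
    have r8 := Set.ncard_union_add_ncard_inter U U' hU hU'
    omega

end C1Q
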