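import Pool.Agent.Helper34.BIC.Unif

open Set BIC
open scoped Matroid

namespace C1Q

variable {α : Type*}

/-- a set `E` of `2k` elements, all `k`-subsets independent over `C`, rank `≤ k` over `C` -/
lemma unif_end {L : Matroid α} [L.Finite] {k : ℕ} {C E : Set α} (hE : E ⊆ L.E)
    (hd : Disjoint E C) (hc : E.ncard = 2 * k)
    (hI : ∀ I ⊆ E, I.ncard = k → L.Indep (C ∪ I)) (hr : rk L (C ∪ E) ≤ C.ncard + k) :
    HasUniformMinor L k := by
  classical
  have hEf : E.Finite := L.ground_finite.subset hE
  obtain ⟨I₀, hI₀E, hI₀c⟩ : ∃ I ⊆ E, I.ncard = k :=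
    Set.exists_subset_card_eq (by rw [hc]; omega)
  have hb0 := hI I₀ hI₀E hI₀c
  have hCi : L.Indep C := hb0.subset subset_union_left
  have hCf : C.Finite := L.ground_finite.subset hCi.subset_ground
  have hZE : E ⊆ (L ／ C).E := by
    rw [Matroid.contract_ground]
    exact subset_sdiff.2 ⟨hE, hd⟩
  have hindep : ∀ I ⊆ E, ((L ／ C).Indep I ↔ L.Indep (C ∪ I)) := by
    intro I hIE
    rw [hCi.contract_indep_iff, union_comm]
    exact ⟨fun h => h.2, fun h => ⟨hd.mono_left hIE, h⟩⟩
  -- independent sets of the restriction have at most `k` elements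
  have hle : ∀ I ⊆ E, L.Indep (C ∪ I) → I.ncard ≤ k := by
    intro I hIE hind
    have h1 := rk_indep hind
    have h2 := rk_mono L (union_subset_union_right C hIE)
    rw [Set.ncard_union_eq (hd.symm.mono_right hIE) hCf (hEf.subset hIE)] at h1
    omega
  refine ⟨(L ／ C) ↾ E, ?_, hc, ?_⟩
  · rw [← Matroid.delete_compl hZE]
    exact Matroid.contract_delete_isMinor _ _ _
  · intro B
    rw [Matroid.isBase_restrict_iff hZE]
    constructor
    · intro h
      have hBE : B ⊆ E := h.subset
      refine ⟨hBE, ?_⟩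
      have h1 : L.Indep (C ∪ B) := (hindep B hBE).1 h.indep
      refine le_antisymm (hle B hBE h1) ?_
      by_contra hlt
      push Not at hlt
      -- extend `B` by augmentation from `I₀`
      have h2 : (L ／ C).Indep I₀ := (hindep I₀ hI₀E).2 hb0
      obtain ⟨e, he, hei⟩ := h.indep.augment h2 (by
        rw [← (hEf.subset hBE).cast_ncard_eq, ← (hEf.subset hI₀E).cast_ncard_eq, hI₀c]
        exact_mod_cast hlt)
      have := h.insert_dep ⟨hI₀E he.1, he.2⟩
      exact this.not_indep hei
    · rintro ⟨hBE, hBc⟩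
      have h1 : (L ／ C).Indep B := (hindep B hBE).2 (hI B hBE hBc)
      refine h1.isBasis_of_forall_insert hBE ?_
      intro e he
      rw [Matroid.dep_iff]
      refine ⟨?_, ?_⟩
      · intro hind
        have h2 : L.Indep (C ∪ insert e B) :=
          (hindep (insert e B) (insert_subset he.1 hBE)).1 hind
        have h3 := hle _ (insert_subset he.1 hBE) h2
        rw [Set.ncard_insert_of_notMem he.2 (hEf.subset hBE)] at h3
        omega
      · exact insert_subset (hZE he.1) (hBE.trans hZE)

end C1Q
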