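import Pool.Agent.Helper77.G.LemmaQ
import Pool.Agent.Helper77.G.Inst
import Pool.Agent.Helper77.G.UnifEnd
import Pool.Agent.BICS.Defs

open Set BIC
open scoped Matroid

namespace C1Q

variable {α V : Type*}

lemma indep_of_rk {L : Matroid α} [L.Finite] {X : Set α} (hX : X ⊆ L.E) (h : X.ncard ≤ rk L X) :
    L.Indep X := by
  have hf : X.Finite := L.ground_finite.subset hX
  rw [Matroid.indep_iff_eRk_eq_encard_of_finite hf]
  have h1 : rk L X = X.ncard := le_antisymm (rk_le_ncard L hf) h
  rw [← cast_rk, h1, hf.cast_ncard_eq]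

lemma rk_union_le' (N : Matroid α) [N.Finite] (X Y : Set α) : rk N (X ∪ Y) ≤ rk N X + rk N Y := by
  have := rk_submod N X Y
  omega

lemma rk_empty (N : Matroid α) [N.Finite] : rk N (∅ : Set α) = 0 := by
  rw [rk_indep N.empty_indep, Set.ncard_empty]

/-- quotient inequality over a vertex-disjoint set -/
lemma quo_over {L N : Matroid α} [L.Finite] [N.Finite] {S : Set α} {ends : α → Sym2 V}
    (hB : Bic N S ends) (hQ : BICS.Quo L N S) {U W : Set V} (hUW : Disjoint U W) {Z : Set α}
    (hZ : Z ⊆ ins S ends U) : ∀ X Y, X ⊆ Y → Y ⊆ ins S ends W →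
      rk N Y + rk L (Z ∪ X) ≤ rk L (Z ∪ Y) + rk N X := by
  intro X Y hXY hY
  have h1 := hQ (Z ∪ X) (Z ∪ Y) (union_subset_union_right _ hXY)
    (union_subset (fun e he => (hZ he).1) (fun e he => (hY he).1))
  have h2 := skew hB hUW hZ hY
  have h3 := rk_union_le' N Z X
  omega

/-- the state of the construction -/
structure St (L N : Matroid α) (S : Set α) (ends : α → Sym2 V) (k u : ℕ) (C E : Set α)
    (U : Set V) : Prop where
  subC : C ⊆ ins S ends U
  subE : E ⊆ ins S ends U
  disj : Disjoint E C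
  ind : ∀ I ⊆ E, I.ncard = k → L.Indep (C ∪ I)
  lo : C.ncard + k ≤ rk N C + u
  hi : rk N (C ∪ E) + u ≤ C.ncard + k

theorem st_step {L N : Matroid α} [L.Finite] [N.Finite] {S : Set α} {ends : α → Sym2 V}
    {k u q H b : ℕ} (hk : 1 ≤ k) (hB : Bic N S ends) (hSL : S ⊆ L.E)
    (hQ : BICS.Quo L N S) {C E : Set α} {U W : Set V} (hst : St L N S ends k u C E U)
    (hEk : k ≤ E.ncard) (hEc : E.ncard ≤ 2 * k) (hUW : Disjoint U W) {pos : V → ℕ}
    (hpos : InjOn pos W) {el : ℕ → α} {rg : ℕ → ℕ → α}
    (hBl : Block (ins S ends W) (fun e => (ends e).map pos) el rg q H) (hb : 1 ≤ b)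
    (hq : Q0 (2 ^ (2 * k)) ≤ q) (hH : 3 + 2 ^ (2 * k) * (b + 2) ≤ H)
    (hun : ∀ s, s + b ≤ H →
      rk N (ins (ins S ends W) (fun e => (ends e).map pos) (Ico (s * q) ((s + b) * q))) + u ≤
        rk L (ins (ins S ends W) (fun e => (ends e).map pos) (Ico (s * q) ((s + b) * q)))) :
    ∃ C' E', St L N S ends k u C' E' (U ∪ W) ∧ E'.ncard = E.ncard + 1 := by
  classical
  set S' := ins S ends W with hS'
  set ends' : α → Sym2 ℕ := fun e => (ends e).map pos with hends'
  have hS'L : S' ⊆ L.E := fun e he => hSL he.1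
  have hB' : Bic N S' ends' := bic_map hB hpos
  have hEL : E ⊆ L.E := fun e he => hSL (hst.subE he).1
  have hCL : C ⊆ L.E := fun e he => hSL (hst.subC he).1
  have hEf : E.Finite := L.ground_finite.subset hEL
  have hCf : C.Finite := L.ground_finite.subset hCL
  -- an injection of `E` into `Fin (2 k)`
  obtain ⟨f, hf⟩ : ∃ f : α → Fin (2 * k), InjOn f E := by
    have h1 : E.encard ≤ (univ : Set (Fin (2 * k))).encard := by
      rw [← hEf.cast_ncard_eq, Set.encard_univ]
      simp only [ENat.card_eq_coe_fintype_card, Fintype.card_fin]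
      exact_mod_cast hEc
    have : Nonempty (Fin (2 * k)) := ⟨⟨0, by omega⟩⟩
    obtain ⟨f, _, hf⟩ := hEf.exists_injOn_of_encard_le h1
    exact ⟨f, hf⟩
  set I : Finset (Fin (2 * k)) → Set α := fun s => {e | e ∈ E ∧ f e ∈ s} with hI
  have hIE : ∀ s, I s ⊆ E := fun s e he => he.1
  set bal : Finset (Fin (2 * k)) → Set α → Prop := fun s X =>
    (I s).ncard + 1 = k ∧ rk L ((C ∪ I s) ∪ (X ∩ S')) ≤ rk L (C ∪ I s) + rk N (X ∩ S') with hbaldef
  have hZ : ∀ s, C ∪ I s ⊆ ins S ends U := fun s =>
    union_subset hst.subC ((hIE s).trans hst.subE)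
  have hover := fun s => quo_over hB hQ hUW (hZ s)
  have hbal : ∀ s, Bal S' ends' (bal s) := by
    intro s
    have h1 := bal_inst (L := L) hB' (hover s)
    constructor
    · rintro X Y hXY ⟨h2, h3⟩
      exact ⟨h2, h1.mono X Y hXY h3⟩
    · rintro X Y A A' hA hA' hX hY hZ' ⟨h2, h3⟩ ⟨_, h4⟩
      exact ⟨h2, h1.mod X Y A A' hA hA' hX hY hZ' h3 h4⟩
  have hcard : Fintype.card (Finset (Fin (2 * k))) = 2 ^ (2 * k) := by
    rw [Fintype.card_finset, Fintype.card_fin]
  have hlo := hst.lo
  have hhi := hst.hi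
  have hunb : ∀ (s : Finset (Fin (2 * k))) (t : ℕ), t + b ≤ H →
      ¬ bal s (ins S' ends' (Ico (t * q) ((t + b) * q))) := by
    rintro s t ht ⟨h2, h3⟩
    set K := ins S' ends' (Ico (t * q) ((t + b) * q)) with hK
    have hKS : K ⊆ S' := fun e he => he.1
    rw [inter_eq_self_of_subset_left hKS] at h3
    have h4 : rk N K + u ≤ rk L K := hun t ht
    have h5 := hQ K (C ∪ I s ∪ K) subset_union_right
      (union_subset (fun e he => (hZ s he).1) (fun e he => (hKS he).1))
    have h6 := skew hB hUW (hZ s) hKS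
    have h7 : rk L (C ∪ I s) ≤ C.ncard + (I s).ncard :=
      (rk_le_ncard L (hCf.union (hEf.subset (hIE s)))).trans (Set.ncard_union_le _ _)
    have h8 : rk N C ≤ rk N (C ∪ I s) := rk_mono N subset_union_left
    omega
  obtain ⟨x, B, l, hx, hSDR, hBs, hl, hlB, hgood⟩ := lemmaQ hb (by rw [hcard]; exact hq)
    (by rw [hcard]; exact hH) hBl (L.ground_finite.subset hS'L) bal hbal hunb
  have hBS : B ⊆ S' := fun e he => (hBs he).1
  have hlS : l ∈ S' := hl.1
  have hBf : B.Finite := L.ground_finite.subset (hBS.trans hS'L)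
  have hBi : N.Indep B := hSDR.indep hB' hBS
  have hBc : B.ncard = x := by rw [hSDR.ncard, Set.ncard_Ico_nat, Nat.sub_zero]
  have hlBs : insert l B ⊆ ins S' ends' (Ico 0 x) := insert_subset hl hBs
  have hrlB : rk N (insert l B) ≤ x := by
    have := rk_le_of_ins hB' (finite_Ico 0 x) hlBs
    rwa [Set.ncard_Ico_nat, Nat.sub_zero] at this
  have hrB : rk N B = x := by rw [rk_indep hBi, hBc]
  have hrlB' : x ≤ rk N (insert l B) := by
    rw [← hrB]; exact rk_mono N (subset_insert _ _)
  -- vertex-disjointness gives disjointness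
  have hdis : ∀ X Y : Set α, X ⊆ ins S ends U → Y ⊆ S' → Disjoint X Y := by
    intro X Y hX hY
    exact (ins_disj hUW).mono hX hY
  have hCB : Disjoint C B := hdis C B hst.subC hBS
  have hEB : Disjoint E B := hdis E B hst.subE hBS
  have hlE : l ∉ E := fun h => Set.disjoint_left.1 (hdis E {l} hst.subE (by simpa using hlS)) h rfl
  have hlC : l ∉ C := fun h => Set.disjoint_left.1 (hdis C {l} hst.subC (by simpa using hlS)) h rfl
  have hCBc : (C ∪ B).ncard = C.ncard + x := by
    rw [Set.ncard_union_eq hCB hCf hBf, hBc]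
  refine ⟨C ∪ B, insert l E, ⟨?_, ?_, ?_, ?_, ?_, ?_⟩, ?_⟩
  · refine union_subset (hst.subC.trans (ins_mono subset_union_left)) ?_
    exact hBS.trans (ins_mono subset_union_right)
  · exact insert_subset (ins_mono subset_union_right hlS)
      (hst.subE.trans (ins_mono subset_union_left))
  · rw [Set.disjoint_left]
    rintro e (rfl | he) (h | h)
    · exact hlC h
    · exact hlB h
    · exact Set.disjoint_left.1 hst.disj he h
    · exact Set.disjoint_left.1 hEB he h
  · intro J hJ hJc
    by_cases hlJ : l ∈ J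
    · -- new sets
      set J₀ := J \ {l} with hJ₀
      have hJ₀E : J₀ ⊆ E := by
        rintro e ⟨h1, h2⟩
        exact (hJ h1).resolve_left h2
      have hJf : J.Finite := (hEf.insert l).subset hJ
      have hJ₀c : J₀.ncard + 1 = k := by
        rw [← hJc, hJ₀, Set.ncard_sdiff_singleton_add_one hlJ hJf]
      set s : Finset (Fin (2 * k)) := Finset.univ.filter (fun y => ∃ e ∈ J₀, f e = y) with hs
      have hIs : I s = J₀ := by
        ext e
        constructor
        · rintro ⟨h1, h2⟩
          obtain ⟨e', he', hee⟩ := (Finset.mem_filter.1 h2).2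
          rwa [← hf (hJ₀E he') h1 hee]
        · intro he
          exact ⟨hJ₀E he, Finset.mem_filter.2 ⟨Finset.mem_univ _, e, he, rfl⟩⟩
      obtain ⟨J₁, hJ01, hJ1E, hJ1c⟩ := Set.exists_subsuperset_card_eq hJ₀E
        (show J₀.ncard ≤ k by omega) hEk
      have hZi : L.Indep (C ∪ J₀) :=
        (hst.ind J₁ hJ1E hJ1c).subset (union_subset_union_right _ hJ01)
      have hg := hgood s
      have hlBS : insert l B ⊆ S' := insert_subset hlS hBS
      rw [hbaldef] at hg
      simp only [hIs, not_and, not_le] at hg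
      have hg2 := hg hJ₀c
      rw [inter_eq_self_of_subset_left hlBS] at hg2
      have e1 : C ∪ B ∪ J = C ∪ J₀ ∪ insert l B := by
        ext e
        simp only [mem_union, mem_insert_iff, hJ₀, mem_sdiff, mem_singleton_iff]
        by_cases hel : e = l
        · subst hel; simp [hlJ]
        · simp only [hel, not_false_eq_true, and_true, false_or]
          tauto
      rw [e1]
      have hZd : Disjoint C J₀ := hst.disj.symm.mono_right hJ₀E
      have hJ₀f : J₀.Finite := hEf.subset hJ₀E
      refine indep_of_rk ?_ ?_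
      · exact union_subset (union_subset hCL (hJ₀E.trans hEL)) (hlBS.trans hS'L)
      · have h1 : (C ∪ J₀ ∪ insert l B).ncard ≤ (C ∪ J₀).ncard + (B.ncard + 1) :=
          (Set.ncard_union_le _ _).trans (Nat.add_le_add_left (Set.ncard_insert_le _ _) _)
        have h2 := rk_indep hZi
        omega
    · -- old sets
      have hJE : J ⊆ E := fun e he => (hJ he).resolve_left (fun h => hlJ (h ▸ he))
      have hZi : L.Indep (C ∪ J) := hst.ind J hJE hJc
      have h1 := quo_over hB hQ hUW (Z := C ∪ J) (union_subset hst.subC (hJE.trans hst.subE))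
        ∅ B (empty_subset _) hBS
      rw [union_empty, rk_empty] at h1
      have e1 : C ∪ B ∪ J = C ∪ J ∪ B := by
        rw [union_right_comm]
      rw [e1]
      refine indep_of_rk ?_ ?_
      · exact union_subset (union_subset hCL (hJE.trans hEL)) (hBS.trans hS'L)
      · have h2 := rk_indep hZi
        have h3 : (C ∪ J ∪ B).ncard ≤ (C ∪ J).ncard + B.ncard := Set.ncard_union_le _ _
        omega
  · have h1 := skew hB hUW hst.subC hBS
    omega
  · have e1 : C ∪ B ∪ insert l E = C ∪ E ∪ insert l B := by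
      ext e
      simp only [mem_union, mem_insert_iff]
      tauto
    rw [e1, hCBc]
    have h1 := rk_union_le' N (C ∪ E) (insert l B)
    omega
  · rw [Set.ncard_insert_of_notMem hlE hEf]

end C1Q
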