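import Pool.Agent.Helper77.G.Loc
import Pool.Agent.Helper21.STAR.Plus
import Pool.Agent.Helper57.TB.Top

/-!
# Theorem B-co: the first minor is almost a contraction (helper77)
-/

open Set BIC
open scoped Matroid

namespace BICS

universe u

/-- The statement of Lemma STAR. -/
def StarStmt (k : ℕ) : Prop := ∀ q t : ℕ, ∃ n₀ : ℕ, ∀ n ≥ n₀, ∀ {α : Type u} (P : Matroid α)
    [P.Finite] (E S : Set α) (ends : α → Sym2 (ℕ × ℕ)) (w : ℕ × ℕ) (x y : ℕ), E ⊆ P.E →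
    Bic P E ends → GrdP E S ends w x y n → rk P✶ E + rk P E ≤ E.ncard + q →
    HasUniformMinor P k ∨ ∃ Z ⊆ E, Z.ncard ≤ 5 * k ∧ ∃ a b : ℕ,
      rect a b t t ⊆ rect (x + 1) (y + 1) (n - 2) (n - 2) ∧
      Disjoint Z (pl E ends (rect a b t t)) ∧ ∀ X ⊆ pl E ends (rect a b t t),
        rk P✶ (X ∪ Z) + rk P E = rk P✶ Z + X.ncard + rk P (E \ X)

/-- The number of edges touching a square. -/
lemma pl_rect_ncard {α : Type*} {E S : Set α} {ends : α → Sym2 (ℕ × ℕ)} {w : ℕ × ℕ} {x y n : ℕ}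
    (hG : GrdP E S ends w x y n) {a b t : ℕ} (h : rect a b t t ⊆ rect (x + 1) (y + 1) (n - 2) (n - 2)) :
    (pl E ends (rect a b t t)).ncard ≤ (t * t) * ((t + 2) * (t + 2) + 1) := by
  classical
  have hfin : ∀ a b t, (rect a b t t).Finite := by
    intro a b t
    rw [← Set.encard_lt_top_iff]
    exact lt_of_le_of_lt (rect_encard a b t t) (ENat.natCast_lt_top _)
  have hc : ∀ a b t, (rect a b t t).ncard ≤ t * t := by
    intro a b t
    have h := rect_encard a b t t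
    rw [← (hfin a b t).cast_ncard_eq] at h
    exact_mod_cast h
  have hfi : (insert w (rect (a - 1) (b - 1) (t + 2) (t + 2))).Finite := (hfin _ _ _).insert _
  set T : Set (Sym2 (ℕ × ℕ)) := (fun p : (ℕ × ℕ) × (ℕ × ℕ) => s(p.1, p.2)) ''
    (rect a b t t ×ˢ insert w (rect (a - 1) (b - 1) (t + 2) (t + 2))) with hT
  have hTf : T.Finite := ((hfin a b t).prod hfi).image _
  have h1 : ends '' (pl E ends (rect a b t t)) ⊆ T := by
    rintro _ ⟨e, ⟨he, v, hvm, hv⟩, rfl⟩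
    have hvin := h hvm
    simp only [rect, mem_ofPred_eq] at hvm hvin
    by_cases heS : e ∈ S
    · obtain ⟨p, q, hpq, hadj, hp, hq⟩ := hG.grd.mem e heS
      rw [hpq, Sym2.mem_iff] at hv
      simp only [adj] at hadj
      rcases hv with rfl | rfl
      · refine ⟨(v, q), ⟨?_, Or.inr ?_⟩, hpq.symm⟩
        · simp only [rect, mem_ofPred_eq]
          omega
        · simp only [rect, mem_ofPred_eq]
          omega
      · refine ⟨(v, p), ⟨?_, Or.inr ?_⟩, ?_⟩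
        · simp only [rect, mem_ofPred_eq]
          omega
        · simp only [rect, mem_ofPred_eq]
          omega
        · rw [hpq, Sym2.eq_swap]
    · obtain ⟨u, hu, hue⟩ := hG.star e ⟨he, heS⟩
      rw [hue, Sym2.mem_iff] at hv
      rcases hv with rfl | rfl
      · refine ⟨(v, w), ⟨?_, Or.inl rfl⟩, hue.symm⟩
        simp only [rect, mem_ofPred_eq]
        omega
      · exfalso
        apply hG.out
        simp only [rect, mem_ofPred_eq]
        omega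
  have h2 : (pl E ends (rect a b t t)).ncard = (ends '' (pl E ends (rect a b t t))).ncard :=
    ((hG.inj.mono pl_sub).ncard_image).symm
  rw [h2]
  refine (Set.ncard_le_ncard h1 hTf).trans ?_
  refine (Set.ncard_image_le ((hfin a b t).prod hfi)).trans ?_
  rw [Set.ncard_prod]
  refine Nat.mul_le_mul (hc a b t) ?_
  refine (Set.ncard_insert_le _ _).trans ?_
  have := hc (a - 1) (b - 1) (t + 2)
  omega

/-- The conclusion of Lemma STAR says that `M / (M.E - (Z ∪ σ⁺))` induces the plain grid on `σ`. -/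
lemma bic_star {α : Type*} {M : Matroid α} [M.Finite] {C E Z : Set α} {ends : α → Sym2 (ℕ × ℕ)}
    {σ : Set (ℕ × ℕ)} (hC : C ⊆ M.E \ E) (hE : E ⊆ M.E) (hB : Bic (M ／ C) E ends) (hZ : Z ⊆ E)
    (hZσ : Disjoint Z (pl E ends σ))
    (h : ∀ X ⊆ pl E ends σ, rk (M ／ C)✶ (X ∪ Z) + rk (M ／ C) E =
      rk (M ／ C)✶ Z + X.ncard + rk (M ／ C) (E \ X)) :
    Bic (M ／ (M.E \ (pl E ends σ ∪ Z))) (ins E ends σ) ends := by
  have f1 : (M ／ C).Finite := BQ.fin_contract C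
  set W := pl E ends σ with hW
  have f2 : (M ／ (M.E \ (W ∪ Z))).Finite := BQ.fin_contract _
  have hWE : W ⊆ E := pl_sub
  have hCE : C ⊆ M.E := hC.trans sdiff_subset
  have hWf : W.Finite := M.ground_finite.subset (hWE.trans hE)
  have hZf : Z.Finite := M.ground_finite.subset (hZ.trans hE)
  have hs1 : ins E ends σ ⊆ W := by
    rintro e ⟨he, h⟩
    refine ⟨he, ?_⟩
    induction hh : ends e with
    | _ p q =>
      exact ⟨p, h p (by rw [hh]; simp), by simp⟩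
  have hcompl : E \ W ⊆ ins E ends σᶜ := by
    rintro e ⟨he, h⟩
    exact ⟨he, fun v hv hvσ => h ⟨he, v, hvσ, hv⟩⟩
  have hg : ins E ends σ ⊆ (M ／ (M.E \ (W ∪ Z))).E := by
    intro e he
    exact ⟨hE he.1, fun h => h.2 (Or.inl (hs1 he))⟩
  refine Bic_of_rk (Bic_sub hB (fun _ he => he.1)) hg ?_
  intro A hA
  have hAW : A ⊆ W := hA.trans hs1
  -- ranks in `M`
  have hEC : E ⊆ M.E \ C := fun z hz => ⟨hE hz, fun h => (hC h).2 hz⟩
  have g0 := BQ.rk_con (M := M) (C := M.E \ (W ∪ Z)) (X := A) sdiff_subset (hA.trans hg)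
  have e0 : A ∪ M.E \ (W ∪ Z) = M.E \ ((W \ A) ∪ Z) := by
    ext z
    simp only [mem_union, mem_sdiff, not_or, not_and, not_not]
    constructor
    · rintro (h | h)
      · exact ⟨hE (hWE (hAW h)), fun _ => h, fun hz => Set.disjoint_left.1 hZσ hz (hAW h)⟩
      · exact ⟨h.1, fun hz => absurd hz h.2.1, h.2.2⟩
    · rintro ⟨h1, h2, h3⟩
      by_cases hz : z ∈ W
      · exact Or.inl (h2 hz)
      · exact Or.inr ⟨h1, hz, h3⟩
  have hPdual : ∀ X ⊆ E, rk (M ／ C)✶ X = rk M✶ X := by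
    intro X hX
    rw [Matroid.dual_contract]
    exact rk_delete (hX.trans hEC)
  have d1 := rk_dual (M := M) (X := (W \ A) ∪ Z)
    (union_subset ((sdiff_subset.trans hWE).trans hE) (hZ.trans hE))
  have d2 := rk_dual (M := M) (X := W ∪ Z) (union_subset (hWE.trans hE) (hZ.trans hE))
  have s1 := h (W \ A) sdiff_subset
  have s2 := h W (subset_refl _)
  rw [hPdual _ (union_subset (sdiff_subset.trans hWE) hZ), hPdual _ hZ] at s1
  rw [hPdual _ (union_subset hWE hZ), hPdual _ hZ] at s2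
  have n1 : ((W \ A) ∪ Z).ncard = (W \ A).ncard + Z.ncard :=
    ncard_union_eq (hZσ.symm.mono_left sdiff_subset) (hWf.subset sdiff_subset) hZf
  have n2 : (W ∪ Z).ncard = W.ncard + Z.ncard := ncard_union_eq hZσ.symm hWf hZf
  have n3 := Set.ncard_sdiff_add_ncard_of_subset hAW hWf
  have e1 : E \ (W \ A) = A ∪ E \ W := by
    ext z
    simp only [mem_union, mem_sdiff, not_and, not_not]
    constructor
    · rintro ⟨h1, h2⟩
      by_cases hz : z ∈ W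
      · exact Or.inl (h2 hz)
      · exact Or.inr ⟨h1, hz⟩
    · rintro (h | h)
      · exact ⟨hWE (hAW h), fun _ => h⟩
      · exact ⟨h.1, fun hz => absurd hz h.2⟩
  have sk := rk_skew hB (V₁ := σ) (V₂ := σᶜ) disjoint_compl_right hA hcompl
  rw [e0] at g0
  rw [e1, sk] at s1
  omega

/-- **Theorem B-co.** -/
theorem thmBco_of {k : ℕ} (hk : 1 ≤ k) (hStar : StarStmt.{u} k) : ∃ K y₀ : ℕ, ∀ q : ℕ, ∃ n₀ : ℕ,
    ∀ n n' : ℕ, n₀ ≤ n → y₀ ≤ n' → ∀ {α : Type u} (M : Matroid α) [M.Finite]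
    (E₁ S₁ E₂ C₁ D₂ : Set α) (e₁ e₂ : α → Sym2 (ℕ × ℕ)) (w : ℕ × ℕ) (x y x' y' : ℕ),
    E₁ ⊆ M.E → E₂ ⊆ M.E → Disjoint E₁ E₂ → C₁ ⊆ M.E \ E₁ → D₂ ⊆ M.E \ E₂ →
    Bic (M ／ C₁) E₁ e₁ → GrdP E₁ S₁ e₁ w x y n → Bic (M✶ ／ D₂) E₂ e₂ → Grd E₂ e₂ x' y' n' n' →
    rk (M ／ C₁) E₁ ≤ rk (M ／ (M.E \ E₁)) E₁ + q → KGe M S₁ E₂ K → HasUniformMinor M k := by
  obtain ⟨KL, mL, hL⟩ := thmLoc.{u} k hk
  set t := mL + 4 * (KL + 1) + 2 with ht
  set K := KL + 32 * (KL + 1) ^ 2 + 1 with hKdef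
  obtain ⟨y₀, hy₀⟩ := hL ((t * t) * ((t + 2) * (t + 2) + 1) + 5 * k)
  refine ⟨K, y₀, ?_⟩
  intro q
  obtain ⟨nS, hnS⟩ := hStar q t
  refine ⟨nS + 2, ?_⟩
  intro n n' hn hn' α M _ E₁ S₁ E₂ C₁ D₂ e₁ e₂ w x y x' y' hE₁ hE₂ hE hC₁ hD₂ hB₁ hG₁ hB₂ hG₂ hq hK
  have hC₁E : C₁ ⊆ M.E := hC₁.trans sdiff_subset
  have fin1 : (M ／ C₁).Finite := BQ.fin_contract C₁
  have fin2 : (M✶ ／ D₂).Finite := BQ.fin_contract D₂
  have hE₁C : E₁ ⊆ M.E \ C₁ := fun x hx => ⟨hE₁ hx, fun h => (hC₁ h).2 hx⟩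
  have hmin : M ／ C₁ ≤m M := by
    have := Matroid.contract_delete_isMinor M C₁ ∅
    rwa [Matroid.delete_empty] at this
  have hdef : rk (M ／ C₁)✶ E₁ + rk (M ／ C₁) E₁ ≤ E₁.ncard + q := by
    have h1 : rk (M ／ C₁)✶ E₁ = rk M✶ E₁ := by
      rw [Matroid.dual_contract]
      exact rk_delete hE₁C
    have h2 := rk_dual (M := M) (X := E₁) hE₁
    have h3 := BQ.rk_con (M := M) (C := M.E \ E₁) (X := E₁) sdiff_subset
      (fun z hz => ⟨hE₁ hz, fun h => h.2 hz⟩)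
    rw [union_sdiff_cancel hE₁] at h3
    omega
  rcases hnS n (by omega) (M ／ C₁) E₁ S₁ e₁ w x y hE₁C hB₁ hG₁ hdef with hU | ⟨Z, hZE, hZk, a, b,
    hab, hZσ, hrkZ⟩
  · exact hum_mono hmin hU
  set σ := rect a b t t with hσ
  set X := pl E₁ e₁ σ ∪ Z with hX
  have hXE₁ : X ⊆ E₁ := union_subset pl_sub hZE
  have hXE : X ⊆ M.E := hXE₁.trans hE₁
  have hσn : σ ⊆ rect x y n n := hab.trans (rect_sub (by omega) (by omega) (by omega) (by omega))
  have hbic := bic_star (M := M) (σ := σ) hC₁ hE₁ hB₁ hZE hZσ hrkZ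
  set R := blk S₁ e₁ a b t with hR
  have hRS : R ⊆ S₁ := blk_sub
  have hRins : R ⊆ ins E₁ e₁ σ := fun z hz => ⟨hG₁.sub hz.1, hz.2⟩
  have hRX : R ⊆ X := by
    intro z hz
    left
    refine ⟨hG₁.sub (hRS hz), ?_⟩
    induction hh : e₁ z with
    | _ p q' =>
      exact ⟨p, hz.2 p (by rw [hh]; simp), by simp⟩
  -- connectivity
  have hCS : C₁ ⊆ M.E \ S₁ := fun z hz => ⟨hC₁E hz, fun h => (hC₁ hz).2 (hG₁.sub h)⟩
  have k1 : KGe M R E₂ (KL + 1) := BQ.kge_blk hCS (hG₁.sub.trans hE₁)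
    (hE.mono_left hG₁.sub) (Bic_sub hB₁ hG₁.sub) hG₁.grd hσn (by omega) hK
  have k2 : KGe M✶ E₂ R KL := BQ.KGe.mono_n (k1.dual ((hRS.trans hG₁.sub).trans hE₁)) (by omega)
  refine HasUniformMinor.of_dual ?_
  refine hy₀ n' t hn' (by omega) M✶ E₂ X R D₂ (M.E \ X) e₂ e₁ x' y' a b hE₂ hXE hRX
    (hE.symm.mono_right (hRS.trans hG₁.sub)) hD₂ ?_ (subset_refl _) hB₂ hG₂ ?_
    (Grd_sub hG₁.grd hσn) ?_ k2
  · exact fun z hz => ⟨hz.1, fun h => hz.2 (hRX h)⟩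
  · rw [Matroid.dual_dual]
    exact Bic_sub hbic hRins
  · have h1 : rk M✶ X ≤ X.ncard := rk_le_ncard M✶ (M.ground_finite.subset hXE)
    have h2 : X.ncard ≤ (pl E₁ e₁ σ).ncard + Z.ncard := Set.ncard_union_le _ _
    have h3 : (pl E₁ e₁ σ).ncard ≤ (t * t) * ((t + 2) * (t + 2) + 1) := pl_rect_ncard hG₁ hab
    omega

end BICS
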