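import Pool.Agent.Helper77.G.Asm

open Set BIC BICS
open scoped Matroid

namespace C1Q

universe u

/-- the snake labelling of a rectangle of the grid -/
def SnakeLab : Prop :=
  ∀ {α : Type u} {S : Set α} {ends : α → Sym2 (ℕ × ℕ)} {x y m x' H q : ℕ},
    Grd S ends x y m m → rect x' y H q ⊆ rect x y m m → 2 ≤ q → 1 ≤ H →
    ∃ (pos : ℕ × ℕ → ℕ) (el : ℕ → α) (rg : ℕ → ℕ → α), InjOn pos (rect x' y H q) ∧
      Block (ins S ends (rect x' y H q)) (fun e => (ends e).map pos) el rg q H ∧
      ∀ t c, t + c ≤ H → c ≤ q → blk S ends (x' + t) y c ⊆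
        ins (ins S ends (rect x' y H q)) (fun e => (ends e).map pos) (Ico (t * q) ((t + c) * q))

lemma uniform_zero {α : Type*} (L : Matroid α) : HasUniformMinor L 0 := by
  refine ⟨L ↾ ∅, ?_, ?_, ?_⟩
  · have h := Matroid.contract_delete_isMinor L ∅ (L.E \ ∅)
    rw [Matroid.contract_empty, Matroid.delete_compl (empty_subset L.E)] at h
    exact h
  · rw [Matroid.restrict_ground_eq, Set.ncard_empty]
  · intro B
    rw [Matroid.isBase_restrict_iff (empty_subset _)]
    rw [Matroid.restrict_ground_eq]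
    constructor
    · intro h
      have : B = ∅ := Set.subset_empty_iff.1 h.subset
      rw [this]; exact ⟨Subset.rfl, Set.ncard_empty _⟩
    · rintro ⟨h, _⟩
      have : B = ∅ := Set.subset_empty_iff.1 h
      rw [this]
      exact L.empty_indep.isBasis_self

lemma St.mono {α V : Type*} {L N : Matroid α} {S : Set α} {ends : α → Sym2 V} {k u : ℕ}
    {C E : Set α} {U U' : Set V} (h : St L N S ends k u C E U) (hU : U ⊆ U') :
    St L N S ends k u C E U' :=
  ⟨h.subC.trans (ins_mono hU), h.subE.trans (ins_mono hU), h.disj, h.ind, h.lo, h.hi⟩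

/-- the initial state -/
lemma st_init {α V : Type*} {L N : Matroid α} [L.Finite] [N.Finite] {S : Set α}
    {ends : α → Sym2 V} {k u : ℕ} (hku : k ≤ u) (hB : Bic N S ends) (hSL : S ⊆ L.E)
    (hQ : Quo L N S) {W : Set V} (hW : rk L (ins S ends W) = rk N (ins S ends W) + u) :
    ∃ C E, St L N S ends k u C E W ∧ E.ncard = k := by
  classical
  set K := ins S ends W with hK
  have hKS : K ⊆ S := fun e he => he.1
  have hKN : K ⊆ N.E := hKS.trans hB.sub
  have hKL : K ⊆ L.E := hKS.trans hSL
  obtain ⟨B₀, hB₀⟩ := N.exists_isBasis K hKN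
  have hB₀L : L.Indep B₀ := by
    refine indep_of_rk (hB₀.subset.trans hKL) ?_
    have h1 := hQ ∅ B₀ (empty_subset _) (hB₀.subset.trans hKS)
    rw [rk_empty, rk_empty] at h1
    have h2 := rk_indep hB₀.indep
    omega
  obtain ⟨B', hB', hsub⟩ := hB₀L.subset_isBasis_of_subset hB₀.subset hKL
  have hB'f : B'.Finite := L.ground_finite.subset (hB'.subset.trans hKL)
  have c0 : rk N K = B₀.ncard := by unfold rk; rw [← hB₀.encard_eq_eRk]; rfl
  have c1 : rk L K = B'.ncard := by unfold rk; rw [← hB'.encard_eq_eRk]; rfl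
  have c2 : (B' \ B₀).ncard = u := by
    have := Set.ncard_sdiff_add_ncard_of_subset hsub hB'f
    omega
  obtain ⟨E, hE, hEc⟩ := Set.exists_subset_card_eq (show k ≤ (B' \ B₀).ncard by omega)
  have hEB : E ⊆ B' := hE.trans sdiff_subset
  have hCE : (B' \ E) ∪ E = B' := sdiff_union_of_subset hEB
  have c3 : (B' \ E).ncard + k = B'.ncard := by
    have := Set.ncard_sdiff_add_ncard_of_subset hEB hB'f
    omega
  refine ⟨B' \ E, E, ⟨sdiff_subset.trans hB'.subset, hEB.trans hB'.subset,
    disjoint_sdiff_self_right, ?_, ?_, ?_⟩, hEc⟩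
  · intro I hI _
    exact hB'.indep.subset (union_subset sdiff_subset (hI.trans hEB))
  · have h1 : rk N B₀ ≤ rk N (B' \ E) := rk_mono N (fun e he =>
      ⟨hsub he, fun h => (hE h).2 he⟩)
    have h2 := rk_indep hB₀.indep
    omega
  · rw [hCE]
    have h1 : rk N B' ≤ rk N K := rk_mono N hB'.subset
    omega

theorem thmC1_of (hsn : SnakeLab.{u}) (k s : ℕ) : ∃ m : ℕ, ∀ {α : Type u} (L N : Matroid α)
    [L.Finite] [N.Finite] (S : Set α) (ends : α → Sym2 (ℕ × ℕ)) (x y u : ℕ), S ⊆ L.E →
    Bic N S ends → Grd S ends x y m m → Quo L N S → k ≤ u →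
    (∀ a b c, s ≤ c → rect a b c c ⊆ rect x y m m →
      rk L (blk S ends a b c) = rk N (blk S ends a b c) + u) → HasUniformMinor L k := by
  classical
  rcases Nat.eq_zero_or_pos k with rfl | hk
  · exact ⟨0, fun L N _ _ _ _ _ _ _ _ _ _ _ _ _ => uniform_zero L⟩
  set b := s + 1 with hb
  set H := 3 + 2 ^ (2 * k) * (b + 2) with hH
  set q := Q0 (2 ^ (2 * k)) + b with hq
  have hbH : b ≤ H := by
    have : 1 * (b + 2) ≤ 2 ^ (2 * k) * (b + 2) := Nat.mul_le_mul_right _ Nat.one_le_two_pow
    omega
  have hq2 : 2 ≤ q := by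
    have : 2 ≤ Q0 (2 ^ (2 * k)) := by unfold Q0; omega
    omega
  refine ⟨(k + 1) * H + q, ?_⟩
  intro α L N _ _ S ends x y u hSL hB hG hQ hku hd
  set m := (k + 1) * H + q with hm
  have hHm : H ≤ (k + 1) * H := Nat.le_mul_of_pos_left H (by omega)
  have main : ∀ j, j ≤ k → ∃ C E, St L N S ends k u C E {p | p.1 < x + (j + 1) * H} ∧
      E.ncard = k + j := by
    intro j
    induction j with
    | zero =>
      intro _
      obtain ⟨C, E, h1, h2⟩ := st_init hku hB hSL hQ (W := rect x y b b)
        (hd x y b (by omega) (by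
          rintro p ⟨h1, h2, h3, h4⟩
          exact ⟨h1, by omega, h3, by omega⟩))
      refine ⟨C, E, h1.mono ?_, h2⟩
      rintro p ⟨h1, h2, h3, h4⟩
      show p.1 < x + (0 + 1) * H
      omega
    | succ j ih =>
      intro hj
      obtain ⟨C, E, h1, h2⟩ := ih (by omega)
      have hjH : (j + 1) * H + H ≤ (k + 1) * H := by
        have : (j + 1 + 1) * H ≤ (k + 1) * H := Nat.mul_le_mul_right _ (by omega)
        calc (j + 1) * H + H = (j + 1 + 1) * H := by ring
          _ ≤ _ := this
      have hrect : rect (x + (j + 1) * H) y H q ⊆ rect x y m m := by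
        rintro p ⟨h1, h2, h3, h4⟩
        exact ⟨by omega, by omega, h3, by omega⟩
      obtain ⟨pos, el, rg, p1, p2, p3⟩ := hsn hG hrect hq2 (by omega)
      obtain ⟨C', E', h3, h4⟩ := st_step hk hB hSL hQ h1 (by omega) (by omega)
        (W := rect (x + (j + 1) * H) y H q) (by
          rw [Set.disjoint_left]
          rintro p hp ⟨h5, _⟩
          have : p.1 < x + (j + 1) * H := hp
          omega) p1 p2 (b := b) (by omega) (by omega) le_rfl (by
          intro t ht
          have h5 := p3 t b ht (by omega)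
          have h6 := hd (x + (j + 1) * H + t) y b (by omega) (by
            rintro p ⟨h5, h6, h7, h8⟩
            exact ⟨by omega, by omega, h7, by omega⟩)
          have h7 := hQ _ _ h5 (fun e he => he.1.1)
          omega)
      refine ⟨C', E', h3.mono ?_, by omega⟩
      rintro p (hp | ⟨_, hp, _⟩)
      · have : p.1 < x + (j + 1) * H := hp
        show p.1 < x + (j + 1 + 1) * H
        have e : (j + 1 + 1) * H = (j + 1) * H + H := by ring
        omega
      · show p.1 < x + (j + 1 + 1) * H
        have e : (j + 1 + 1) * H = (j + 1) * H + H := by ring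
        omega
  obtain ⟨C, E, h1, h2⟩ := main k le_rfl
  have hSall : blk S ends x y m = S := by
    refine Subset.antisymm (fun e he => he.1) ?_
    intro e he
    refine ⟨he, fun v hv => ?_⟩
    obtain ⟨p, r, h3, _, h4, h5⟩ := hG.mem e he
    rw [h3, Sym2.mem_iff] at hv
    rcases hv with rfl | rfl
    · exact h4
    · exact h5
  have hdS := hd x y m (by omega) Subset.rfl
  rw [hSall] at hdS
  have hCE : C ∪ E ⊆ S := union_subset (fun e he => (h1.subC he).1) (fun e he => (h1.subE he).1)
  refine unif_end (C := C) (E := E) (fun e he => hSL (h1.subE he).1) h1.disj (by omega)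
    h1.ind ?_
  have h3 := hQ (C ∪ E) S hCE Subset.rfl
  have h4 := h1.hi
  omega

end C1Q
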