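import Mathlib

open Finset

namespace C1Q

/-- balanced triples through two fixed rungs glue together -/
lemma line_union {bp : Finset ℕ → Prop}
    (hmod : ∀ F F' : Finset ℕ, ∀ x ∈ F ∩ F', ∀ y ∈ F ∩ F', x ≠ y → bp F → bp F' → bp (F ∪ F'))
    {x y : ℕ} (hxy : x ≠ y) (W : Finset ℕ) (hW : W.Nonempty) (h : ∀ z ∈ W, bp {x, y, z}) :
    bp ({x, y} ∪ W) := by
  induction hW using Finset.Nonempty.cons_induction with
  | singleton z =>
    have := h z (by simp)
    have e : ({x, y, z} : Finset ℕ) = {x, y} ∪ {z} := by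
      ext t; simp only [mem_insert, mem_singleton, mem_union]; tauto
    rwa [e] at this
  | cons z W hz hW ih =>
    have h1 := ih (fun t ht => h t (mem_cons_of_mem ht))
    have h2 := h z (mem_cons_self _ _)
    have h3 := hmod _ _ x (by simp) y (by simp) hxy h1 h2
    have e : ({x, y} ∪ W) ∪ {x, y, z} = {x, y} ∪ (cons z W hz) := by
      ext t; simp only [mem_insert, mem_singleton, mem_union, mem_cons]; tauto
    rwa [e] at h3

/-- no balanced triple -/
def Gen (bp : Finset ℕ → Prop) (E : Finset ℕ) : Prop :=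
  ∀ x ∈ E, ∀ y ∈ E, ∀ z ∈ E, x ≠ y → x ≠ z → y ≠ z → ¬ bp {x, y, z}

lemma Gen.mono {bp : Finset ℕ → Prop} {E E' : Finset ℕ} (h : Gen bp E) (hE : E' ⊆ E) :
    Gen bp E' := fun x hx y hy z hz => h x (hE hx) y (hE hy) z (hE hz)

/-- flat or generic -/
lemma clean1 {bp : Finset ℕ → Prop} (hmono : ∀ F F' : Finset ℕ, F ⊆ F' → bp F' → bp F)
    (hmod : ∀ F F' : Finset ℕ, ∀ x ∈ F ∩ F', ∀ y ∈ F ∩ F', x ≠ y → bp F → bp F' → bp (F ∪ F'))
    (g : ℕ) (E : Finset ℕ) (hE : g + g * g * (g + 1) < E.card) :
    ∃ E' ⊆ E, E'.card = g ∧ (bp E' ∨ Gen bp E') := by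
  classical
  -- a generic subset of maximal size
  obtain ⟨G, hG, hmax⟩ := Finset.exists_max_image (E.powerset.filter (fun G => Gen bp G))
    Finset.card ⟨∅, by
      rw [mem_filter, mem_powerset]
      exact ⟨empty_subset _, fun x hx => absurd hx (notMem_empty x)⟩⟩
  rw [mem_filter, mem_powerset] at hG
  rcases Nat.lt_or_ge G.card g with hlt | hge
  · -- a long line
    have hcov : E \ G ⊆ (G ×ˢ G).biUnion (fun p => (E \ G).filter
        (fun z => p.1 ≠ p.2 ∧ bp {p.1, p.2, z})) := by
      intro z hz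
      have hzE := (mem_sdiff.1 hz).1
      have hzG := (mem_sdiff.1 hz).2
      have hng : ¬ Gen bp (insert z G) := by
        intro hgen
        have := hmax (insert z G) (by
          rw [mem_filter, mem_powerset]
          exact ⟨insert_subset hzE hG.1, hgen⟩)
        rw [card_insert_of_notMem hzG] at this
        omega
      unfold Gen at hng
      push Not at hng
      obtain ⟨a, ha, b, hb, c, hc, hab, hac, hbc, hbp⟩ := hng
      have key : ∃ u ∈ G, ∃ v ∈ G, u ≠ v ∧ bp {u, v, z} := by
        rw [mem_insert] at ha hb hc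
        rcases ha with rfl | ha
        · rcases hb with rfl | hb
          · exact absurd rfl hab
          · rcases hc with rfl | hc
            · exact absurd rfl hac
            · refine ⟨b, hb, c, hc, hbc, ?_⟩
              have e : ({b, c, a} : Finset ℕ) = {a, b, c} := by
                ext t; simp only [mem_insert, mem_singleton]; tauto
              rwa [e]
        · rcases hb with rfl | hb
          · rcases hc with rfl | hc
            · exact absurd rfl hbc
            · refine ⟨a, ha, c, hc, hac, ?_⟩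
              have e : ({a, c, b} : Finset ℕ) = {a, b, c} := by
                ext t; simp only [mem_insert, mem_singleton]; tauto
              rwa [e]
          · rcases hc with rfl | hc
            · exact ⟨a, ha, b, hb, hab, hbp⟩
            · exact absurd hbp (hG.2 a ha b hb c hc hab hac hbc)
      obtain ⟨u, hu, v, hv, huv, hb'⟩ := key
      rw [mem_biUnion]
      exact ⟨(u, v), mem_product.2 ⟨hu, hv⟩, mem_filter.2 ⟨hz, huv, hb'⟩⟩
    have hcard : ∃ p ∈ G ×ˢ G, g < ((E \ G).filter (fun z => p.1 ≠ p.2 ∧ bp {p.1, p.2, z})).card := by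
      by_contra hcon
      push Not at hcon
      have h1 := card_le_card hcov
      have h2 : ((G ×ˢ G).biUnion (fun p => (E \ G).filter
          (fun z => p.1 ≠ p.2 ∧ bp {p.1, p.2, z}))).card ≤ (G ×ˢ G).card * g :=
        card_biUnion_le_card_mul _ _ _ hcon
      have h3 : E.card - G.card ≤ (E \ G).card := le_card_sdiff _ _
      rw [card_product] at h2
      have h4 : G.card * G.card * g ≤ g * g * (g + 1) := by
        have : G.card * G.card ≤ g * g := Nat.mul_le_mul hlt.le hlt.le
        exact Nat.mul_le_mul this (Nat.le_succ g)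
      omega
    obtain ⟨⟨u, v⟩, _, hp2⟩ := hcard
    simp only at hp2
    set W := (E \ G).filter (fun z => u ≠ v ∧ bp {u, v, z}) with hW
    have hWne : W.Nonempty := card_pos.1 (by omega)
    obtain ⟨z, hz⟩ := hWne
    have huv : u ≠ v := (mem_filter.1 hz).2.1
    have hb : bp ({u, v} ∪ W) :=
      line_union hmod huv W ⟨z, hz⟩ (fun t ht => (mem_filter.1 ht).2.2)
    obtain ⟨E', hE', hc⟩ := exists_subset_card_eq (show g ≤ W.card by omega)
    refine ⟨E', fun t ht => (mem_sdiff.1 (mem_filter.1 (hE' ht)).1).1, hc, Or.inl ?_⟩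
    exact hmono _ _ (hE'.trans subset_union_right) hb
  · obtain ⟨E', hE', hc⟩ := exists_subset_card_eq hge
    exact ⟨E', hE'.trans hG.1, hc, Or.inr (hG.2.mono hE')⟩

/-- size needed for cleaning `m` relations -/
def Ncl : ℕ → ℕ → ℕ
  | 0, g => g
  | m + 1, g => (fun h => h + h * h * (h + 1) + 1) (Ncl m g)

lemma clean {ι : Type*} (bp : ι → Finset ℕ → Prop)
    (hmono : ∀ i, ∀ F F' : Finset ℕ, F ⊆ F' → bp i F' → bp i F)
    (hmod : ∀ i, ∀ F F' : Finset ℕ, ∀ x ∈ F ∩ F', ∀ y ∈ F ∩ F', x ≠ y → bp i F → bp i F' →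
      bp i (F ∪ F')) (g : ℕ) (s : Finset ι) : ∀ E : Finset ℕ, Ncl s.card g ≤ E.card →
    ∃ E' ⊆ E, E'.card = g ∧ ∀ i ∈ s, (bp i E' ∨ Gen (bp i) E') := by
  classical
  induction s using Finset.induction_on with
  | empty =>
    intro E hE
    obtain ⟨E', hE', hc⟩ := exists_subset_card_eq (show g ≤ E.card by simpa [Ncl] using hE)
    exact ⟨E', hE', hc, by simp⟩
  | insert i s his ih =>
    intro E hE
    rw [card_insert_of_notMem his] at hE
    obtain ⟨E₁, h1, h2, h3⟩ := clean1 (hmono i) (hmod i) (Ncl s.card g) E (by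
      simp only [Ncl] at hE; omega)
    obtain ⟨E₂, h4, h5, h6⟩ := ih E₁ h2.ge
    refine ⟨E₂, h4.trans h1, h5, ?_⟩
    intro j hj
    rcases mem_insert.1 hj with rfl | hj
    · rcases h3 with h3 | h3
      · exact Or.inl (hmono _ _ _ h4 h3)
      · exact Or.inr (h3.mono h4)
    · exact h6 j hj

/-- an independent set in a graph of small degree -/
lemma indep_set {r : ℕ → ℕ → Prop} (hsymm : ∀ x y, r x y → r y x) (m : ℕ) (k : ℕ) :
    ∀ E : Finset ℕ, (∀ x ∈ E, ∀ F ⊆ E, (∀ y ∈ F, y ≠ x ∧ r x y) → F.card ≤ m) →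
    k * (m + 1) ≤ E.card → ∃ F ⊆ E, F.card = k ∧ ∀ x ∈ F, ∀ y ∈ F, x ≠ y → ¬ r x y := by
  classical
  induction k with
  | zero => intro E _ _; exact ⟨∅, by simp, by simp, by simp⟩
  | succ k ih =>
    intro E hdeg hE
    have hne : E.Nonempty := by
      rw [← card_pos]
      have : 0 < (k + 1) * (m + 1) := by positivity
      omega
    obtain ⟨x, hx⟩ := hne
    set D := (E.filter (fun y => y ≠ x ∧ r x y)) with hD
    have hDc : D.card ≤ m := hdeg x hx D (filter_subset _ _) (fun y hy => (mem_filter.1 hy).2)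
    set E₁ := E \ insert x D with hE₁
    have hc : k * (m + 1) ≤ E₁.card := by
      have h1 : E.card - (insert x D).card ≤ E₁.card := le_card_sdiff _ _
      have h2 : (insert x D).card ≤ D.card + 1 := card_insert_le _ _
      have h3 : (k + 1) * (m + 1) = k * (m + 1) + (m + 1) := by ring
      omega
    obtain ⟨F, hF, hFc, hFi⟩ := ih E₁ (fun y hy G hG hGr =>
      hdeg y (sdiff_subset hy) G (hG.trans sdiff_subset) hGr) hc
    have hxF : x ∉ F := fun h => by
      have := (mem_sdiff.1 (hF h)).2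
      exact this (mem_insert_self _ _)
    have hr : ∀ y ∈ F, ¬ r x y := by
      intro y hy hxy
      have h1 := mem_sdiff.1 (hF hy)
      apply h1.2
      rw [mem_insert, hD, mem_filter]
      right
      refine ⟨h1.1, ?_, hxy⟩
      rintro rfl
      exact hxF hy
    refine ⟨insert x F, insert_subset hx (hF.trans sdiff_subset), ?_, ?_⟩
    · rw [card_insert_of_notMem hxF, hFc]
    · intro y hy z hz hyz
      rcases mem_insert.1 hy with hy1 | hy1 <;> rcases mem_insert.1 hz with hz1 | hz1
      · exact absurd (hy1.trans hz1.symm) hyz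
      · rw [hy1]; exact hr z hz1
      · rw [hz1]; exact fun h => hr y hy1 (hsymm _ _ h)
      · exact hFi y hy1 z hz1 hyz

end C1Q
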