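import Pool.Agent.Helper77.G.Steps
import Pool.Agent.Helper77.G.Comb

open Set BIC

namespace C1Q

variable {α : Type*} {S : Set α} {ends : α → Sym2 ℕ} {el : ℕ → α}

/-- a block of `H` rows of width `q`, traversed by a snake -/
structure Block (S : Set α) (ends : α → Sym2 ℕ) (el : ℕ → α) (rg : ℕ → ℕ → α) (q H : ℕ) :
    Prop where
  snake : Snake S ends el (H * q)
  rungs : ∀ s, s + 1 < H → Rungs S ends (rg s) (s * q) q

/-- first row of the level `t` -/
def sr (b t : ℕ) : ℕ := 1 + t * (b + 2)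

/-- first position of the level `t` -/
def ap (b q t : ℕ) : ℕ := sr b t * q

lemma ap_succ (b q t : ℕ) : ap b q (t + 1) = ap b q t + 2 * q + b * q := by
  unfold ap sr; ring

lemma sr_lt {b m H t : ℕ} (hH : 3 + m * (b + 2) ≤ H) (ht : t ≤ m) : sr b t + 1 < H := by
  unfold sr
  have : t * (b + 2) ≤ m * (b + 2) := Nat.mul_le_mul_right _ ht
  omega

lemma ap_le {b m H q t : ℕ} (hH : 3 + m * (b + 2) ≤ H) (ht : t ≤ m) :
    ap b q t + 2 * q ≤ H * q := by
  have h1 := sr_lt hH ht
  unfold ap
  calc sr b t * q + 2 * q = (sr b t + 2) * q := by ring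
    _ ≤ H * q := Nat.mul_le_mul_right _ h1

variable {ι : Type*} [Fintype ι]

/-- degree bound for the pairs of rungs which are balanced with a context -/
lemma deg {bal : ι → Set α → Prop} (hbal : ∀ i, Bal S ends (bal i)) {L : ℕ}
    (hs : Snake S ends el L) {R : ℕ → α} {a q : ℕ}
    (hR : Rungs S ends R a q) (hL : a + 2 * q ≤ L) {c : Set α} (hc : Ctx S ends el c a q)
    {E : Finset ℕ} (hE : ∀ j ∈ E, j < q)
    (hcl : ∀ i, bal i (T el R a q (P el a (a + q)) E) ∨
      Gen (fun F => bal i (T el R a q (P el a (a + q)) F)) E) {j : ℕ} (hj : j ∈ E)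
    (F : Finset ℕ) (hF : F ⊆ E)
    (h : ∀ y ∈ F, y ≠ j ∧ ∃ i, ¬ bal i (T el R a q c E) ∧ bal i (T el R a q c {j, y})) :
    F.card ≤ Fintype.card ι := by
  classical
  rcases F.eq_empty_or_nonempty with rfl | ⟨y₀, hy₀⟩
  · simp
  obtain ⟨i₀, _⟩ := (h y₀ hy₀).2
  have : Inhabited ι := ⟨i₀⟩
  have hch : ∀ y, ∃ i : ι, y ∈ F → ¬ bal i (T el R a q c E) ∧ bal i (T el R a q c {j, y}) := by
    intro y
    by_cases hy : y ∈ F
    · obtain ⟨i, hi⟩ := (h y hy).2
      exact ⟨i, fun _ => hi⟩
    · exact ⟨i₀, fun h => absurd h hy⟩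
  choose f hf using hch
  rw [← Finset.card_univ]
  refine Finset.card_le_card_of_injOn f (fun _ _ => Finset.mem_coe.2 (Finset.mem_univ _)) ?_
  intro y hy y' hy' he
  have hy1 := Finset.mem_coe.1 hy
  have hy1' := Finset.mem_coe.1 hy'
  by_contra hne
  obtain ⟨g1, g2⟩ := hf y hy1
  obtain ⟨g3, g4⟩ := hf y' hy1'
  rw [← he] at g3 g4
  have hEs : ∀ i ∈ (E : Set ℕ), i < q := fun i hi => hE i (Finset.mem_coe.1 hi)
  rcases hcl (f y) with hfl | hgen
  · exact g1 (pairs_flat (hbal _) hs hR hL hc hEs (Finset.mem_coe.2 hj)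
      (Finset.mem_coe.2 (hF hy1)) (h y hy1).1.symm hfl g2)
  · have h3 := pairs_gen (hbal _) hs hR hL hc (hE j hj) (hE y (hF hy1)) (hE y' (hF hy1')) g2 g4
    refine hgen j hj y (hF hy1) y' (hF hy1') (h y hy1).1.symm (h y' hy1').1.symm hne ?_
    simpa using h3

/-- the conclusion of the lemma -/
def Concl (S : Set α) (ends : α → Sym2 ℕ) (bal : ι → Set α → Prop) (L : ℕ) : Prop :=
  ∃ (x : ℕ) (B : Set α) (l : α), x ≤ L ∧ SDR ends B (Ico 0 x) ∧ B ⊆ ins S ends (Ico 0 x) ∧
    l ∈ ins S ends (Ico 0 x) ∧ l ∉ B ∧ ∀ i, ¬ bal i (insert l B)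

lemma finish {bal : ι → Set α → Prop} (hbal : ∀ i, Bal S ends (bal i)) {L : ℕ}
    (hs : Snake S ends el L) {R : ℕ → α} {a q : ℕ}
    (hR : Rungs S ends R a q) (hL : a + 2 * q ≤ L) {c : Set α} (hc : Ctx S ends el c a q)
    {E : Finset ℕ} (hE : ∀ j ∈ E, j < q)
    (hcl : ∀ i, bal i (T el R a q (P el a (a + q)) E) ∨
      Gen (fun F => bal i (T el R a q (P el a (a + q)) F)) E)
    (hEc : Fintype.card ι + 1 < E.card) (hA : ∀ i, ¬ bal i (T el R a q c E)) :
    Concl S ends bal L := by
  classical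
  obtain ⟨j, hj⟩ : E.Nonempty := by rw [← Finset.card_pos]; omega
  set F := E.filter (fun y => y ≠ j ∧ ∃ i, ¬ bal i (T el R a q c E) ∧ bal i (T el R a q c {j, y}))
    with hF
  have h1 : F.card ≤ Fintype.card ι :=
    deg hbal hs hR hL hc hE hcl hj F (Finset.filter_subset _ _)
      (fun y hy => (Finset.mem_filter.1 hy).2)
  obtain ⟨j', hj'⟩ : (E \ insert j F).Nonempty := by
    rw [← Finset.card_pos]
    have h2 : E.card - (insert j F).card ≤ (E \ insert j F).card := Finset.le_card_sdiff _ _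
    have h3 := Finset.card_insert_le j F
    omega
  rw [Finset.mem_sdiff, Finset.mem_insert, not_or] at hj'
  obtain ⟨hj'E, hne, hnF⟩ := hj'
  have hgood : ∀ i, ¬ bal i (T el R a q c {j, j'}) := by
    intro i hi
    exact hnF (Finset.mem_filter.2 ⟨hj'E, hne, i, hA i, hi⟩)
  have hjq := hE j hj
  have hjq' := hE j' hj'E
  refine ⟨a + 2 * q, c ∪ insert (R j) (P el (a + q) (a + 2 * q)), R j', hL,
    sdr1 hs hR hL hc hjq, ?_, ?_, ?_, ?_⟩
  · refine union_subset ?_ (insert_subset ?_ ?_)
    · exact hc.sub.trans (ins_mono (Ico_subset_Ico_right (by omega)))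
    · exact ins_mono (Ico_subset_Ico_left (by omega)) (hR.ins hjq)
    · exact (P_sub hs hL).trans (ins_mono (Ico_subset_Ico_left (by omega)))
  · exact ins_mono (Ico_subset_Ico_left (by omega)) (hR.ins hjq')
  · rintro (h | h | h)
    · exact notMem_ins hc.sub (hR.hi hjq') (fun h => by have := h.2; omega) h
    · exact hR.ne hjq' hjq hne h
    · exact notMem_P hs hL (hR.lo hjq') (fun h => by have := h.1; omega) h
  · intro i hi
    refine hgood i ((hbal i).mono _ _ ?_ hi)
    rintro w ((hw | hw) | ⟨y, (rfl | rfl), rfl⟩)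
    · exact Or.inr (Or.inl hw)
    · exact Or.inr (Or.inr (Or.inr hw))
    · exact Or.inr (Or.inr (Or.inl rfl))
    · exact Or.inl rfl

lemma step {bal : ι → Set α → Prop} (hbal : ∀ i, Bal S ends (bal i)) {L : ℕ}
    (hs : Snake S ends el L) {R R' : ℕ → α} {a a' q : ℕ}
    (hR : Rungs S ends R a q) (hR' : Rungs S ends R' a' q) (hL : a' + 2 * q ≤ L)
    {c : Set α} (hc : Ctx S ends el c a q)
    {E E' : Finset ℕ} (hE : ∀ j ∈ E, j < q) (hE' : ∀ j ∈ E', j < q)
    (hcl : ∀ i, bal i (T el R a q (P el a (a + q)) E) ∨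
      Gen (fun F => bal i (T el R a q (P el a (a + q)) F)) E)
    (hEc : (Fintype.card ι + 1) * (Fintype.card ι + 1) ≤ E.card) (hEc' : 1 < E'.card)
    (haa : a + 2 * q + 1 < a') (hfin : S.Finite)
    (hun : ∀ i, ¬ bal i (ins S ends (Ico (a + 2 * q) a'))) {i : ι}
    (hi : bal i (T el R a q c E)) :
    ∃ c', Ctx S ends el c' a' q ∧ ∀ l, bal l (T el R' a' q c' E') →
      bal l (T el R a q c E) ∧ l ≠ i := by
  classical
  have hEs : ∀ i ∈ (E : Set ℕ), i < q := fun i hi => hE i (Finset.mem_coe.1 hi)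
  have hEs' : ∀ i ∈ (E' : Set ℕ), i < q := fun i hi => hE' i (Finset.mem_coe.1 hi)
  obtain ⟨j₁, hj₁, j₂, hj₂, hne⟩ := Finset.one_lt_card.1 hEc'
  -- an independent set of rungs
  obtain ⟨F, hFE, hFc, hFi⟩ := indep_set
    (r := fun j y => ∃ l, ¬ bal l (T el R a q c E) ∧ bal l (T el R a q c {j, y}))
    (by
      rintro x y ⟨l, h1, h2⟩
      refine ⟨l, h1, ?_⟩
      rwa [Set.pair_comm])
    (Fintype.card ι) (Fintype.card ι + 1) E
    (fun x hx F hF h => deg hbal hs hR (by omega) hc hE hcl hx F hF h) hEc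
  have hFne : F.Nonempty := by rw [← Finset.card_pos]; omega
  obtain ⟨j₀, hj₀⟩ := hFne
  obtain ⟨z, e, hr, hz⟩ := exists_route (hbal i) hs hR hR' hL hc hEs' (Finset.mem_coe.2 hj₁)
    (Finset.mem_coe.2 hj₂) hne (hE _ (hFE hj₀)) haa
    (hfin.subset (fun x hx => hx.1)) (hun i)
  have hall : ∀ j ∈ E, ¬ bal i (T el R' a' q (nc el R a a' q c j z e) E') := by
    intro j hj hb
    exact hz (indep_rung (hbal i) hs hR hR' hL hc hEs hEs' ⟨j₁, Finset.mem_coe.2 hj₁⟩
      (Finset.mem_coe.2 hj) (Finset.mem_coe.2 (hFE hj₀)) hr hi hb)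
  -- a good rung
  have hgood : ∃ j ∈ F, ∀ l, ¬ bal l (T el R a q c E) →
      ¬ bal l (T el R' a' q (nc el R a a' q c j z e) E') := by
    by_contra hcon
    push Not at hcon
    have : Inhabited ι := ⟨i⟩
    have hch : ∀ y, ∃ l : ι, y ∈ F → ¬ bal l (T el R a q c E) ∧
        bal l (T el R' a' q (nc el R a a' q c y z e) E') := by
      intro y
      by_cases hy : y ∈ F
      · obtain ⟨l, hl⟩ := hcon y hy
        exact ⟨l, fun _ => hl⟩
      · exact ⟨i, fun h => absurd h hy⟩
    choose f hf using hch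
    have hle : F.card ≤ (Finset.univ : Finset ι).card := by
      refine Finset.card_le_card_of_injOn f (fun _ _ => Finset.mem_coe.2 (Finset.mem_univ _)) ?_
      intro y hy y' hy' he
      have hy1 := Finset.mem_coe.1 hy
      have hy1' := Finset.mem_coe.1 hy'
      by_contra hne'
      obtain ⟨g1, g2⟩ := hf y hy1
      obtain ⟨g3, g4⟩ := hf y' hy1'
      rw [← he] at g3 g4
      have := atmost (hbal _) hs hR hR' hL hc hEs' (Finset.mem_coe.2 hj₁) (Finset.mem_coe.2 hj₂)
        hne (hE _ (hFE hy1)) (hE _ (hFE hy1')) hr g2 g4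
      exact hFi y hy1 y' hy1' hne' ⟨_, g1, this⟩
    rw [Finset.card_univ] at hle
    omega
  obtain ⟨j, hjF, hj⟩ := hgood
  refine ⟨nc el R a a' q c j z e, nc_sdr hs hR hL hc (hE _ (hFE hjF)) hr, ?_⟩
  intro l hl
  refine ⟨?_, ?_⟩
  · by_contra hnl
    exact hj l hnl hl
  · rintro rfl
    exact hall j (hFE hjF) hl

/-- number of rungs kept on each level -/
def gQ (m : ℕ) : ℕ := (m + 1) * (m + 1) + 1

/-- the width needed -/
def Q0 (m : ℕ) : ℕ := Ncl m (gQ m) + 2

theorem lemmaQ {rg : ℕ → ℕ → α} {b q H : ℕ} (hb1 : 1 ≤ b)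
    (hq : Q0 (Fintype.card ι) ≤ q) (hH : 3 + Fintype.card ι * (b + 2) ≤ H)
    (hB : Block S ends el rg q H) (hfin : S.Finite) (bal : ι → Set α → Prop)
    (hbal : ∀ i, Bal S ends (bal i))
    (hun : ∀ i s, s + b ≤ H → ¬ bal i (ins S ends (Ico (s * q) ((s + b) * q)))) :
    Concl S ends bal (H * q) := by
  classical
  set m := Fintype.card ι with hm
  have hs := hB.snake
  have hR : ∀ t, t ≤ m → Rungs S ends (rg (sr b t)) (ap b q t) q := fun t ht =>
    hB.rungs _ (sr_lt hH ht)
  have hLt : ∀ t, t ≤ m → ap b q t + 2 * q ≤ H * q := fun t ht => ap_le hH ht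
  -- cleaning
  have hclean : ∀ t, ∃ E : Finset ℕ, t ≤ m → (∀ j ∈ E, j < q) ∧ E.card = gQ m ∧
      ∀ i, bal i (T el (rg (sr b t)) (ap b q t) q (P el (ap b q t) (ap b q t + q)) E) ∨
        Gen (fun F => bal i (T el (rg (sr b t)) (ap b q t) q (P el (ap b q t) (ap b q t + q)) F))
          E := by
    intro t
    by_cases ht : t ≤ m
    swap
    · exact ⟨∅, fun h => absurd h ht⟩
    set a := ap b q t with ha
    set R := rg (sr b t) with hRd
    obtain ⟨E, hE, hEc, hEi⟩ := clean
      (fun i F => (∀ j ∈ F, j < q) ∧ bal i (T el R a q (P el a (a + q)) (F : Set ℕ)))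
      (by
        rintro i F F' hFF ⟨h1, h2⟩
        exact ⟨fun j hj => h1 j (hFF hj), (hbal i).mono _ _ (T_mono Subset.rfl
          (Finset.coe_subset.2 hFF)) h2⟩)
      (by
        rintro i F F' x hx y hy hxy ⟨h1, h2⟩ ⟨h3, h4⟩
        refine ⟨fun j hj => ?_, ?_⟩
        · rcases Finset.mem_union.1 hj with h | h
          · exact h1 j h
          · exact h3 j h
        · have hx' : x ∈ (F : Set ℕ) ∩ (F' : Set ℕ) := by
            rw [← Finset.coe_inter]; exact Finset.mem_coe.2 hx
          have hy' : y ∈ (F : Set ℕ) ∩ (F' : Set ℕ) := by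
            rw [← Finset.coe_inter]; exact Finset.mem_coe.2 hy
          have := rungs_mod (hbal i) hs (hR t ht) (hLt t ht)
            (fun j hj => h1 j (Finset.mem_coe.1 hj)) (fun j hj => h3 j (Finset.mem_coe.1 hj))
            hx' hy' hxy h2 h4
          rwa [← Finset.coe_union] at this)
      (gQ m) Finset.univ (Finset.range q) (by
        rw [Finset.card_univ, Finset.card_range, ← hm]
        unfold Q0 at hq
        omega)
    have hEq : ∀ j ∈ E, j < q := fun j hj => Finset.mem_range.1 (hE hj)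
    refine ⟨E, fun _ => ⟨hEq, hEc, fun i => ?_⟩⟩
    rcases hEi i (Finset.mem_univ _) with h | h
    · exact Or.inl h.2
    · right
      intro x hx y hy z hz h1 h2 h3 h4
      refine h x hx y hy z hz h1 h2 h3 ⟨?_, h4⟩
      intro j hj
      simp only [Finset.mem_insert, Finset.mem_singleton] at hj
      rcases hj with rfl | rfl | rfl
      · exact hEq _ hx
      · exact hEq _ hy
      · exact hEq _ hz
  choose E hE using hclean
  have hq2 : 2 ≤ q := by unfold Q0 at hq; omega
  have hbq : 2 ≤ b * q := le_trans hq2 (Nat.le_mul_of_pos_left q hb1)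
  -- main induction
  have main : ∀ n t, t + n ≤ m → ∀ c, Ctx S ends el c (ap b q t) q →
      (Finset.univ.filter (fun i => bal i (T el (rg (sr b t)) (ap b q t) q c (E t)))).card ≤ n →
      Concl S ends bal (H * q) := by
    intro n
    induction n with
    | zero =>
      intro t ht c hc hA
      obtain ⟨e1, e2, e3⟩ := hE t (by omega)
      refine finish hbal hs (hR t (by omega)) (hLt t (by omega)) hc e1 e3 ?_ ?_
      · rw [e2, ← hm]; unfold gQ
        have : (m + 1) * 1 ≤ (m + 1) * (m + 1) := Nat.mul_le_mul_left _ (by omega)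
        omega
      · intro i hi
        have : (Finset.univ.filter (fun i => bal i (T el (rg (sr b t)) (ap b q t) q c (E t)))) = ∅ :=
          Finset.card_eq_zero.1 (Nat.le_zero.1 hA)
        have h1 : i ∈ (∅ : Finset ι) := by
          rw [← this]; exact Finset.mem_filter.2 ⟨Finset.mem_univ _, hi⟩
        exact absurd h1 (Finset.notMem_empty _)
    | succ n ih =>
      intro t ht c hc hA
      obtain ⟨e1, e2, e3⟩ := hE t (by omega)
      obtain ⟨e1', e2', e3'⟩ := hE (t + 1) (by omega)
      by_cases hex : ∃ i, bal i (T el (rg (sr b t)) (ap b q t) q c (E t))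
      swap
      · push Not at hex
        refine finish hbal hs (hR t (by omega)) (hLt t (by omega)) hc e1 e3 ?_ hex
        rw [e2, ← hm]; unfold gQ
        have : (m + 1) * 1 ≤ (m + 1) * (m + 1) := Nat.mul_le_mul_left _ (by omega)
        omega
      obtain ⟨i, hi⟩ := hex
      have hsucc := ap_succ b q t
      obtain ⟨c', hc', hl⟩ := step hbal hs (hR t (by omega)) (hR (t + 1) (by omega))
        (hLt (t + 1) (by omega)) hc e1 e1' e3 (by rw [e2, ← hm]; unfold gQ; omega)
        (by
          rw [e2']; unfold gQ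
          have : 1 * 1 ≤ (m + 1) * (m + 1) := Nat.mul_le_mul (by omega) (by omega)
          omega)
        (by omega) hfin (by
          intro i
          have h1 := hun i (sr b t + 2) (by
            have h2 := sr_lt hH (show t + 1 ≤ m by omega)
            unfold sr at h2 ⊢
            have h3 : (t + 1) * (b + 2) = t * (b + 2) + (b + 2) := by ring
            omega)
          have e4 : (sr b t + 2) * q = ap b q t + 2 * q := by unfold ap; ring
          have e5 : (sr b t + 2 + b) * q = ap b q (t + 1) := by unfold ap sr; ring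
          rwa [e4, e5] at h1) hi
      refine ih (t + 1) (by omega) c' hc' ?_
      have hsub : (Finset.univ.filter
          (fun l => bal l (T el (rg (sr b (t + 1))) (ap b q (t + 1)) q c' (E (t + 1))))) ⊆
          (Finset.univ.filter
            (fun l => bal l (T el (rg (sr b t)) (ap b q t) q c (E t)))).erase i := by
        intro l hl'
        have := hl l (Finset.mem_filter.1 hl').2
        exact Finset.mem_erase.2 ⟨this.2, Finset.mem_filter.2 ⟨Finset.mem_univ _, this.1⟩⟩
      have h1 := Finset.card_le_card hsub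
      have h2 : i ∈ Finset.univ.filter
          (fun l => bal l (T el (rg (sr b t)) (ap b q t) q c (E t))) :=
        Finset.mem_filter.2 ⟨Finset.mem_univ _, hi⟩
      rw [Finset.card_erase_of_mem h2] at h1
      omega
  -- the first context
  have h0 : ap b q 0 = q := by unfold ap sr; ring
  have hR0 : Rungs S ends (rg 0) 0 q := by
    have := hB.rungs 0 (by omega)
    rwa [Nat.zero_mul] at this
  have hL0 : 0 + 2 * q ≤ H * q := by
    have : 2 * q ≤ H * q := Nat.mul_le_mul_right _ (by omega)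
    omega
  refine main m 0 (by omega) (insert (rg 0 0) (P el 0 (0 + q)) ∪
    insert (rg 0 1) (P el (0 + q) (0 + 2 * q))) ?_ ?_
  · rw [h0]
    refine ⟨?_, ?_, ?_⟩
    · have := sdr2 hs hR0 hL0 (show 0 < q by omega) (show 1 < q by omega) (by omega)
      have e : 0 + 2 * q = q + q := by ring
      rw [e] at this
      rw [e]
      exact this
    · refine union_subset (insert_subset ?_ ?_) (insert_subset ?_ ?_)
      · have := hR0.ins (show 0 < q by omega)
        rwa [show 0 + 2 * q = q + q by ring] at this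
      · exact (P_sub hs (by omega)).trans (ins_mono (Ico_subset_Ico le_rfl (by omega)))
      · have := hR0.ins (show 1 < q by omega)
        rwa [show 0 + 2 * q = q + q by ring] at this
      · exact (P_sub hs hL0).trans (ins_mono (Ico_subset_Ico (by omega) (by omega)))
    · exact fun w hw => Or.inr (Or.inr (P_mono (by omega) (by omega) hw))
  · exact (Finset.card_le_card (Finset.subset_univ _)).trans (by rw [Finset.card_univ])

end C1Q
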