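import Pool.Agent.BICS.Asm
import Pool.Agent.Helper57.TB.Cont
import Pool.Agent.Helper53.BQ.Bq

/-!
# Theorem LOC: a bounded block of the second minor is realised inside a set of bounded rank (helper77)
-/

open Set BIC
open scoped Matroid

namespace BICS

universe u

/-- An independent subset `P` of `C` with `P` skew to `X` and `C` spanned by `X ∪ P`. -/
lemma exists_skew {α : Type*} (M : Matroid α) [M.Finite] {C X : Set α} (hC : C ⊆ M.E)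
    (hX : X ⊆ M.E) : ∃ P ⊆ C, Disjoint P X ∧ (∀ P' ⊆ P, ∀ A ⊆ X, rk M (A ∪ P') = rk M A + rk M P') ∧
      rk M (X ∪ C) ≤ rk M X + rk M P := by
  classical
  obtain ⟨B, hB⟩ := M.exists_isBasis X hX
  obtain ⟨J, hJ, hBJ⟩ := hB.indep.subset_isBasis_of_subset
    (hB.subset.trans (subset_union_left : X ⊆ X ∪ C)) (union_subset hX hC)
  have hJf : J.Finite := M.ground_finite.subset hJ.indep.subset_ground
  have hJX : (J \ B) ∩ X = ∅ := by
    rw [Set.eq_empty_iff_forall_notMem]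
    rintro z ⟨⟨hzJ, hzB⟩, hzX⟩
    have h1 : M.Indep (insert z B) := hJ.indep.subset (insert_subset hzJ hBJ)
    exact hzB (hB.mem_of_insert_indep hzX h1)
  refine ⟨J \ B, ?_, ?_, ?_, ?_⟩
  · intro z hz
    rcases hJ.subset hz.1 with h | h
    · exact absurd (show z ∈ (J \ B) ∩ X from ⟨hz, h⟩) (by rw [hJX]; exact notMem_empty z)
    · exact h
  · rw [Set.disjoint_iff_inter_eq_empty]
    exact hJX
  · intro P' hP' A hA
    have hPJ : P' ⊆ J := hP'.trans sdiff_subset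
    have hBd : Disjoint B P' := by
      rw [Set.disjoint_left]
      exact fun z hz hz2 => (hP' hz2).2 hz
    have e1 : rk M (B ∪ P') = rk M X + rk M P' := by
      rw [rk_indep (hJ.indep.subset (union_subset hBJ hPJ)), rk_indep (hJ.indep.subset hPJ),
        ncard_union_eq hBd (hJf.subset hBJ) (hJf.subset hPJ)]
      have : rk M X = rk M B := by
        unfold rk
        rw [hB.eRk_eq_eRk]
      rw [this, rk_indep hB.indep]
    have e2 : rk M (B ∪ P') ≤ rk M (X ∪ P') := rk_mono M (union_subset_union_left _ hB.subset)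
    have e3 := rk_submod M (A ∪ P') X
    have e4 : rk M A ≤ rk M ((A ∪ P') ∩ X) := rk_mono M (fun z hz => ⟨Or.inl hz, hA hz⟩)
    have e5 : rk M (X ∪ P') ≤ rk M ((A ∪ P') ∪ X) := by
      refine rk_mono M ?_
      rintro z (hz | hz)
      · exact Or.inr hz
      · exact Or.inl (Or.inr hz)
    have e6 := rk_submod M A P'
    omega
  · have h1 : rk M (X ∪ C) = J.ncard := by
      rw [← rk_indep hJ.indep]
      unfold rk
      rw [hJ.eRk_eq_eRk]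
    have h2 : rk M X = B.ncard := by
      rw [← rk_indep hB.indep]
      unfold rk
      rw [hB.eRk_eq_eRk]
    have h3 : rk M (J \ B) = (J \ B).ncard := rk_indep (hJ.indep.subset sdiff_subset)
    have h4 := Set.ncard_sdiff_add_ncard_of_subset hBJ hJf
    omega

/-- Contracting a set skew to `X` does not change the minors of `M` living on `X`. -/
lemma bic_skew {α : Type*} {M : Matroid α} [M.Finite] {X Y P D : Set α} {V : Type*}
    {ends : α → Sym2 V} (hX : X ⊆ M.E) (hP : P ⊆ M.E) (hPX : Disjoint P X)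
    (hsk : ∀ A ⊆ X, rk M (A ∪ P) = rk M A + rk M P) (hD : D ⊆ M.E) (hDX : M.E \ X ⊆ D)
    (hYD : Disjoint Y D) (hB : Bic (M✶ ／ D) Y ends) :
    Bic ((M ／ P)✶ ／ (D \ P)) Y ends := by
  have f1 : (M ／ P).Finite := BQ.fin_contract P
  have f2 : (M✶ ／ D).Finite := BQ.fin_contract D
  have f3 : ((M ／ P)✶ ／ (D \ P)).Finite := BQ.fin_contract (M := (M ／ P)✶) (D \ P)
  have hYE : Y ⊆ M.E := fun z hz => (hB.sub hz).1
  have hPD : P ⊆ D := fun z hz => hDX ⟨hP hz, Set.disjoint_left.1 hPX hz⟩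
  have hcX : M.E \ D ⊆ X := fun z hz => by
    by_contra h
    exact hz.2 (hDX ⟨hz.1, h⟩)
  have hY2 : Y ⊆ (M ／ P).E \ (D \ P) := fun z hz =>
    ⟨⟨hYE hz, fun h => Set.disjoint_left.1 hYD hz (hPD h)⟩,
      fun h => Set.disjoint_left.1 hYD hz h.1⟩
  refine Bic_of_rk hB (M := (M ／ P)✶ ／ (D \ P)) hY2 ?_
  intro A hA
  have hAE : A ⊆ M.E := hA.trans hYE
  have hAD : Disjoint A D := hYD.mono_left hA
  have hrk : ∀ Z ⊆ X, rk (M ／ P) Z = rk M Z := by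
    intro Z hZ
    have h1 := BQ.rk_con (M := M) (C := P) (X := Z) hP
      (fun z hz => ⟨hX (hZ hz), fun h => Set.disjoint_left.1 hPX h (hZ hz)⟩)
    have h2 := hsk Z hZ
    omega
  -- the two dual ranks
  have g1 := BQ.rk_con (M := M✶) (C := D) (X := A) hD
    (fun z hz => ⟨hAE hz, Set.disjoint_left.1 hAD hz⟩)
  have hDP : D \ P ⊆ (M ／ P).E := fun z hz => ⟨hD hz.1, hz.2⟩
  have hAP : A ⊆ (M ／ P).E \ (D \ P) := hA.trans hY2
  have g2 := BQ.rk_con (M := (M ／ P)✶) (C := D \ P) (X := A) hDP hAP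
  have d1 := rk_dual (M := M) (X := A ∪ D) (union_subset hAE hD)
  have d2 := rk_dual (M := M) (X := D) hD
  have d3 := rk_dual (M := M ／ P) (X := A ∪ (D \ P))
    (union_subset (fun z hz => (hAP hz).1) hDP)
  have d4 := rk_dual (M := M ／ P) (X := D \ P) hDP
  have s1 : (M ／ P).E \ (A ∪ (D \ P)) = M.E \ (A ∪ D) := by
    ext z
    simp only [Matroid.contract_ground, mem_sdiff, mem_union, not_or]
    constructor
    · rintro ⟨⟨h1, h2⟩, h3, h4⟩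
      exact ⟨h1, h3, fun h => h4 ⟨h, h2⟩⟩
    · rintro ⟨h1, h2, h3⟩
      exact ⟨⟨h1, fun h => h3 (hPD h)⟩, h2, fun h => h3 h.1⟩
  have s2 : (M ／ P).E \ (D \ P) = M.E \ D := by
    ext z
    simp only [Matroid.contract_ground, mem_sdiff]
    constructor
    · rintro ⟨⟨h1, h2⟩, h4⟩
      exact ⟨h1, fun h => h4 ⟨h, h2⟩⟩
    · rintro ⟨h1, h3⟩
      exact ⟨⟨h1, fun h => h3 (hPD h)⟩, fun h => h3 h.1⟩
  rw [s1, hrk _ ((sdiff_subset_sdiff_right subset_union_right).trans hcX)] at d3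
  rw [s2, hrk _ hcX] at d4
  have n1 : (A ∪ D).ncard = A.ncard + D.ncard :=
    ncard_union_eq hAD (M.ground_finite.subset hAE) (M.ground_finite.subset hD)
  have n2 : (A ∪ (D \ P)).ncard = A.ncard + (D \ P).ncard :=
    ncard_union_eq (hAD.mono_right sdiff_subset) (M.ground_finite.subset hAE)
      (M.ground_finite.subset (sdiff_subset.trans hD))
  omega

/-- **Theorem LOC.** -/
theorem thmLoc (k : ℕ) (hk : 1 ≤ k) : ∃ K m₀ : ℕ, ∀ x : ℕ, ∃ n₀ : ℕ, ∀ n m : ℕ, n₀ ≤ n → m₀ ≤ m →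
    ∀ {α : Type u} (M : Matroid α) [M.Finite] (E₁ X Y C₁ D₂ : Set α)
    (e₁ e₂ : α → Sym2 (ℕ × ℕ)) (x₁ y₁ x₂ y₂ : ℕ), E₁ ⊆ M.E → X ⊆ M.E → Y ⊆ X → Disjoint E₁ Y →
    C₁ ⊆ M.E \ E₁ → D₂ ⊆ M.E \ Y → M.E \ X ⊆ D₂ → Bic (M ／ C₁) E₁ e₁ → Grd E₁ e₁ x₁ y₁ n n →
    Bic (M✶ ／ D₂) Y e₂ → Grd Y e₂ x₂ y₂ m m → rk M X ≤ x →
    KGe M E₁ Y K → HasUniformMinor M k := by
  obtain ⟨κ₀, hSP⟩ := thmSP.{u} k hk
  obtain ⟨KB, y₀, hBq⟩ := thmBq.{u} k hk
  set K := KB + (κ₀ + 32 * (κ₀ + 1) ^ 2 + 1) with hKdef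
  obtain ⟨s₀, hs₀⟩ := hSP K
  refine ⟨K, s₀ + y₀ + 2, ?_⟩
  intro x
  obtain ⟨nB, hnB⟩ := hBq x
  refine ⟨nB + s₀ + y₀ + 4 * (K + 1) + 1, ?_⟩
  intro n m hn hm α M _ E₁ X Y C₁ D₂ e₁ e₂ x₁ y₁ x₂ y₂ hE₁ hX hYX hYd hC₁ hD₂ hXD hB₁ hG₁ hB₂ hG₂
    hx hK
  set s := s₀ + y₀ + 4 * (K + 1) + 1 with hs
  have hC₁E : C₁ ⊆ M.E := hC₁.trans sdiff_subset
  have hD₂E : D₂ ⊆ M.E := hD₂.trans sdiff_subset
  have hYE : Y ⊆ M.E := hYX.trans hX
  have hrec1 : rect x₁ y₁ s s ⊆ rect x₁ y₁ n n :=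
    rect_sub (le_refl _) (by omega) (le_refl _) (by omega)
  have fin1 : (M ／ C₁).Finite := BQ.fin_contract C₁
  obtain ⟨P, hPC, hPX, hsk, hspan⟩ := exists_skew M hC₁E hX
  have hPE : P ⊆ M.E \ (E₁ ∪ Y) := by
    intro z hz
    refine ⟨hC₁E (hPC hz), ?_⟩
    rintro (hz3 | hz3)
    · exact (hC₁ (hPC hz)).2 hz3
    · exact Set.disjoint_left.1 hPX hz (hYX hz3)
  -- the structures in every stage
  have stage : ∀ P' ⊆ P, (M ／ P').Finite ∧ E₁ ⊆ (M ／ P').E ∧ Y ⊆ (M ／ P').E ∧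
      C₁ \ P' ⊆ (M ／ P').E \ E₁ ∧ D₂ \ P' ⊆ (M ／ P').E \ Y ∧
      Bic (M ／ P' ／ (C₁ \ P')) E₁ e₁ ∧ Bic ((M ／ P')✶ ／ (D₂ \ P')) Y e₂ := by
    intro P' hP'
    have hP'C : P' ⊆ C₁ := hP'.trans hPC
    have fin2 : (M ／ P').Finite := BQ.fin_contract P'
    have c1 : M ／ P' ／ (C₁ \ P') = M ／ C₁ := by
      rw [Matroid.contract_contract, union_sdiff_self, union_eq_self_of_subset_left hP'C]
    have hE₁P : E₁ ⊆ (M ／ P').E := fun z hz => ⟨hE₁ hz, fun h => (hC₁ (hP'C h)).2 hz⟩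
    have hYP : Y ⊆ (M ／ P').E := fun z hz => ⟨hYE hz, fun h => (hPE (hP' h)).2 (Or.inr hz)⟩
    refine ⟨fin2, hE₁P, hYP, ?_, ?_, ?_, ?_⟩
    · rintro z ⟨hz1, hz2⟩
      exact ⟨⟨hC₁E hz1, hz2⟩, (hC₁ hz1).2⟩
    · rintro z ⟨hz1, hz2⟩
      exact ⟨⟨hD₂E hz1, hz2⟩, (hD₂ hz1).2⟩
    · rw [c1]; exact hB₁
    · exact bic_skew hX (hP'C.trans hC₁E) (hPX.mono_left hP') (fun A hA => hsk P' hP' A hA) hD₂E hXD
        (Set.disjoint_left.2 fun z hz hz2 => (hD₂ hz2).2 hz) hB₂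
  rcases cont hE₁ hYE hYd hPE hK with ⟨P', hP', ka, kb⟩ | ka
  · -- the connectivity hits `K`
    obtain ⟨fin2, s1, s2, s3, s4, s5, s6⟩ := stage P' hP'
    set R := blk E₁ e₁ x₁ y₁ s with hR
    have hRE₁ : R ⊆ E₁ := blk_sub
    refine hum_mono (M' := M ／ P') ?_ (hs₀ s (by omega) m (by omega) (M ／ P') R Y (C₁ \ P')
      (D₂ \ P') (hRE₁.trans s1) s2 (hYd.mono_left hRE₁) ?_ s4 ?_ ?_ ?_ ?_)
    · have := Matroid.contract_delete_isMinor M P' ∅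
      rwa [Matroid.delete_empty] at this
    · exact fun z hz => ⟨(s3 hz).1, fun h => (s3 hz).2 (hRE₁ h)⟩
    · exact Grd.toPGrid (by omega) (Bic_sub s5 hRE₁) (Grd_sub hG₁ hrec1)
    · exact Grd.toPGrid (by omega) s6 hG₂
    · refine BQ.KGe.mono_n (BQ.kge_blk (t := κ₀) s3 s1 hYd s5 hG₁ hrec1 (by omega)
        (BQ.KGe.mono_n ka (by omega))) (by omega)
    · intro hcon
      exact kb (BQ.KGe.mono_left hcon hRE₁)
  · -- bounded defect
    obtain ⟨fin2, s1, s2, s3, s4, s5, s6⟩ := stage P (subset_refl _)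
    refine hum_mono (M' := M ／ P) ?_ (hnB n m (by omega) (by omega) (M ／ P) E₁ Y (C₁ \ P)
      (D₂ \ P) e₁ e₂ x₁ y₁ x₂ y₂ s1 s2 hYd s3 s4 s5 hG₁ s6 hG₂ ?_ (BQ.KGe.mono_n ka (by omega)))
    · have := Matroid.contract_delete_isMinor M P ∅
      rwa [Matroid.delete_empty] at this
    · have c1 : M ／ P ／ (C₁ \ P) = M ／ C₁ := by
        rw [Matroid.contract_contract, union_sdiff_self, union_eq_self_of_subset_left hPC]
      rw [c1]
      have r1 := BQ.rk_con (M := M) (C := P) (X := E₁) (hPC.trans hC₁E)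
        (fun z hz => ⟨hE₁ hz, fun h => (hC₁ (hPC h)).2 hz⟩)
      have r2 := BQ.rk_con (M := M) (C := C₁) (X := E₁) hC₁E
        (fun z hz => ⟨hE₁ hz, fun h => (hC₁ h).2 hz⟩)
      have r3 : rk M (E₁ ∪ P) ≤ rk M (E₁ ∪ C₁) := rk_mono M (union_subset_union_right _ hPC)
      have r4 : rk M C₁ ≤ rk M (X ∪ C₁) := rk_mono M subset_union_right
      omega

end BICS
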