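import Pool.Agent.Helper77.G.Asm

/-!
# Scattered version of Lemma Q: the regions of a thin snake are unbalanced only for some conditions
(helper77)
-/

open Set BIC
open scoped Matroid

namespace C1Q

variable {α : Type*} {S : Set α} {ends : α → Sym2 ℕ} {el : ℕ → α}

/-- A snake with `n + 1` rung sections of width `q` (the section `t` occupies the positions
`[a t, a t + 2 q)`). -/
structure Secs (S : Set α) (ends : α → Sym2 ℕ) (el : ℕ → α) (rg : ℕ → ℕ → α)
    (a : ℕ → ℕ) (q n L : ℕ) : Prop where
  snake : Snake S ends el L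
  rungs : ∀ t ≤ n, Rungs S ends (rg t) (a t) q
  top : ∀ t ≤ n, a t + 2 * q ≤ L
  gap : ∀ t < n, a t + 2 * q + 1 < a (t + 1)

/-- The region between the sections `t` and `t + 1`. -/
def reg (S : Set α) (ends : α → Sym2 ℕ) (a : ℕ → ℕ) (q t : ℕ) : Set α :=
  ins S ends (Ico (a t + 2 * q) (a (t + 1)))

variable {ι : Type*} [Fintype ι]

/-- Passing a region. -/
lemma pass {bal : ι → Set α → Prop} (hbal : ∀ i, Bal S ends (bal i)) {L : ℕ}
    (hs : Snake S ends el L) {R R' : ℕ → α} {a a' q : ℕ}
    (hR : Rungs S ends R a q) (hR' : Rungs S ends R' a' q) (hL : a' + 2 * q ≤ L)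
    {c : Set α} (hc : Ctx S ends el c a q)
    {E E' : Finset ℕ} (hE : ∀ j ∈ E, j < q) (hE' : ∀ j ∈ E', j < q)
    (hcl : ∀ i, bal i (T el R a q (P el a (a + q)) E) ∨
      Gen (fun F => bal i (T el R a q (P el a (a + q)) F)) E)
    (hEc : (Fintype.card ι + 1) * (Fintype.card ι + 1) ≤ E.card) (hEc' : 1 < E'.card)
    (haa : a + 2 * q + 1 < a') :
    ∃ c', Ctx S ends el c' a' q ∧ ∀ l, bal l (T el R' a' q c' E') →
      bal l (T el R a q c E) := by
  classical
  have hEs' : ∀ i ∈ (E' : Set ℕ), i < q := fun i hi => hE' i (Finset.mem_coe.1 hi)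
  obtain ⟨j₁, hj₁, j₂, hj₂, hne⟩ := Finset.one_lt_card.1 hEc'
  set z₀ := a + 2 * q with hz₀
  have hr : Route S ends z₀ (el z₀) (a + 2 * q) a' :=
    ⟨hs.mem _ (by omega), z₀, z₀ + 1, hs.en _ (by omega), by omega, by omega, by omega, by omega⟩
  obtain ⟨F, hFE, hFc, hFi⟩ := indep_set
    (r := fun j y => ∃ l, ¬ bal l (T el R a q c E) ∧ bal l (T el R a q c {j, y}))
    (by
      rintro x y ⟨l, h1, h2⟩
      refine ⟨l, h1, ?_⟩
      rwa [Set.pair_comm])
    (Fintype.card ι) (Fintype.card ι + 1) E
    (fun x hx F hF h => deg hbal hs hR (by omega) hc hE hcl hx F hF h) hEc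
  have hgood : ∃ j ∈ F, ∀ l, ¬ bal l (T el R a q c E) →
      ¬ bal l (T el R' a' q (nc el R a a' q c j z₀ (el z₀)) E') := by
    by_contra hcon
    push Not at hcon
    obtain ⟨j₀, hj₀⟩ : F.Nonempty := by rw [← Finset.card_pos]; omega
    obtain ⟨i₀, _⟩ := hcon j₀ hj₀
    have : Inhabited ι := ⟨i₀⟩
    have hch : ∀ y, ∃ l : ι, y ∈ F → ¬ bal l (T el R a q c E) ∧
        bal l (T el R' a' q (nc el R a a' q c y z₀ (el z₀)) E') := by
      intro y
      by_cases hy : y ∈ F
      · obtain ⟨l, hl⟩ := hcon y hy
        exact ⟨l, fun _ => hl⟩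
      · exact ⟨i₀, fun h => absurd h hy⟩
    choose f hf using hch
    have hle : F.card ≤ (Finset.univ : Finset ι).card := by
      refine Finset.card_le_card_of_injOn f (fun _ _ => Finset.mem_coe.2 (Finset.mem_univ _)) ?_
      intro y hy y' hy' he
      have hy1 := Finset.mem_coe.1 hy
      have hy1' := Finset.mem_coe.1 hy'
      by_contra hne'
      obtain ⟨g1, g2⟩ := hf y hy1
      obtain ⟨g3, g4⟩ := hf y' hy1'
      rw [← he] at g3 g4
      have := atmost (hbal _) hs hR hR' hL hc hEs' (Finset.mem_coe.2 hj₁) (Finset.mem_coe.2 hj₂)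
        hne (hE _ (hFE hy1)) (hE _ (hFE hy1')) hr g2 g4
      exact hFi y hy1 y' hy1' hne' ⟨_, g1, this⟩
    rw [Finset.card_univ] at hle
    omega
  obtain ⟨j, hjF, hj⟩ := hgood
  refine ⟨nc el R a a' q c j z₀ (el z₀), nc_sdr hs hR hL hc (hE _ (hFE hjF)) hr, ?_⟩
  intro l hl
  by_contra hnl
  exact hj l hnl hl

theorem lemmaQs {rg : ℕ → ℕ → α} {a : ℕ → ℕ} {q n L : ℕ} (hn : 1 ≤ n)
    (hq : Q0 (Fintype.card ι) ≤ q) (hB : Secs S ends el rg a q n L) (hfin : S.Finite)
    (bal : ι → Set α → Prop) (hbal : ∀ i, Bal S ends (bal i))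
    (hun : ∀ i, ∃ G : Finset ℕ, G ⊆ Finset.Ico 1 n ∧ Fintype.card ι ≤ G.card ∧
      ∀ t ∈ G, ¬ bal i (reg S ends a q t)) :
    Concl S ends bal L := by
  classical
  set m := Fintype.card ι with hm
  have hs := hB.snake
  have hR : ∀ t, t ≤ n → Rungs S ends (rg t) (a t) q := hB.rungs
  have hLt : ∀ t, t ≤ n → a t + 2 * q ≤ L := hB.top
  -- cleaning
  have hclean : ∀ t, ∃ E : Finset ℕ, t ≤ n → (∀ j ∈ E, j < q) ∧ E.card = gQ m ∧
      ∀ i, bal i (T el (rg t) (a t) q (P el (a t) (a t + q)) E) ∨
        Gen (fun F => bal i (T el (rg t) (a t) q (P el (a t) (a t + q)) F)) E := by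
    intro t
    by_cases ht : t ≤ n
    swap
    · exact ⟨∅, fun h => absurd h ht⟩
    obtain ⟨E, hE, hEc, hEi⟩ := clean
      (fun i F => (∀ j ∈ F, j < q) ∧ bal i (T el (rg t) (a t) q (P el (a t) (a t + q)) (F : Set ℕ)))
      (by
        rintro i F F' hFF ⟨h1, h2⟩
        exact ⟨fun j hj => h1 j (hFF hj), (hbal i).mono _ _ (T_mono Subset.rfl
          (Finset.coe_subset.2 hFF)) h2⟩)
      (by
        rintro i F F' x hx y hy hxy ⟨h1, h2⟩ ⟨h3, h4⟩
        refine ⟨fun j hj => ?_, ?_⟩
        · rcases Finset.mem_union.1 hj with h | h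
          · exact h1 j h
          · exact h3 j h
        · have hx' : x ∈ (F : Set ℕ) ∩ (F' : Set ℕ) := by
            rw [← Finset.coe_inter]; exact Finset.mem_coe.2 hx
          have hy' : y ∈ (F : Set ℕ) ∩ (F' : Set ℕ) := by
            rw [← Finset.coe_inter]; exact Finset.mem_coe.2 hy
          have := rungs_mod (hbal i) hs (hR t ht) (hLt t ht)
            (fun j hj => h1 j (Finset.mem_coe.1 hj)) (fun j hj => h3 j (Finset.mem_coe.1 hj))
            hx' hy' hxy h2 h4
          rwa [← Finset.coe_union] at this)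
      (gQ m) Finset.univ (Finset.range q) (by
        rw [Finset.card_univ, Finset.card_range, ← hm]
        unfold Q0 at hq
        omega)
    have hEq : ∀ j ∈ E, j < q := fun j hj => Finset.mem_range.1 (hE hj)
    refine ⟨E, fun _ => ⟨hEq, hEc, fun i => ?_⟩⟩
    rcases hEi i (Finset.mem_univ _) with h | h
    · exact Or.inl h.2
    · right
      intro x hx y hy z hz h1 h2 h3 h4
      refine h x hx y hy z hz h1 h2 h3 ⟨?_, h4⟩
      intro j hj
      simp only [Finset.mem_insert, Finset.mem_singleton] at hj
      rcases hj with rfl | rfl | rfl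
      · exact hEq _ hx
      · exact hEq _ hy
      · exact hEq _ hz
  choose E hE using hclean
  have hq2 : 2 ≤ q := by unfold Q0 at hq; omega
  have hg1 : m + 1 < gQ m := by
    unfold gQ
    have : (m + 1) * 1 ≤ (m + 1) * (m + 1) := Nat.mul_le_mul_left _ (by omega)
    omega
  have hg2 : (m + 1) * (m + 1) ≤ gQ m := by unfold gQ; omega
  -- main induction
  have main : ∀ r t, t + r = n → ∀ c, Ctx S ends el c (a t) q →
      (∀ i, bal i (T el (rg t) (a t) q c (E t)) →
        (Finset.univ.filter (fun i => bal i (T el (rg t) (a t) q c (E t)))).card ≤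
          ((Finset.Ico t n).filter (fun s => ¬ bal i (reg S ends a q s))).card) →
      Concl S ends bal L := by
    intro r
    induction r with
    | zero =>
      intro t ht c hc hA
      obtain ⟨e1, e2, e3⟩ := hE t (by omega)
      refine finish hbal hs (hR t (by omega)) (hLt t (by omega)) hc e1 e3
        (by rw [e2, ← hm]; exact hg1) ?_
      intro i hi
      have h1 := hA i hi
      have h2 : i ∈ Finset.univ.filter (fun i => bal i (T el (rg t) (a t) q c (E t))) :=
        Finset.mem_filter.2 ⟨Finset.mem_univ _, hi⟩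
      have h3 := Finset.card_pos.2 ⟨i, h2⟩
      have h4 : Finset.Ico t n = ∅ := Finset.Ico_eq_empty (by omega)
      rw [h4, Finset.filter_empty, Finset.card_empty] at h1
      omega
    | succ r ih =>
      intro t ht c hc hA
      obtain ⟨e1, e2, e3⟩ := hE t (by omega)
      obtain ⟨e1', e2', e3'⟩ := hE (t + 1) (by omega)
      have hgap := hB.gap t (by omega)
      have hIco : Finset.Ico t n = insert t (Finset.Ico (t + 1) n) := by
        ext x; simp only [Finset.mem_insert, Finset.mem_Ico]; omega
      have htn : t ∉ Finset.Ico (t + 1) n := by simp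
      by_cases hex : ∃ i, bal i (T el (rg t) (a t) q c (E t)) ∧ ¬ bal i (reg S ends a q t)
      · obtain ⟨i, hi, hui⟩ := hex
        obtain ⟨c', hc', hl⟩ : ∃ c', Ctx S ends el c' (a (t + 1)) q ∧
            ∀ l, bal l (T el (rg (t + 1)) (a (t + 1)) q c' (E (t + 1))) →
              bal l (T el (rg t) (a t) q c (E t)) ∧ l ≠ i := by
          -- as in `step`, only the region of `i` is used
          have hEs : ∀ i ∈ (E t : Set ℕ), i < q := fun i hi => e1 i (Finset.mem_coe.1 hi)
          have hEs' : ∀ i ∈ (E (t + 1) : Set ℕ), i < q := fun i hi => e1' i (Finset.mem_coe.1 hi)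
          obtain ⟨j₁, hj₁, j₂, hj₂, hne⟩ := Finset.one_lt_card.1
            (show 1 < (E (t + 1)).card by rw [e2']; omega)
          obtain ⟨F, hFE, hFc, hFi⟩ := indep_set
            (r := fun j y => ∃ l, ¬ bal l (T el (rg t) (a t) q c (E t)) ∧
              bal l (T el (rg t) (a t) q c {j, y}))
            (by
              rintro x y ⟨l, h1, h2⟩
              refine ⟨l, h1, ?_⟩
              rwa [Set.pair_comm])
            (Fintype.card ι) (Fintype.card ι + 1) (E t)
            (fun x hx F hF h => deg hbal hs (hR t (by omega)) (hLt t (by omega)) hc e1 e3 hx F hF h)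
            (by rw [e2, ← hm]; exact hg2)
          have hFne : F.Nonempty := by rw [← Finset.card_pos]; omega
          obtain ⟨j₀, hj₀⟩ := hFne
          obtain ⟨z, e, hr, hz⟩ := exists_route (hbal i) hs (hR t (by omega)) (hR (t + 1) (by omega))
            (hLt (t + 1) (by omega)) hc hEs' (Finset.mem_coe.2 hj₁)
            (Finset.mem_coe.2 hj₂) hne (e1 _ (hFE hj₀)) hgap
            (hfin.subset (fun x hx => hx.1)) hui
          have hall : ∀ j ∈ E t,
              ¬ bal i (T el (rg (t + 1)) (a (t + 1)) q (nc el (rg t) (a t) (a (t + 1)) q c j z e)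
                (E (t + 1))) := by
            intro j hj hb
            exact hz (indep_rung (hbal i) hs (hR t (by omega)) (hR (t + 1) (by omega))
              (hLt (t + 1) (by omega)) hc hEs hEs' ⟨j₁, Finset.mem_coe.2 hj₁⟩
              (Finset.mem_coe.2 hj) (Finset.mem_coe.2 (hFE hj₀)) hr hi hb)
          have hgood : ∃ j ∈ F, ∀ l, ¬ bal l (T el (rg t) (a t) q c (E t)) →
              ¬ bal l (T el (rg (t + 1)) (a (t + 1)) q (nc el (rg t) (a t) (a (t + 1)) q c j z e)
                (E (t + 1))) := by
            by_contra hcon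
            push Not at hcon
            have : Inhabited ι := ⟨i⟩
            have hch : ∀ y, ∃ l : ι, y ∈ F → ¬ bal l (T el (rg t) (a t) q c (E t)) ∧
                bal l (T el (rg (t + 1)) (a (t + 1)) q
                  (nc el (rg t) (a t) (a (t + 1)) q c y z e) (E (t + 1))) := by
              intro y
              by_cases hy : y ∈ F
              · obtain ⟨l, hl⟩ := hcon y hy
                exact ⟨l, fun _ => hl⟩
              · exact ⟨i, fun h => absurd h hy⟩
            choose f hf using hch
            have hle : F.card ≤ (Finset.univ : Finset ι).card := by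
              refine Finset.card_le_card_of_injOn f
                (fun _ _ => Finset.mem_coe.2 (Finset.mem_univ _)) ?_
              intro y hy y' hy' he
              have hy1 := Finset.mem_coe.1 hy
              have hy1' := Finset.mem_coe.1 hy'
              by_contra hne'
              obtain ⟨g1, g2⟩ := hf y hy1
              obtain ⟨g3, g4⟩ := hf y' hy1'
              rw [← he] at g3 g4
              have := atmost (hbal _) hs (hR t (by omega)) (hR (t + 1) (by omega))
                (hLt (t + 1) (by omega)) hc hEs' (Finset.mem_coe.2 hj₁) (Finset.mem_coe.2 hj₂)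
                hne (e1 _ (hFE hy1)) (e1 _ (hFE hy1')) hr g2 g4
              exact hFi y hy1 y' hy1' hne' ⟨_, g1, this⟩
            rw [Finset.card_univ] at hle
            omega
          obtain ⟨j, hjF, hj⟩ := hgood
          refine ⟨nc el (rg t) (a t) (a (t + 1)) q c j z e, nc_sdr hs (hR t (by omega))
            (hLt (t + 1) (by omega)) hc (e1 _ (hFE hjF)) hr, ?_⟩
          intro l hl
          refine ⟨?_, ?_⟩
          · by_contra hnl
            exact hj l hnl hl
          · rintro rfl
            exact hall j (hFE hjF) hl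
        refine ih (t + 1) (by omega) c' hc' ?_
        intro l hl1
        have hsub : (Finset.univ.filter
            (fun l => bal l (T el (rg (t + 1)) (a (t + 1)) q c' (E (t + 1))))) ⊆
            (Finset.univ.filter
              (fun l => bal l (T el (rg t) (a t) q c (E t)))).erase i := by
          intro l hl'
          have := hl l (Finset.mem_filter.1 hl').2
          exact Finset.mem_erase.2 ⟨this.2, Finset.mem_filter.2 ⟨Finset.mem_univ _, this.1⟩⟩
        have h1 := Finset.card_le_card hsub
        have h2 : i ∈ Finset.univ.filter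
            (fun l => bal l (T el (rg t) (a t) q c (E t))) :=
          Finset.mem_filter.2 ⟨Finset.mem_univ _, hi⟩
        rw [Finset.card_erase_of_mem h2] at h1
        have h3 := hA l (hl l hl1).1
        have h4 : ((Finset.Ico t n).filter (fun s => ¬ bal l (reg S ends a q s))).card ≤
            ((Finset.Ico (t + 1) n).filter (fun s => ¬ bal l (reg S ends a q s))).card + 1 := by
          rw [hIco, Finset.filter_insert]
          by_cases hbl : ¬ bal l (reg S ends a q t)
          · rw [if_pos hbl]
            exact Finset.card_insert_le _ _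
          · rw [if_neg hbl]
            exact Nat.le_succ _
        have h5 := Finset.card_pos.2 ⟨i, h2⟩
        omega
      · push Not at hex
        obtain ⟨c', hc', hl⟩ := pass hbal hs (hR t (by omega)) (hR (t + 1) (by omega))
          (hLt (t + 1) (by omega)) hc e1 e1' e3 (by rw [e2, ← hm]; exact hg2)
          (by rw [e2']; omega) hgap
        refine ih (t + 1) (by omega) c' hc' ?_
        intro l hl1
        have hsub : (Finset.univ.filter
            (fun l => bal l (T el (rg (t + 1)) (a (t + 1)) q c' (E (t + 1))))) ⊆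
            (Finset.univ.filter
              (fun l => bal l (T el (rg t) (a t) q c (E t)))) := by
          intro l hl'
          have := hl l (Finset.mem_filter.1 hl').2
          exact Finset.mem_filter.2 ⟨Finset.mem_univ _, this⟩
        have h1 := Finset.card_le_card hsub
        have h3 := hA l (hl l hl1)
        have h4 : ((Finset.Ico t n).filter (fun s => ¬ bal l (reg S ends a q s))).card =
            ((Finset.Ico (t + 1) n).filter (fun s => ¬ bal l (reg S ends a q s))).card := by
          rw [hIco, Finset.filter_insert, if_neg]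
          exact not_not.2 (hex l (hl l hl1))
        omega
  -- the first context
  have hgap0 : a 0 + 2 * q + 1 < a 1 := hB.gap 0 (by omega)
  have hla := hLt 1 hn
  have hR0 := hR 0 (by omega)
  refine main (n - 1) 1 (by omega) (insert (rg 0 1) (P el 0 (a 1 + q))) ?_ ?_
  · refine ⟨?_, ?_, ?_⟩
    · refine SDR.rp hs (by omega) (w := a 0 + q - 1 - 1) ⟨by omega, by omega⟩
        (hR0.lo (by omega)) ?_
      rintro ⟨z, h1, h2, h3⟩
      have h4 := hs.en z (by omega)
      have h5 := hR0.en 1 (by omega)
      rw [← h3, h4, Sym2.eq_iff] at h5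
      omega
    · refine insert_subset ?_ (P_sub hs (by omega))
      exact ins_mono (Ico_subset_Ico (by omega) (by omega)) (hR0.ins (show 1 < q by omega))
    · exact fun w hw => Or.inr (P_mono (by omega) le_rfl hw)
  · intro i _
    obtain ⟨G, hG1, hG2, hG3⟩ := hun i
    have h1 : (Finset.univ.filter (fun i => bal i (T el (rg 1) (a 1) q
        (insert (rg 0 1) (P el 0 (a 1 + q))) (E 1)))).card ≤ m :=
      (Finset.card_le_card (Finset.subset_univ _)).trans (by rw [Finset.card_univ])
    have h2 : G ⊆ (Finset.Ico 1 n).filter (fun s => ¬ bal i (reg S ends a q s)) := by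
      intro t ht
      exact Finset.mem_filter.2 ⟨hG1 ht, hG3 t ht⟩
    have h3 := Finset.card_le_card h2
    omega

end C1Q
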