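import Pool.Agent.Helper34.BIC.Merge

open Set BIC

namespace C1Q

variable {α : Type*}

/-- The edge set `X` is a system of distinct incident edges for the vertex set `U`. -/
def SDR (ends : α → Sym2 ℕ) (X : Set α) (U : Set ℕ) : Prop :=
  ∃ φ : ℕ → α, BijOn φ U X ∧ ∀ v ∈ U, v ∈ ends (φ v)

/-- the path edges inside the interval `[x, y)` of positions -/
def P (el : ℕ → α) (x y : ℕ) : Set α := {e | ∃ z, x ≤ z ∧ z + 1 < y ∧ el z = e}

/-- `el` is a path through the positions `0, ..., L - 1` -/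
structure Snake (S : Set α) (ends : α → Sym2 ℕ) (el : ℕ → α) (L : ℕ) : Prop where
  mem : ∀ z, z + 1 < L → el z ∈ S
  en : ∀ z, z + 1 < L → ends (el z) = s(z, z + 1)
  nd : ∀ e ∈ S, ∀ x y, ends e = s(x, y) → x ≠ y

variable {S : Set α} {ends : α → Sym2 ℕ} {el : ℕ → α} {L : ℕ}

lemma Snake.inj (hs : Snake S ends el L) {z z' : ℕ} (hz : z + 1 < L) (hz' : z' + 1 < L)
    (h : el z = el z') : z = z' := by
  have h1 := hs.en z hz
  rw [h, hs.en z' hz', Sym2.eq_iff] at h1
  omega

lemma P_mono {x y x' y' : ℕ} (hx : x' ≤ x) (hy : y ≤ y') : P el x y ⊆ P el x' y' := by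
  rintro _ ⟨z, h1, h2, rfl⟩
  exact ⟨z, by omega, by omega, rfl⟩

lemma P_sub (hs : Snake S ends el L) {x y : ℕ} (hy : y ≤ L) :
    P el x y ⊆ ins S ends (Ico x y) := by
  rintro _ ⟨z, h1, h2, rfl⟩
  refine ⟨hs.mem z (by omega), ?_⟩
  intro v hv
  rw [hs.en z (by omega), Sym2.mem_iff] at hv
  rcases hv with rfl | rfl
  · exact ⟨h1, by omega⟩
  · exact ⟨by omega, h2⟩

lemma notMem_P (hs : Snake S ends el L) {x y v : ℕ} {f : α} (hy : y ≤ L) (hv : v ∈ ends f)
    (hn : v ∉ Ico x y) : f ∉ P el x y := fun h => hn ((P_sub hs hy h).2 v hv)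

lemma SDR.rp (hs : Snake S ends el L) {x y w : ℕ} {f : α} (hy : y ≤ L) (hw : w ∈ Ico x y)
    (hf : w ∈ ends f) (hfP : f ∉ P el x y) : SDR ends (insert f (P el x y)) (Ico x y) := by
  classical
  have hw1 := hw.1
  have hw2 := hw.2
  have key : ∀ v ∈ Ico x y, (v = w ∧ (if v = w then f else if v < w then el v else el (v - 1)) = f) ∨
      (v < w ∧ (if v = w then f else if v < w then el v else el (v - 1)) = el v) ∨
      (w < v ∧ (if v = w then f else if v < w then el v else el (v - 1)) = el (v - 1)) := by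
    intro v _
    rcases lt_trichotomy v w with h | h | h
    · right; left; exact ⟨h, by rw [if_neg (by omega), if_pos h]⟩
    · left; exact ⟨h, by rw [if_pos h]⟩
    · right; right; exact ⟨h, by rw [if_neg (by omega), if_neg (by omega)]⟩
  refine ⟨fun v => if v = w then f else if v < w then el v else el (v - 1), ⟨?_, ?_, ?_⟩, ?_⟩
  · intro v hv
    have hv1 := hv.1
    have hv2 := hv.2
    simp only
    rcases key v hv with ⟨h1, h2⟩ | ⟨h1, h2⟩ | ⟨h1, h2⟩ <;> rw [h2]
    · exact Or.inl rfl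
    · exact Or.inr ⟨v, by omega, by omega, rfl⟩
    · exact Or.inr ⟨v - 1, by omega, by omega, rfl⟩
  · intro v hv v' hv' he
    have hv1 := hv.1
    have hv2 := hv.2
    have hv1' := hv'.1
    have hv2' := hv'.2
    simp only at he
    rcases key v hv with ⟨h1, h2⟩ | ⟨h1, h2⟩ | ⟨h1, h2⟩ <;>
      rcases key v' hv' with ⟨h3, h4⟩ | ⟨h3, h4⟩ | ⟨h3, h4⟩ <;> rw [h2, h4] at he
    · omega
    · exact absurd (show f ∈ P el x y from ⟨v', by omega, by omega, he.symm⟩) hfP
    · exact absurd (show f ∈ P el x y from ⟨v' - 1, by omega, by omega, he.symm⟩) hfP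
    · exact absurd (show f ∈ P el x y from ⟨v, by omega, by omega, he⟩) hfP
    · exact hs.inj (by omega) (by omega) he
    · have := hs.inj (by omega) (by omega) he
      omega
    · exact absurd (show f ∈ P el x y from ⟨v - 1, by omega, by omega, he⟩) hfP
    · have := hs.inj (by omega) (by omega) he
      omega
    · have := hs.inj (by omega) (by omega) he
      omega
  · rintro e (rfl | ⟨z, h1, h2, rfl⟩)
    · exact ⟨w, hw, by simp⟩
    · rcases Nat.lt_or_ge z w with h | h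
      · exact ⟨z, ⟨h1, by omega⟩, by simp only; rw [if_neg (by omega), if_pos h]⟩
      · refine ⟨z + 1, ⟨by omega, h2⟩, ?_⟩
        simp only
        rw [if_neg (by omega), if_neg (by omega), Nat.add_sub_cancel]
  · intro v hv
    have hv1 := hv.1
    have hv2 := hv.2
    simp only
    rcases key v hv with ⟨h1, h2⟩ | ⟨h1, h2⟩ | ⟨h1, h2⟩ <;> rw [h2]
    · rw [h1]; exact hf
    · rw [hs.en v (by omega)]; simp
    · rw [hs.en (v - 1) (by omega), Sym2.mem_iff]; omega

lemma SDR.union {X X' : Set α} {U U' : Set ℕ} (h : SDR ends X U) (h' : SDR ends X' U')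
    (hX : Disjoint X X') (hU : Disjoint U U') : SDR ends (X ∪ X') (U ∪ U') := by
  classical
  obtain ⟨φ, hφ, hφe⟩ := h
  obtain ⟨φ', hφ', hφe'⟩ := h'
  have h1 : ∀ v ∈ U, (if v ∈ U then φ v else φ' v) = φ v := fun v hv => if_pos hv
  have h2 : ∀ v ∈ U', (if v ∈ U then φ v else φ' v) = φ' v := fun v hv =>
    if_neg (fun h => Set.disjoint_left.1 hU h hv)
  refine ⟨fun v => if v ∈ U then φ v else φ' v, ?_, ?_⟩
  · have a1 : BijOn (fun v => if v ∈ U then φ v else φ' v) U X := hφ.congr (fun v hv => (h1 v hv).symm)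
    have a2 : BijOn (fun v => if v ∈ U then φ v else φ' v) U' X' :=
      hφ'.congr (fun v hv => (h2 v hv).symm)
    refine a1.union a2 ?_
    rw [Set.injOn_union hU]
    refine ⟨a1.injOn, a2.injOn, ?_⟩
    intro v hv v' hv' he
    exact Set.disjoint_left.1 hX (a1.mapsTo hv) (he ▸ a2.mapsTo hv')
  · rintro v (hv | hv)
    · simp only; rw [h1 v hv]; exact hφe v hv
    · simp only; rw [h2 v hv]; exact hφe' v hv

lemma SDR.inc {X : Set α} {U : Set ℕ} (h : SDR ends X U) : ∀ e ∈ X, ∃ v ∈ U, v ∈ ends e := by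
  obtain ⟨φ, hφ, hφe⟩ := h
  intro e he
  obtain ⟨v, hv, rfl⟩ := hφ.surjOn he
  exact ⟨v, hv, hφe v hv⟩

/-- add a rooted path -/
lemma SDR.add (hs : Snake S ends el L) {X : Set α} {U : Set ℕ} (h : SDR ends X U)
    {x y w : ℕ} {f : α} (hy : y ≤ L) (hd : Disjoint U (Ico x y)) (hw : w ∈ Ico x y)
    (hf : w ∈ ends f) (hfP : f ∉ P el x y) (hfX : f ∉ X) :
    SDR ends (X ∪ insert f (P el x y)) (U ∪ Ico x y) := by
  refine h.union (SDR.rp hs hy hw hf hfP) ?_ hd
  rw [Set.disjoint_left]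
  rintro e heX (rfl | heP)
  · exact hfX heX
  · obtain ⟨v, hv, hve⟩ := h.inc e heX
    exact Set.disjoint_left.1 hd hv ((P_sub hs hy heP).2 v hve)

/-- `X` lives on the vertex set `U` and has full rank there. -/
def Full (S : Set α) (ends : α → Sym2 ℕ) (X : Set α) (U : Set ℕ) : Prop :=
  X ⊆ ins S ends U ∧ ∃ X₀ ⊆ X, SDR ends X₀ U

/-- Axioms for the class of balanced sets of an elementary lift. -/
structure Bal (S : Set α) (ends : α → Sym2 ℕ) (bal : Set α → Prop) : Prop where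
  mono : ∀ X Y, X ⊆ Y → bal Y → bal X
  mod : ∀ (X Y : Set α) (U U' : Set ℕ), U.Finite → U'.Finite → Full S ends X U →
    Full S ends Y U' → (∃ Z ⊆ X ∩ Y, SDR ends Z (U ∩ U')) → bal X → bal Y → bal (X ∪ Y)

lemma Full.mono {X Y : Set α} {U : Set ℕ} (h : Full S ends X U) (hXY : X ⊆ Y)
    (hY : Y ⊆ ins S ends U) : Full S ends Y U := by
  obtain ⟨_, X₀, h1, h2⟩ := h
  exact ⟨hY, X₀, h1.trans hXY, h2⟩

/-- adding many edges one by one -/
lemma Bal.closure {bal : Set α → Prop} (hb : Bal S ends bal) {X K : Set α} {U : Set ℕ}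
    (hU : U.Finite) (hX : Full S ends X U) (hK : K.Finite) (hKU : K ⊆ ins S ends U) (hbX : bal X)
    (h : ∀ e ∈ K, bal (insert e X)) : bal (X ∪ K) := by
  classical
  induction K, hK using Set.Finite.induction_on with
  | empty => rw [union_empty]; exact hbX
  | @insert e K heK hKf ih =>
    have h1 : bal (X ∪ K) := ih (fun x hx => hKU (Or.inr hx)) (fun x hx => h x (Or.inr hx))
    have h2 : bal (insert e X) := h e (Or.inl rfl)
    have heU : e ∈ ins S ends U := hKU (Or.inl rfl)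
    have hKU' : K ⊆ ins S ends U := fun x hx => hKU (Or.inr hx)
    have f1 : Full S ends (insert e X) U := hX.mono (subset_insert _ _) (insert_subset heU hX.1)
    have f2 : Full S ends (X ∪ K) U := hX.mono subset_union_left (union_subset hX.1 hKU')
    obtain ⟨_, X₀, g1, g2⟩ := hX
    have h3 := hb.mod (insert e X) (X ∪ K) U U hU hU f1 f2
      ⟨X₀, fun x hx => ⟨Or.inr (g1 hx), Or.inl (g1 hx)⟩, by rw [inter_self]; exact g2⟩ h2 h1
    refine hb.mono _ _ ?_ h3
    rintro x (hx | rfl | hx)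
    · exact Or.inl (Or.inr hx)
    · exact Or.inl (Or.inl rfl)
    · exact Or.inr (Or.inr hx)

end C1Q
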