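import Pool.Agent.Helper77.G.Sdr

open Set BIC

namespace C1Q

variable {α : Type*} {S : Set α} {ends : α → Sym2 ℕ} {el : ℕ → α} {L : ℕ}

/-- rungs between the rows `[a, a+q)` and `[a+q, a+2q)` -/
structure Rungs (S : Set α) (ends : α → Sym2 ℕ) (R : ℕ → α) (a q : ℕ) : Prop where
  mem : ∀ j < q, R j ∈ S
  en : ∀ j < q, ends (R j) = s(a + q - 1 - j, a + q + j)

/-- a context: connected unicyclic spanning subgraph of the rows up to `[a, a+q)` -/
structure Ctx (S : Set α) (ends : α → Sym2 ℕ) (el : ℕ → α) (c : Set α) (a q : ℕ) : Prop where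
  sdr : SDR ends c (Ico 0 (a + q))
  sub : c ⊆ ins S ends (Ico 0 (a + q))
  row : P el a (a + q) ⊆ c

lemma SDR.snoc (hs : Snake S ends el L) {X : Set α} {u x y w : ℕ} (h : SDR ends X (Ico u x))
    (hux : u ≤ x) {f : α} (hy : y ≤ L) (hw : w ∈ Ico x y)
    (hf : w ∈ ends f) (hfP : f ∉ P el x y) (hfX : f ∉ X) :
    SDR ends (X ∪ insert f (P el x y)) (Ico u y) := by
  have h1 := SDR.add hs h hy (by
    rw [Set.disjoint_left]
    intro v hv hv'
    exact absurd hv.2 (not_lt.2 hv'.1)) hw hf hfP hfX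
  rwa [Ico_union_Ico_eq_Ico hux (by have := hw.1; have := hw.2; omega)] at h1

lemma ne_of_end {f g : α} {v : ℕ} (h1 : v ∈ ends f) (h2 : v ∉ ends g) : f ≠ g := by
  rintro rfl; exact h2 h1

lemma notMem_ins {c : Set α} {U : Set ℕ} {f : α} {v : ℕ} (hc : c ⊆ ins S ends U) (hv : v ∈ ends f)
    (hn : v ∉ U) : f ∉ c := fun h => hn ((hc h).2 v hv)

section level

variable {R : ℕ → α} {a q : ℕ}

lemma Rungs.lo (hR : Rungs S ends R a q) {j : ℕ} (hj : j < q) : a + q - 1 - j ∈ ends (R j) := by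
  rw [hR.en j hj]; simp

lemma Rungs.hi (hR : Rungs S ends R a q) {j : ℕ} (hj : j < q) : a + q + j ∈ ends (R j) := by
  rw [hR.en j hj]; simp

lemma Rungs.ne (hR : Rungs S ends R a q) {j j' : ℕ} (hj : j < q) (hj' : j' < q) (hne : j ≠ j') :
    R j ≠ R j' := by
  intro h
  have h1 := hR.en j hj
  rw [h, hR.en j' hj', Sym2.eq_iff] at h1
  omega

lemma Rungs.ins (hR : Rungs S ends R a q) {j : ℕ} (hj : j < q) :
    R j ∈ BIC.ins S ends (Ico a (a + 2 * q)) := by
  refine ⟨hR.mem j hj, fun v hv => ?_⟩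
  rw [hR.en j hj, Sym2.mem_iff] at hv
  rcases hv with rfl | rfl <;> exact ⟨by omega, by omega⟩

/-- the graph `c`, the next row and the rungs in `E` -/
def T (el : ℕ → α) (R : ℕ → α) (a q : ℕ) (c : Set α) (E : Set ℕ) : Set α :=
  c ∪ P el (a + q) (a + 2 * q) ∪ R '' E

lemma T_mono {c c' : Set α} {E E' : Set ℕ} (hc : c ⊆ c') (hE : E ⊆ E') :
    T el R a q c E ⊆ T el R a q c' E' :=
  union_subset_union (union_subset_union_left _ hc) (image_mono hE)

lemma T_ins (hs : Snake S ends el L) (hR : Rungs S ends R a q) (hL : a + 2 * q ≤ L) {c : Set α}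
    {E : Set ℕ} {u : ℕ} (hu : u ≤ a) (hc : c ⊆ ins S ends (Ico u (a + q))) (hE : ∀ j ∈ E, j < q) :
    T el R a q c E ⊆ ins S ends (Ico u (a + 2 * q)) := by
  refine union_subset (union_subset ?_ ?_) ?_
  · exact hc.trans (ins_mono (Ico_subset_Ico_right (by omega)))
  · exact (P_sub hs hL).trans (ins_mono (Ico_subset_Ico_left (by omega)))
  · rintro _ ⟨j, hj, rfl⟩
    exact ins_mono (Ico_subset_Ico_left hu) (hR.ins (hE j hj))

/-- a context with one rung and the next row -/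
lemma sdr1 (hs : Snake S ends el L) (hR : Rungs S ends R a q) (hL : a + 2 * q ≤ L) {c : Set α}
    (hc : Ctx S ends el c a q) {j : ℕ} (hj : j < q) :
    SDR ends (c ∪ insert (R j) (P el (a + q) (a + 2 * q))) (Ico 0 (a + 2 * q)) := by
  refine SDR.snoc hs hc.sdr (by omega) hL (w := a + q + j) ⟨by omega, by omega⟩ (hR.hi hj) ?_ ?_
  · exact notMem_P hs hL (hR.lo hj) (fun h => by have := h.1; omega)
  · exact notMem_ins hc.sub (hR.hi hj) (fun h => by have := h.2; omega)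

/-- two rows with two rungs -/
lemma sdr2 (hs : Snake S ends el L) (hR : Rungs S ends R a q) (hL : a + 2 * q ≤ L) {j j' : ℕ}
    (hj : j < q) (hj' : j' < q) (hne : j ≠ j') :
    SDR ends (insert (R j) (P el a (a + q)) ∪ insert (R j') (P el (a + q) (a + 2 * q)))
      (Ico a (a + 2 * q)) := by
  have h1 : SDR ends (insert (R j) (P el a (a + q))) (Ico a (a + q)) :=
    SDR.rp hs (by omega) (w := a + q - 1 - j) ⟨by omega, by omega⟩ (hR.lo hj)
      (notMem_P hs (by omega) (hR.hi hj) (fun h => by have := h.2; omega))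
  refine SDR.snoc hs h1 (by omega) hL (w := a + q + j') ⟨by omega, by omega⟩ (hR.hi hj') ?_ ?_
  · exact notMem_P hs hL (hR.lo hj') (fun h => by have := h.1; omega)
  · rintro (h | h)
    · exact hR.ne hj hj' hne h.symm
    · exact notMem_P hs (by omega) (hR.hi hj') (fun h => by have := h.2; omega) h

lemma full1 (hs : Snake S ends el L) (hR : Rungs S ends R a q) (hL : a + 2 * q ≤ L) {c : Set α}
    (hc : Ctx S ends el c a q) {E : Set ℕ} (hE : ∀ j ∈ E, j < q) (hne : E.Nonempty) :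
    Full S ends (T el R a q c E) (Ico 0 (a + 2 * q)) := by
  obtain ⟨j, hj⟩ := hne
  refine ⟨T_ins hs hR hL (by omega) hc.sub hE, _, ?_, sdr1 hs hR hL hc (hE j hj)⟩
  rintro e (he | rfl | he)
  · exact Or.inl (Or.inl he)
  · exact Or.inr ⟨j, hj, rfl⟩
  · exact Or.inl (Or.inr he)

lemma sub2 {c : Set α} {E : Set ℕ} (hc : P el a (a + q) ⊆ c) {j j' : ℕ} (hj : j ∈ E)
    (hj' : j' ∈ E) :
    insert (R j) (P el a (a + q)) ∪ insert (R j') (P el (a + q) (a + 2 * q)) ⊆
      T el R a q c E := by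
  rintro e ((rfl | he) | (rfl | he))
  · exact Or.inr ⟨j, hj, rfl⟩
  · exact Or.inl (Or.inl (hc he))
  · exact Or.inr ⟨j', hj', rfl⟩
  · exact Or.inl (Or.inr he)

lemma full2 (hs : Snake S ends el L) (hR : Rungs S ends R a q) (hL : a + 2 * q ≤ L)
    {E : Set ℕ} (hE : ∀ j ∈ E, j < q) {j j' : ℕ} (hj : j ∈ E) (hj' : j' ∈ E) (hne : j ≠ j') :
    Full S ends (T el R a q (P el a (a + q)) E) (Ico a (a + 2 * q)) :=
  ⟨T_ins hs hR hL le_rfl (P_sub hs (by omega)) hE, _, sub2 Subset.rfl hj hj',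
    sdr2 hs hR hL (hE j hj) (hE j' hj') hne⟩

/-- use 1 -/
lemma pairs_flat {bal : Set α → Prop} (hb : Bal S ends bal) (hs : Snake S ends el L)
    (hR : Rungs S ends R a q) (hL : a + 2 * q ≤ L) {c : Set α} (hc : Ctx S ends el c a q)
    {E : Set ℕ} (hE : ∀ j ∈ E, j < q) {j j' : ℕ} (hj : j ∈ E) (hj' : j' ∈ E) (hne : j ≠ j')
    (hflat : bal (T el R a q (P el a (a + q)) E)) (hbad : bal (T el R a q c {j, j'})) :
    bal (T el R a q c E) := by
  have hjj : ∀ i ∈ ({j, j'} : Set ℕ), i < q := by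
    rintro i (rfl | rfl)
    · exact hE _ hj
    · exact hE _ hj'
  have h := hb.mod (T el R a q c {j, j'}) (T el R a q (P el a (a + q)) E) (Ico 0 (a + 2 * q))
    (Ico a (a + 2 * q)) (finite_Ico _ _) (finite_Ico _ _)
    (full1 hs hR hL hc hjj ⟨j, Or.inl rfl⟩) (full2 hs hR hL hE hj hj' hne)
    ⟨_, subset_inter (sub2 hc.row (Or.inl rfl) (Or.inr rfl)) (sub2 Subset.rfl hj hj'), by
      have e : Ico 0 (a + 2 * q) ∩ Ico a (a + 2 * q) = Ico a (a + 2 * q) :=
        inter_eq_self_of_subset_right (Ico_subset_Ico_left (by omega))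
      rw [e]
      exact sdr2 hs hR hL (hE j hj) (hE j' hj') hne⟩ hbad hflat
  refine hb.mono _ _ ?_ h
  rintro e ((he | he) | he)
  · exact Or.inl (Or.inl (Or.inl he))
  · exact Or.inl (Or.inl (Or.inr he))
  · exact Or.inr (Or.inr he)

/-- use 2 -/
lemma pairs_gen {bal : Set α → Prop} (hb : Bal S ends bal) (hs : Snake S ends el L)
    (hR : Rungs S ends R a q) (hL : a + 2 * q ≤ L) {c : Set α} (hc : Ctx S ends el c a q)
    {j j' j'' : ℕ} (hj : j < q) (hj' : j' < q) (hj'' : j'' < q)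
    (h1 : bal (T el R a q c {j, j'})) (h2 : bal (T el R a q c {j, j''})) :
    bal (T el R a q (P el a (a + q)) {j, j', j''}) := by
  have h := hb.mod (T el R a q c {j, j'}) (T el R a q c {j, j''}) (Ico 0 (a + 2 * q))
    (Ico 0 (a + 2 * q)) (finite_Ico _ _) (finite_Ico _ _)
    (full1 hs hR hL hc (by rintro i (rfl | rfl) <;> assumption) ⟨j, Or.inl rfl⟩)
    (full1 hs hR hL hc (by rintro i (rfl | rfl) <;> assumption) ⟨j, Or.inl rfl⟩)
    ⟨_, ?_, by rw [inter_self]; exact sdr1 hs hR hL hc hj⟩ h1 h2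
  · refine hb.mono _ _ ?_ h
    rintro e ((he | he) | ⟨i, (rfl | rfl | rfl), rfl⟩)
    · exact Or.inl (Or.inl (Or.inl (hc.row he)))
    · exact Or.inl (Or.inl (Or.inr he))
    · exact Or.inl (Or.inr ⟨_, Or.inl rfl, rfl⟩)
    · exact Or.inl (Or.inr ⟨_, Or.inr rfl, rfl⟩)
    · exact Or.inr (Or.inr ⟨_, Or.inr rfl, rfl⟩)
  · rintro e (he | rfl | he)
    · exact ⟨Or.inl (Or.inl he), Or.inl (Or.inl he)⟩
    · exact ⟨Or.inr ⟨j, Or.inl rfl, rfl⟩, Or.inr ⟨j, Or.inl rfl, rfl⟩⟩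
    · exact ⟨Or.inl (Or.inr he), Or.inl (Or.inr he)⟩

/-- closure of flat sets of rungs -/
lemma rungs_mod {bal : Set α → Prop} (hb : Bal S ends bal) (hs : Snake S ends el L)
    (hR : Rungs S ends R a q) (hL : a + 2 * q ≤ L) {E E' : Set ℕ} (hE : ∀ j ∈ E, j < q)
    (hE' : ∀ j ∈ E', j < q) {j j' : ℕ} (hj : j ∈ E ∩ E') (hj' : j' ∈ E ∩ E') (hne : j ≠ j')
    (h1 : bal (T el R a q (P el a (a + q)) E)) (h2 : bal (T el R a q (P el a (a + q)) E')) :
    bal (T el R a q (P el a (a + q)) (E ∪ E')) := by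
  have h := hb.mod _ _ (Ico a (a + 2 * q)) (Ico a (a + 2 * q)) (finite_Ico _ _) (finite_Ico _ _)
    (full2 hs hR hL hE hj.1 hj'.1 hne) (full2 hs hR hL hE' hj.2 hj'.2 hne)
    ⟨_, subset_inter (sub2 Subset.rfl hj.1 hj'.1) (sub2 Subset.rfl hj.2 hj'.2), by
      rw [inter_self]
      exact sdr2 hs hR hL (hE _ hj.1) (hE _ hj'.1) hne⟩ h1 h2
  refine hb.mono _ _ ?_ h
  rintro e ((he | he) | ⟨i, (hi | hi), rfl⟩)
  · exact Or.inl (Or.inl (Or.inl he))
  · exact Or.inl (Or.inl (Or.inr he))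
  · exact Or.inl (Or.inr ⟨i, hi, rfl⟩)
  · exact Or.inr (Or.inr ⟨i, hi, rfl⟩)

end level

section route

variable {R R' : ℕ → α} {a a' q : ℕ}

/-- a route: a cut `z | z + 1` of the snake and one edge `e` crossing it -/
structure Route (S : Set α) (ends : α → Sym2 ℕ) (z : ℕ) (e : α) (lo hi : ℕ) : Prop where
  mem : e ∈ S
  en : ∃ x y, ends e = s(x, y) ∧ lo ≤ x ∧ x ≤ z ∧ z < y ∧ y < hi

/-- the new context -/
def nc (el R : ℕ → α) (a a' q : ℕ) (c : Set α) (j z : ℕ) (e : α) : Set α :=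
  c ∪ insert (R j) (P el (a + q) (z + 1)) ∪ insert e (P el (z + 1) (a' + q))

lemma nc_sdr (hs : Snake S ends el L) (hR : Rungs S ends R a q) (hL : a' + 2 * q ≤ L)
    {c : Set α} (hc : Ctx S ends el c a q) {j z : ℕ} {e : α} (hj : j < q)
    (hr : Route S ends z e (a + 2 * q) a') : Ctx S ends el (nc el R a a' q c j z e) a' q := by
  obtain ⟨x, y, he, h1, h2, h3, h4⟩ := hr.en
  have hx : x ∈ ends e := by rw [he]; simp
  have hy : y ∈ ends e := by rw [he]; simp
  refine ⟨?_, ?_, ?_⟩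
  · have s1 := SDR.snoc hs hc.sdr (by omega) (y := z + 1) (by omega) (w := a + q + j)
      ⟨by omega, by omega⟩ (hR.hi hj)
      (notMem_P hs (by omega) (hR.lo hj) (fun h => by have := h.1; omega))
      (notMem_ins hc.sub (hR.hi hj) (fun h => by have := h.2; omega))
    refine SDR.snoc hs s1 (by omega) (by omega) (w := y) ⟨by omega, by omega⟩ hy ?_ ?_
    · exact notMem_P hs (by omega) hx (fun h => by have := h.1; omega)
    · rintro (h | h | h)
      · exact notMem_ins hc.sub hx (fun h => by have := h.2; omega) h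
      · refine ne_of_end hx ?_ h
        rw [hR.en j hj, Sym2.mem_iff]; omega
      · exact notMem_P hs (by omega) hy (fun h => by have := h.2; omega) h
  · refine union_subset (union_subset ?_ (insert_subset ?_ ?_)) (insert_subset ?_ ?_)
    · exact hc.sub.trans (ins_mono (Ico_subset_Ico_right (by omega)))
    · exact ins_mono (Ico_subset_Ico (by omega) (by omega)) (hR.ins hj)
    · exact (P_sub hs (by omega)).trans (ins_mono (Ico_subset_Ico (by omega) (by omega)))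
    · refine ⟨hr.mem, fun v hv => ?_⟩
      rw [he, Sym2.mem_iff] at hv
      rcases hv with rfl | rfl <;> exact ⟨by omega, by omega⟩
    · exact (P_sub hs (by omega)).trans (ins_mono (Ico_subset_Ico (by omega) (by omega)))
  · exact fun w hw => Or.inr (Or.inr (P_mono (by omega) le_rfl hw))

/-- SDR of: context, row, and a separate part with a cycle at the next level -/
lemma sdr5 (hs : Snake S ends el L) (hR : Rungs S ends R a q) (hR' : Rungs S ends R' a' q)
    (hL : a' + 2 * q ≤ L) {c : Set α} (hc : Ctx S ends el c a q) {j z j₁ j₂ : ℕ} (hj : j < q)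
    (hj₁ : j₁ < q) (hj₂ : j₂ < q) (hne : j₁ ≠ j₂) (hz : a + 2 * q ≤ z) (hz' : z < a') :
    SDR ends (c ∪ insert (R j) (P el (a + q) (z + 1)) ∪ insert (R' j₁) (P el (z + 1) (a' + q)) ∪
      insert (R' j₂) (P el (a' + q) (a' + 2 * q))) (Ico 0 (a' + 2 * q)) := by
  have s1 := SDR.snoc hs hc.sdr (by omega) (y := z + 1) (by omega) (w := a + q + j)
    ⟨by omega, by omega⟩ (hR.hi hj)
    (notMem_P hs (by omega) (hR.lo hj) (fun h => by have := h.1; omega))
    (notMem_ins hc.sub (hR.hi hj) (fun h => by have := h.2; omega))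
  have s2 := SDR.snoc hs s1 (by omega) (y := a' + q) (by omega) (w := a' + q - 1 - j₁)
    ⟨by omega, by omega⟩ (hR'.lo hj₁)
    (notMem_P hs (by omega) (hR'.hi hj₁) (fun h => by have := h.2; omega)) (by
      rintro (h | h | h)
      · exact notMem_ins hc.sub (hR'.hi hj₁) (fun h => by have := h.2; omega) h
      · refine ne_of_end (hR'.hi hj₁) ?_ h
        rw [hR.en j hj, Sym2.mem_iff]; omega
      · exact notMem_P hs (by omega) (hR'.hi hj₁) (fun h => by have := h.2; omega) h)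
  refine SDR.snoc hs s2 (by omega) (y := a' + 2 * q) hL (w := a' + q + j₂)
    ⟨by omega, by omega⟩ (hR'.hi hj₂)
    (notMem_P hs (by omega) (hR'.lo hj₂) (fun h => by have := h.1; omega)) ?_
  rintro ((h | h | h) | h | h)
  · exact notMem_ins hc.sub (hR'.hi hj₂) (fun h => by have := h.2; omega) h
  · refine ne_of_end (hR'.hi hj₂) ?_ h
    rw [hR.en j hj, Sym2.mem_iff]; omega
  · exact notMem_P hs (by omega) (hR'.hi hj₂) (fun h => by have := h.2; omega) h
  · exact hR'.ne hj₂ hj₁ hne.symm h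
  · exact notMem_P hs (by omega) (hR'.hi hj₂) (fun h => by have := h.2; omega) h

/-- SDR of: context alone, and a separate connected part with a cycle -/
lemma sdr4 (hs : Snake S ends el L) (hR' : Rungs S ends R' a' q)
    (hL : a' + 2 * q ≤ L) {c : Set α} (hc : Ctx S ends el c a q) {z j₁ j₂ : ℕ} {e : α}
    (hj₁ : j₁ < q) (hj₂ : j₂ < q) (hne : j₁ ≠ j₂)
    (hr : Route S ends z e (a + 2 * q) a') :
    SDR ends (c ∪ insert e (P el (a + q) (z + 1)) ∪ insert (R' j₁) (P el (z + 1) (a' + q)) ∪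
      insert (R' j₂) (P el (a' + q) (a' + 2 * q))) (Ico 0 (a' + 2 * q)) := by
  obtain ⟨x, y, he, h1, h2, h3, h4⟩ := hr.en
  have hx : x ∈ ends e := by rw [he]; simp
  have hy : y ∈ ends e := by rw [he]; simp
  have s1 := SDR.snoc hs hc.sdr (by omega) (y := z + 1) (by omega) (w := x)
    ⟨by omega, by omega⟩ hx
    (notMem_P hs (by omega) hy (fun h => by have := h.2; omega))
    (notMem_ins hc.sub hx (fun h => by have := h.2; omega))
  have s2 := SDR.snoc hs s1 (by omega) (y := a' + q) (by omega) (w := a' + q - 1 - j₁)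
    ⟨by omega, by omega⟩ (hR'.lo hj₁)
    (notMem_P hs (by omega) (hR'.hi hj₁) (fun h => by have := h.2; omega)) (by
      rintro (h | h | h)
      · exact notMem_ins hc.sub (hR'.hi hj₁) (fun h => by have := h.2; omega) h
      · refine ne_of_end (hR'.hi hj₁) ?_ h
        rw [he, Sym2.mem_iff]; omega
      · exact notMem_P hs (by omega) (hR'.hi hj₁) (fun h => by have := h.2; omega) h)
  refine SDR.snoc hs s2 (by omega) (y := a' + 2 * q) hL (w := a' + q + j₂)
    ⟨by omega, by omega⟩ (hR'.hi hj₂)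
    (notMem_P hs (by omega) (hR'.lo hj₂) (fun h => by have := h.1; omega)) ?_
  rintro ((h | h | h) | h | h)
  · exact notMem_ins hc.sub (hR'.hi hj₂) (fun h => by have := h.2; omega) h
  · refine ne_of_end (hR'.hi hj₂) ?_ h
    rw [he, Sym2.mem_iff]; omega
  · exact notMem_P hs (by omega) (hR'.hi hj₂) (fun h => by have := h.2; omega) h
  · exact hR'.ne hj₂ hj₁ hne.symm h
  · exact notMem_P hs (by omega) (hR'.hi hj₂) (fun h => by have := h.2; omega) h

/-- use 4: at most one rung makes the new context aligned -/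
lemma atmost {bal : Set α → Prop} (hb : Bal S ends bal) (hs : Snake S ends el L)
    (hR : Rungs S ends R a q) (hR' : Rungs S ends R' a' q) (hL : a' + 2 * q ≤ L)
    {c : Set α} (hc : Ctx S ends el c a q) {E' : Set ℕ} (hE' : ∀ j ∈ E', j < q)
    {j₁ j₂ : ℕ} (hj₁ : j₁ ∈ E') (hj₂ : j₂ ∈ E') (hne : j₁ ≠ j₂) {j j' z : ℕ} {e : α}
    (hj : j < q) (hj' : j' < q) (hr : Route S ends z e (a + 2 * q) a')
    (h1 : bal (T el R' a' q (nc el R a a' q c j z e) E'))
    (h2 : bal (T el R' a' q (nc el R a a' q c j' z e) E')) :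
    bal (T el R a q c {j, j'}) := by
  obtain ⟨x, y, he, g1, g2, g3, g4⟩ := hr.en
  have h := hb.mod _ _ (Ico 0 (a' + 2 * q)) (Ico 0 (a' + 2 * q)) (finite_Ico _ _) (finite_Ico _ _)
    (full1 hs hR' hL (nc_sdr hs hR hL hc hj hr) hE' ⟨j₁, hj₁⟩)
    (full1 hs hR' hL (nc_sdr hs hR hL hc hj' hr) hE' ⟨j₁, hj₁⟩)
    ⟨_, ?_, by rw [inter_self]; exact sdr4 hs hR' hL hc (hE' _ hj₁) (hE' _ hj₂) hne hr⟩ h1 h2
  · refine hb.mono _ _ ?_ h
    rintro w ((hw | hw) | ⟨i, (rfl | rfl), rfl⟩)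
    · exact Or.inl (Or.inl (Or.inl (Or.inl (Or.inl hw))))
    · exact Or.inl (Or.inl (Or.inl (Or.inl (Or.inr (Or.inr (P_mono le_rfl (by omega) hw))))))
    · exact Or.inl (Or.inl (Or.inl (Or.inl (Or.inr (Or.inl rfl)))))
    · exact Or.inr (Or.inl (Or.inl (Or.inl (Or.inr (Or.inl rfl)))))
  · have key : ∀ i, c ∪ insert e (P el (a + q) (z + 1)) ∪
        insert (R' j₁) (P el (z + 1) (a' + q)) ∪ insert (R' j₂) (P el (a' + q) (a' + 2 * q)) ⊆
        T el R' a' q (nc el R a a' q c i z e) E' := by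
      rintro i w (((hw | rfl | hw) | (rfl | hw)) | (rfl | hw))
      · exact Or.inl (Or.inl (Or.inl (Or.inl hw)))
      · exact Or.inl (Or.inl (Or.inr (Or.inl rfl)))
      · exact Or.inl (Or.inl (Or.inl (Or.inr (Or.inr hw))))
      · exact Or.inr ⟨j₁, hj₁, rfl⟩
      · exact Or.inl (Or.inl (Or.inr (Or.inr hw)))
      · exact Or.inr ⟨j₂, hj₂, rfl⟩
      · exact Or.inl (Or.inr hw)
    exact subset_inter (key j) (key j')

/-- use 3: independence of the rung when the old context is aligned -/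
lemma indep_rung {bal : Set α → Prop} (hb : Bal S ends bal) (hs : Snake S ends el L)
    (hR : Rungs S ends R a q) (hR' : Rungs S ends R' a' q) (hL : a' + 2 * q ≤ L)
    {c : Set α} (hc : Ctx S ends el c a q) {E E' : Set ℕ} (hE : ∀ j ∈ E, j < q)
    (hE' : ∀ j ∈ E', j < q) (hne' : E'.Nonempty) {j j' z : ℕ} {e : α}
    (hj : j ∈ E) (hj' : j' ∈ E) (hr : Route S ends z e (a + 2 * q) a')
    (h1 : bal (T el R a q c E))
    (h2 : bal (T el R' a' q (nc el R a a' q c j z e) E')) :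
    bal (T el R' a' q (nc el R a a' q c j' z e) E') := by
  obtain ⟨x, y, he, g1, g2, g3, g4⟩ := hr.en
  have h := hb.mod _ _ (Ico 0 (a' + 2 * q)) (Ico 0 (a + 2 * q)) (finite_Ico _ _) (finite_Ico _ _)
    (full1 hs hR' hL (nc_sdr hs hR hL hc (hE _ hj) hr) hE' hne')
    (full1 hs hR (by omega) hc hE ⟨j, hj⟩)
    ⟨c ∪ insert (R j) (P el (a + q) (a + 2 * q)), ?_, ?_⟩ h2 h1
  · refine hb.mono _ _ ?_ h
    rintro w ((((hw | rfl | hw) | (rfl | hw)) | hw) | hw)
    · exact Or.inl (Or.inl (Or.inl (Or.inl (Or.inl hw))))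
    · exact Or.inr (Or.inr ⟨j', hj', rfl⟩)
    · exact Or.inl (Or.inl (Or.inl (Or.inl (Or.inr (Or.inr hw)))))
    · exact Or.inl (Or.inl (Or.inl (Or.inr (Or.inl rfl))))
    · exact Or.inl (Or.inl (Or.inl (Or.inr (Or.inr hw))))
    · exact Or.inl (Or.inl (Or.inr hw))
    · exact Or.inl (Or.inr hw)
  · rintro w (hw | rfl | hw)
    · exact ⟨Or.inl (Or.inl (Or.inl (Or.inl hw))), Or.inl (Or.inl hw)⟩
    · exact ⟨Or.inl (Or.inl (Or.inl (Or.inr (Or.inl rfl)))), Or.inr ⟨j, hj, rfl⟩⟩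
    · exact ⟨Or.inl (Or.inl (Or.inl (Or.inr (Or.inr (P_mono le_rfl (by omega) hw))))),
        Or.inl (Or.inr hw)⟩
  · rw [inter_eq_self_of_subset_right (Ico_subset_Ico_right (by omega))]
    exact sdr1 hs hR (by omega) hc (hE _ hj)

/-- existence of a good route -/
lemma exists_route {bal : Set α → Prop} (hb : Bal S ends bal) (hs : Snake S ends el L)
    (hR : Rungs S ends R a q) (hR' : Rungs S ends R' a' q) (hL : a' + 2 * q ≤ L)
    {c : Set α} (hc : Ctx S ends el c a q) {E' : Set ℕ} (hE' : ∀ j ∈ E', j < q)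
    {j₁ j₂ : ℕ} (hj₁ : j₁ ∈ E') (hj₂ : j₂ ∈ E') (hne : j₁ ≠ j₂) {j : ℕ} (hj : j < q)
    (haa : a + 2 * q + 1 < a') (hfin : (ins S ends (Ico (a + 2 * q) a')).Finite)
    (hun : ¬ bal (ins S ends (Ico (a + 2 * q) a'))) :
    ∃ z e, Route S ends z e (a + 2 * q) a' ∧
      ¬ bal (T el R' a' q (nc el R a a' q c j z e) E') := by
  by_contra hcon
  push Not at hcon
  set z₀ := a + 2 * q with hz₀
  have r0 : Route S ends z₀ (el z₀) (a + 2 * q) a' :=
    ⟨hs.mem _ (by omega), z₀, z₀ + 1, hs.en _ (by omega), by omega, by omega, by omega, by omega⟩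
  have b0 := hcon z₀ (el z₀) r0
  set X₁ := T el R' a' q (nc el R a a' q c j z₀ (el z₀)) E' with hX₁
  have f0 : Full S ends X₁ (Ico 0 (a' + 2 * q)) :=
    full1 hs hR' hL (nc_sdr hs hR hL hc hj r0) hE' ⟨j₁, hj₁⟩
  apply hun
  have hKsub : ins S ends (Ico z₀ a') ⊆ ins S ends (Ico 0 (a' + 2 * q)) :=
    ins_mono (Ico_subset_Ico (by omega) (by omega))
  refine hb.mono _ _ subset_union_right (hb.closure (finite_Ico _ _) f0 hfin hKsub b0 ?_)
  intro e he
  -- the ends of `e`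
  obtain ⟨x, y, hxy, hlt⟩ : ∃ x y, ends e = s(x, y) ∧ x < y := by
    induction hh : ends e with
    | _ u v =>
      rcases lt_trichotomy u v with h | h | h
      · exact ⟨u, v, rfl, h⟩
      · exact absurd h (hs.nd e he.1 u v hh)
      · exact ⟨v, u, Sym2.eq_swap, h⟩
  have hx := he.2 x (by rw [hxy]; simp)
  have hy := he.2 y (by rw [hxy]; simp)
  have hx1 := hx.1
  have hy2 := hy.2
  have r1 : Route S ends x e (a + 2 * q) a' :=
    ⟨he.1, x, y, hxy, by omega, le_rfl, hlt, by omega⟩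
  have b1 := hcon x e r1
  have h := hb.mod _ _ (Ico 0 (a' + 2 * q)) (Ico 0 (a' + 2 * q)) (finite_Ico _ _) (finite_Ico _ _)
    f0 (full1 hs hR' hL (nc_sdr hs hR hL hc hj r1) hE' ⟨j₁, hj₁⟩)
    ⟨_, ?_, by
      rw [inter_self]
      exact sdr5 hs hR hR' hL hc hj (hE' _ hj₁) (hE' _ hj₂) hne (z := x) (by omega) (by omega)⟩
    b0 b1
  · refine hb.mono _ _ ?_ h
    rintro w (rfl | hw)
    · exact Or.inr (Or.inl (Or.inl (Or.inr (Or.inl rfl))))
    · exact Or.inl hw
  · refine subset_inter ?_ ?_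
    · rintro w (((hw | rfl | hw) | (rfl | hw)) | (rfl | hw))
      · exact Or.inl (Or.inl (Or.inl (Or.inl hw)))
      · exact Or.inl (Or.inl (Or.inl (Or.inr (Or.inl rfl))))
      · obtain ⟨t, t1, t2, rfl⟩ := hw
        rcases lt_trichotomy t z₀ with h | h | h
        · exact Or.inl (Or.inl (Or.inl (Or.inr (Or.inr ⟨t, t1, by omega, rfl⟩))))
        · exact Or.inl (Or.inl (Or.inr (Or.inl (by rw [h]))))
        · exact Or.inl (Or.inl (Or.inr (Or.inr ⟨t, by omega, by omega, rfl⟩)))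
      · exact Or.inr ⟨j₁, hj₁, rfl⟩
      · exact Or.inl (Or.inl (Or.inr (Or.inr (P_mono (by omega) le_rfl hw))))
      · exact Or.inr ⟨j₂, hj₂, rfl⟩
      · exact Or.inl (Or.inr hw)
    · rintro w (((hw | rfl | hw) | (rfl | hw)) | (rfl | hw))
      · exact Or.inl (Or.inl (Or.inl (Or.inl hw)))
      · exact Or.inl (Or.inl (Or.inl (Or.inr (Or.inl rfl))))
      · exact Or.inl (Or.inl (Or.inl (Or.inr (Or.inr hw))))
      · exact Or.inr ⟨j₁, hj₁, rfl⟩
      · exact Or.inl (Or.inl (Or.inr (Or.inr hw)))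
      · exact Or.inr ⟨j₂, hj₂, rfl⟩
      · exact Or.inl (Or.inr hw)

end route

end C1Q
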